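import Pool.Agent.Lib.MP_9087e4_co.Mz.Defs

/-! Removing a layer of bounded degree. -/

set_option autoImplicit false

namespace Pool.Agent.Lib.MP_9087e4_co.Mz

open Finset Polynomial Filter Topology Pool.Agent.Lib.MP_f8e628_co Pool.Agent.Lib.MP_9087e4_co.Mx

variable {V : Type} [Fintype V] [LinearOrder V]

theorem orient (F : Finset (Sym2 V)) (U : Finset V) (n : ℕ)
    (h : ∀ J ⊆ U, (F.filter fun e => (∃ v ∈ e, v ∈ J) ∧ ∀ v ∈ e, v ∈ U → v ∈ J).card ≤ n * J.card) :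
    ∃ o : V → Finset V, (∀ u ∈ U, ∀ v, s(u, v) ∈ F → v ∈ o u ∨ (v ∈ U ∧ u ∈ o v)) ∧
      ∀ u, (o u).card ≤ n := by
  classical
  obtain ⟨f, hf, ht⟩ := (Finset.all_card_le_biUnion_card_iff_exists_injective
    (fun e : {e : Sym2 V // e ∈ F ∧ ∃ v ∈ e, v ∈ U} =>
      (U.filter fun v => v ∈ e.1) ×ˢ range n)).1 fun S => by
    have h1 := h (U.filter fun v => ∃ e ∈ S, v ∈ e.1) (filter_subset _ _)
    refine (card_le_card_of_injOn Subtype.val (fun e he => ?_)
      Subtype.val_injective.injOn).trans (h1.trans ?_)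
    · obtain ⟨v, hv, hU⟩ := e.2.2
      exact mem_coe.2 (mem_filter.2 ⟨e.2.1, ⟨v, hv, mem_filter.2 ⟨hU, e, he, hv⟩⟩,
        fun w hw hU' => mem_filter.2 ⟨hU', e, he, hw⟩⟩)
    · rw [mul_comm, ← card_range n, ← card_product, card_range]
      refine card_le_card fun p hp => ?_
      obtain ⟨h2, h3⟩ := mem_product.1 hp
      obtain ⟨h4, e, he, h5⟩ := mem_filter.1 h2
      exact mem_biUnion.2 ⟨e, he, mem_product.2 ⟨mem_filter.2 ⟨h4, h5⟩, h3⟩⟩
  refine ⟨fun u => univ.filter fun v => ∃ e, e.1 = s(u, v) ∧ (f e).1 = u, fun u hu v he => ?_,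
    fun u => ?_⟩
  · obtain ⟨h1, h2⟩ := mem_filter.1 (mem_product.1 (ht ⟨s(u, v), he, u, Sym2.mem_mk_left _ _, hu⟩)).1
    rcases Sym2.mem_iff.1 h2 with h3 | h3
    · exact Or.inl (mem_filter.2 ⟨mem_univ _, _, rfl, h3⟩)
    · exact Or.inr ⟨h3 ▸ h1, mem_filter.2 ⟨mem_univ _, _, Sym2.eq_swap, h3⟩⟩
  · rw [← card_range n]
    refine card_le_card_of_forall_subsingleton (fun v k => ∃ e, e.1 = s(u, v) ∧ f e = (u, k))
      (fun v hv => ?_) fun k _ v hv w hw => ?_
    · obtain ⟨e, h1, h2⟩ := (mem_filter.1 hv).2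
      exact ⟨(f e).2, (mem_product.1 (ht e)).2, e, h1, Prod.ext h2 rfl⟩
    · obtain ⟨e, h1, h2⟩ := hv.2
      obtain ⟨e', h3, h4⟩ := hw.2
      rw [hf (h2.trans h4.symm), h3] at h1
      exact (Sym2.congr_right.1 h1).symm

theorem clos_deg (F : Finset (Sym2 V)) (H : Finset V) :
    ∑ u ∈ H, (nb F u).card ≤ 2 * F.card := by
  rw [← card_sigma]
  refine card_le_mul_card_image_of_maps_to (f := fun p => s(p.1, p.2)) (fun p hp => ?_) 2
    fun e _ => ?_
  · exact mem_nb.1 (mem_sigma.1 hp).2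
  · induction e using Sym2.ind with
    | _ a b =>
      refine (card_le_card (t := {⟨a, b⟩, ⟨b, a⟩}) fun p hp => ?_).trans card_le_two
      obtain ⟨x, y⟩ := p
      rcases Sym2.eq_iff.1 (mem_filter.1 hp).2 with ⟨h1, h2⟩ | ⟨h1, h2⟩
      · dsimp only at h1 h2
        subst h1 h2
        exact mem_insert_self _ _
      · dsimp only at h1 h2
        subst h1 h2
        exact mem_insert_of_mem (mem_singleton_self _)

theorem layer (ε : ℝ) (hε : 0 < ε) (C d n : ℕ) (hC : 4 < ε * C) (hd : 0 < d)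
    (h1 : (1 - ε / 2) * d ≤ n) (h2 : n ≤ d) (F : Finset (Sym2 V)) (hF : ∀ e ∈ F, ¬ e.IsDiag)
    (A : Finset V) (hA : A.Nonempty) (hFA : ∀ e ∈ F, ∀ v ∈ e, v ∈ A)
    (hs : ∀ B : Finset V, ((F.filter fun e => ∀ v ∈ e, v ∈ B).card : ℝ) ≤ (1 - ε) * d * B.card) :
    ∃ U ⊆ A, U.Nonempty ∧ (∀ u ∈ U, (nb F u).card ≤ C * d) ∧ ∀ J ⊆ U,
      (F.filter fun e => (∃ v ∈ e, v ∈ J) ∧ ∀ v ∈ e, v ∈ U → v ∈ J).card ≤ n * J.card := by
  classical
  set H := A.filter fun u => C * d < (nb F u).card with hH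
  obtain ⟨S, hS, hmax⟩ := (A.powerset.filter fun S => H ⊆ S).exists_max_image
    (fun S => ((F.filter fun e => ∀ v ∈ e, v ∈ S).card : ℤ) - n * S.card)
    ⟨A, mem_filter.2 ⟨mem_powerset_self _, filter_subset _ _⟩⟩
  obtain ⟨hSA, hHS⟩ := mem_filter.1 hS
  rw [mem_powerset] at hSA
  refine ⟨A \ S, sdiff_subset, ?_, fun u hu => ?_, fun J hJ => ?_⟩
  · rw [sdiff_nonempty]
    intro hAS
    obtain rfl : S = A := hSA.antisymm hAS
    have h3 := hmax H (mem_filter.2 ⟨mem_powerset.2 (filter_subset _ _), Subset.rfl⟩)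
    have h4 := hs S
    rw [filter_true_of_mem hFA] at h3 h4
    have h5 : (n : ℝ) * S.card ≤ F.card + n * H.card := by
      have : (n : ℤ) * S.card ≤ F.card + n * H.card := by
        have := Int.natCast_nonneg (F.filter fun e => ∀ v ∈ e, v ∈ H).card
        linarith
      exact_mod_cast this
    have h6 : (H.card : ℝ) * (C * d) ≤ 2 * F.card := by
      have := (card_nsmul_le_sum H (fun u => (nb F u).card) (C * d)
        fun u hu => (mem_filter.1 hu).2.le).trans (clos_deg F H)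
      rw [smul_eq_mul] at this
      exact_mod_cast this
    have a0 : (0 : ℝ) < S.card := Nat.cast_pos.2 hA.card_pos
    have d0 : (0 : ℝ) < d := Nat.cast_pos.2 hd
    have n1 : (n : ℝ) ≤ d := Nat.cast_le.2 h2
    have k0 : (0 : ℝ) ≤ H.card := Nat.cast_nonneg _
    have c0 : (0 : ℝ) ≤ C := Nat.cast_nonneg _
    have h7 : ε / 2 * S.card ≤ H.card := by
      refine le_of_mul_le_mul_left ?_ d0
      nlinarith [mul_le_mul_of_nonneg_right h1 a0.le, mul_le_mul_of_nonneg_right n1 k0]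
    have h8 : (H.card : ℝ) * C ≤ 2 * S.card := by
      refine le_of_mul_le_mul_left ?_ d0
      nlinarith [mul_pos (mul_pos hε d0) a0]
    nlinarith [mul_le_mul_of_nonneg_right h7 c0, mul_lt_mul_of_pos_right hC a0]
  · obtain ⟨h3, h4⟩ := mem_sdiff.1 hu
    exact not_lt.1 fun h5 => h4 (hHS (mem_filter.2 ⟨h3, h5⟩))
  · have hd : Disjoint S J := disjoint_of_subset_right hJ disjoint_sdiff
    have h3 := hmax (S ∪ J) (mem_filter.2 ⟨mem_powerset.2 (union_subset hSA
      (hJ.trans sdiff_subset)), hHS.trans subset_union_left⟩)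
    have h4 : (F.filter fun e => (∃ v ∈ e, v ∈ J) ∧ ∀ v ∈ e, v ∈ A \ S → v ∈ J).card +
        (F.filter fun e => ∀ v ∈ e, v ∈ S).card ≤ (F.filter fun e => ∀ v ∈ e, v ∈ S ∪ J).card := by
      rw [← card_union_of_disjoint]
      · refine card_le_card (union_subset (fun e he => ?_) fun e he => ?_)
        · obtain ⟨h5, -, h6⟩ := mem_filter.1 he
          refine mem_filter.2 ⟨h5, fun v hv => ?_⟩
          by_cases h7 : v ∈ S
          · exact mem_union_left _ h7
          · exact mem_union_right _ (h6 v hv (mem_sdiff.2 ⟨hFA e h5 v hv, h7⟩))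
        · obtain ⟨h5, h6⟩ := mem_filter.1 he
          exact mem_filter.2 ⟨h5, fun v hv => mem_union_left _ (h6 v hv)⟩
      · refine disjoint_left.2 fun e he he' => ?_
        obtain ⟨v, hv, h5⟩ := (mem_filter.1 he).2.1
        exact disjoint_left.1 hd ((mem_filter.1 he').2 v hv) h5
    rw [card_union_of_disjoint hd] at h3
    push_cast at h3
    zify at h4 ⊢
    linarith

end Pool.Agent.Lib.MP_9087e4_co.Mz
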