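import Pool.Agent.Lib.MP_9087e4_co.Mz.HN
import Pool.Agent.Lib.MP_9087e4_co.Mx.PGe
import Pool.Agent.Lib.MP_9087e4_co.Mx.Mean2I

/-! What the right vertices pay. -/

set_option autoImplicit false

namespace Pool.Agent.Lib.MP_9087e4_co.Mz

open Finset Polynomial Filter Topology Pool.Agent.Lib.MP_f8e628_co Pool.Agent.Lib.MP_9087e4_co.Mx

variable {V : Type} [Fintype V] [DecidableEq V]

theorem meanw_inv (N : ℕ) {T : ℕ} (ν : V → Fin T → ℝ) (h0 : ∀ w c, 0 ≤ ν w c)
    (h1 : ∀ w, ∑ c, ν w c = 1) (a D y : ℝ) (ha : ∀ w c, ν w c ≤ a) (c : Fin T) (S : Finset V)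
    (hS : (S.card : ℝ) ≤ D) (hy : ∑ i ∈ S, ν i c ≤ y) :
    hN N y - D * a ^ 2 ≤ ∑ ξ, pw ν ξ * (1 / (((S.filter fun i => ξ i = c).card : ℝ) + 1)) := by
  have hE : 0 ≤ D * a ^ 2 := mul_nonneg ((Nat.cast_nonneg _).trans hS) (sq_nonneg a)
  refine le_trans ?_ (sum_le_sum fun ξ _ =>
    mul_le_mul_of_nonneg_left (riemann_pow N _) (pw_nonneg h0 ξ))
  simp only [← mul_div_assoc, mul_sum]
  rw [← sum_div, sum_comm]
  simp only [mean2i_pow ν h1]
  rcases Nat.eq_zero_or_pos N with rfl | hN0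
  · simpa [hN] using hE
  have hN1 : (0 : ℝ) < N := Nat.cast_pos.2 hN0
  have hν : ∀ i, ν i c ≤ 1 := fun i =>
    (single_le_sum (fun b _ => h0 i b) (mem_univ c)).trans (h1 i).le
  rw [le_div_iff₀ hN1, sub_mul, hN, div_mul_cancel₀ _ hN1.ne']
  refine le_trans (le_of_eq ?_) (sum_le_sum (f := fun i : ℕ =>
    Real.exp (-(y * (((i : ℝ) + 1) / N))) - D * a ^ 2) fun i hi => ?_)
  · rw [sum_sub_distrib, sum_const, card_range, nsmul_eq_mul, mul_comm (N : ℝ)]
  have u0 : (0 : ℝ) ≤ ((i : ℝ) + 1) / N := by positivity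
  have u1 : ((i : ℝ) + 1) / N ≤ 1 :=
    (div_le_one hN1).2 (by exact_mod_cast Nat.succ_le_of_lt (mem_range.1 hi))
  refine le_trans (sub_le_sub ?_ ?_) (prod_ge S (fun j => ((i : ℝ) + 1) / N * ν j c)
    (fun j _ => mul_nonneg u0 (h0 j c)) fun j _ => mul_le_one₀ u1 (h0 j c) (hν j))
  · rw [← mul_sum, mul_comm y]
    exact Real.exp_le_exp.2 (neg_le_neg (mul_le_mul_of_nonneg_left hy u0))
  · refine (sum_le_card_nsmul _ _ (a ^ 2) fun j _ => ?_).trans ?_
    · exact pow_le_pow_left₀ (mul_nonneg u0 (h0 j c))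
        ((mul_le_of_le_one_left (h0 j c) u1).trans (ha j c)) 2
    · rw [nsmul_eq_mul]
      exact mul_le_mul_of_nonneg_right hS (sq_nonneg a)

theorem meanw_nR (P : Finset (V × V)) (R t : V → ℕ) (c : ℕ) (w : V) :
    nR (Pc P R t c) w = (nR P w).filter fun x => ¬ (c + R w < t x) ∧ c < t x := by
  ext x
  simp only [Pc, mem_nR, mem_filter]

theorem meanw_nL (P : Finset (V × V)) (R t : V → ℕ) (c : ℕ) (x w : V) :
    (nL (Pc P R t c) x).erase w ⊆ (nL P x).filter fun w' => ¬ (c + R w' < t x) := fun w' h => by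
  have h1 := mem_filter.1 (mem_nL.1 (mem_of_mem_erase h))
  exact mem_filter.2 ⟨mem_nL.2 h1.1, h1.2.1⟩

theorem mean_pay3 (N : ℕ) (P : Finset (V × V)) (R t : V → ℕ) {T : ℕ}
    (ν : V → Fin T → ℝ) (h0 : ∀ w c, 0 ≤ ν w c) (h1 : ∀ w, ∑ c, ν w c = 1) (a D : ℝ)
    (ha : ∀ w c, ν w c ≤ a) (hL : ∀ x, ((nL P x).card : ℝ) ≤ D)
    (hR : ∀ w, ((nR P w).card : ℝ) ≤ D) (w : V) (c : Fin T) :
    ((nR P w).filter fun x => t x ≤ c).card + ∑ ξ, pw ν ξ * pay (Pc P R t c) w c ξ ≤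
      exW N P R t ν w c + D * D * a ^ 2 := by
  have hD : 0 ≤ D := (Nat.cast_nonneg _).trans (hR w)
  have hE : 0 ≤ D * a ^ 2 := mul_nonneg hD (sq_nonneg a)
  simp only [pay, mul_sum]
  rw [sum_comm, meanw_nR, sum_filter, card_filter, Nat.cast_sum, ← sum_add_distrib, exW]
  refine (sum_le_sum (g := fun x => (if c + R w < t x then 0 else
    if (c : ℕ) < t x then 1 - hN N (lam P R t ν x c) else 1) + D * a ^ 2) fun x _ => ?_).trans ?_
  · by_cases e1 : c + R w < t x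
    · rw [if_pos e1, if_neg (by omega), if_neg fun h => h.1 e1]
      simpa using hE
    by_cases e2 : (c : ℕ) < t x
    swap
    · rw [if_neg e1, if_neg e2, if_pos (by omega), if_neg fun h => e2 h.2]
      simpa using hE
    rw [if_neg e1, if_pos e2, if_neg (by omega), if_pos ⟨e1, e2⟩]
    have h := meanw_inv N ν h0 h1 a D (lam P R t ν x c) ha c ((nL (Pc P R t c) x).erase w)
      (le_trans (Nat.cast_le.2 (card_le_card ((meanw_nL P R t c x w).trans (filter_subset _ _))))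
        (hL x)) (by
        refine (sum_le_sum_of_subset_of_nonneg (meanw_nL P R t c x w)
          fun i _ _ => h0 i c).trans (le_of_eq ?_)
        rw [sum_filter, lam]
        exact sum_congr rfl fun i _ => ite_not _ _ _)
    simp only [mul_sub, mul_one, sum_sub_distrib, pw_sum_one h1, Nat.cast_zero]
    linarith
  · rw [sum_add_distrib, sum_const, nsmul_eq_mul, mul_assoc]
    exact add_le_add le_rfl (mul_le_mul_of_nonneg_right (hR w) hE)

theorem col_fin (P : Finset (V × V)) (R t : V → ℕ) {T : ℕ} (ξ : V → Fin T) (a y : V → ℝ) (e : ℝ)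
    (hy : ∀ w, 0 ≤ y w) (h1 : ∀ x, (seen0 P R t x ξ : ℝ) ≤ a x)
    (h2 : ∀ x, ∑ w ∈ nL P x, ind (y w ≤ pay0 P R t w (ξ w) ξ) ≤ e) :
    ∃ c θ : V → ℕ, (∀ x, (seenR P c θ t x : ℝ) ≤ a x + e) ∧ ∀ w, payR P c θ t w ≤ y w := by
  classical
  obtain ⟨θ, hb, hg⟩ : ∃ θ : V → ℕ, (∀ w, y w ≤ pay0 P R t w (ξ w) ξ → θ w = 0) ∧
      ∀ w, ¬ y w ≤ pay0 P R t w (ξ w) ξ → θ w = ξ w + R w + 1 :=
    ⟨fun w => if y w ≤ pay0 P R t w (ξ w) ξ then 0 else ξ w + R w + 1,
      fun w h => if_pos h, fun w h => if_neg h⟩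
  have hp : ∀ w k, k < θ w → θ w = ξ w + R w + 1 := fun w k h =>
    hg w fun hB => by have := hb w hB; omega
  refine ⟨fun w => ξ w, θ, fun x => ?_, fun w => ?_⟩
  · have s1 : ((nL P x).filter fun w => θ w ≤ t x) ⊆
        ((nL P x).filter fun w => ξ w + R w < t x) ∪
          (nL P x).filter fun w => y w ≤ pay0 P R t w (ξ w) ξ := fun w hw => by
      obtain ⟨k1, k2⟩ := mem_filter.1 hw
      by_cases hB : y w ≤ pay0 P R t w (ξ w) ξ
      · exact mem_union_right _ (mem_filter.2 ⟨k1, hB⟩)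
      · exact mem_union_left _ (mem_filter.2 ⟨k1, by have := hg w hB; omega⟩)
    have s2 : (((nL P x).filter fun w => t x < θ w ∧ (ξ w : ℕ) < t x).image fun w => (ξ w : ℕ)) ⊆
        (((nL P x).filter fun w => ¬ (ξ w + R w < t x) ∧ (ξ w : ℕ) < t x).image ξ).image
          Fin.val := fun r hr => by
      obtain ⟨w, hw, rfl⟩ := mem_image.1 hr
      obtain ⟨k1, k2, k3⟩ := mem_filter.1 hw
      exact mem_image_of_mem _ (mem_image_of_mem _
        (mem_filter.2 ⟨k1, by have := hp w _ k2; omega, k3⟩))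
    have e2 : (((nL P x).filter fun w => y w ≤ pay0 P R t w (ξ w) ξ).card : ℝ) =
        ∑ w ∈ nL P x, ind (y w ≤ pay0 P R t w (ξ w) ξ) := by
      rw [card_filter]
      push_cast
      refine sum_congr rfl fun w _ => ?_
      by_cases hB : y w ≤ pay0 P R t w (ξ w) ξ
      · rw [if_pos hB, ind_pos hB]
      · rw [if_neg hB, ind_neg hB]
    have e1 : seenR P (fun w => ξ w) θ t x ≤ seen0 P R t x ξ +
        ((nL P x).filter fun w => y w ≤ pay0 P R t w (ξ w) ξ).card := by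
      have k1 := (card_le_card s1).trans (card_union_le _ _)
      have k2 := (card_le_card s2).trans card_image_le
      simp only [seenR, seen0]
      omega
    have e3 := (Nat.cast_le (α := ℝ)).2 e1
    rw [Nat.cast_add, e2] at e3
    exact e3.trans (add_le_add (h1 x) (h2 x))
  · by_cases hB : y w ≤ pay0 P R t w (ξ w) ξ
    · simpa [payR, hb w hB] using hy w
    refine le_trans ?_ (not_le.1 hB).le
    have hw := hg w hB
    rw [payR, pay0, pay, meanw_nR, sum_filter, sum_filter, card_filter, Nat.cast_sum,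
      ← sum_add_distrib]
    refine sum_le_sum fun x hx => ?_
    by_cases e1 : t x < θ w
    swap
    · rw [if_neg e1, if_neg (by omega), if_neg fun h => h.1 (by omega)]
      simp
    by_cases e2 : (ξ w : ℕ) < t x
    swap
    · rw [if_pos e1, if_neg e2, if_pos (by omega), if_neg fun h => e2 h.2]
      simp
    rw [if_pos e1, if_pos e2, if_neg (by omega), if_pos ⟨by omega, e2⟩, Nat.cast_zero, zero_add]
    refine sub_le_sub_left (one_div_le_one_div_of_le (Nat.cast_pos.2 (card_pos.2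
      ⟨w, mem_filter.2 ⟨mem_nL.2 (mem_nR.1 hx), e1, rfl⟩⟩)) ?_) 1
    rw [← Nat.cast_succ, Nat.cast_le]
    refine (card_le_card (t := insert w _) fun w' hw' => ?_).trans (card_insert_le _ _)
    obtain ⟨k1, k2, k3⟩ := mem_filter.1 hw'
    refine mem_insert.2 ((eq_or_ne w' w).imp_right fun k4 => mem_filter.2
      ⟨mem_erase.2 ⟨k4, mem_nL.2 (mem_filter.2 ⟨mem_nL.1 k1, ?_, e2⟩)⟩, Fin.ext k3⟩)
    have := hp w' _ k2
    change ¬ (ξ w + R w' < t x)
    omega

end Pool.Agent.Lib.MP_9087e4_co.Mz
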