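import Pool.Agent.Lib.MP_9087e4_co.Mz.Defs
import Pool.Agent.Lib.MP_9087e4_co.Mx.Mean2S
import Pool.Agent.Lib.MP_9087e4_co.Mx.Tail

/-! What the left vertices see. -/

set_option autoImplicit false

namespace Pool.Agent.Lib.MP_9087e4_co.Mz

open Finset Polynomial Filter Topology Pool.Agent.Lib.MP_f8e628_co Pool.Agent.Lib.MP_9087e4_co.Mx

variable {V : Type} [Fintype V] [DecidableEq V]

theorem meanx_one {T : ℕ} {ν : V → Fin T → ℝ} (h1 : ∀ w, ∑ c, ν w c = 1) (w : V) (g : Fin T → ℝ) :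
    ∑ ξ, pw ν ξ * g (ξ w) = ∑ c, ν w c * g c := by
  rw [pw_resample h1 w fun ξ => g (ξ w)]
  simp only [Function.update_self]
  rw [← sum_mul, pw_sum_one h1, one_mul]

theorem meanx_card (P : Finset (V × V)) (R t : V → ℕ) {T : ℕ} (x : V) (ξ : V → Fin T) :
    (seen0 P R t x ξ : ℝ) = ∑ w ∈ nL P x, (if ξ w + R w < t x then (1 : ℝ) else 0) +
      ∑ c : Fin T, if (c : ℕ) < t x then 1 - ∏ i, (if i ∈ (nL P x).filter
        (fun w => ¬ (c + R w < t x)) ∧ ξ i = c then (0 : ℝ) else 1) else 0 := by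
  rw [seen0, Nat.cast_add, sum_boole]
  congr 1
  rw [← filter_univ_mem (image ξ _), ← sum_boole]
  refine sum_congr rfl fun c _ => ?_
  split_ifs with h1 h2 h2
  · obtain ⟨i, hi, rfl⟩ := mem_image.1 h1
    rw [Finset.prod_eq_zero (mem_univ i), sub_zero]
    exact if_pos ⟨mem_filter.2 ⟨(mem_filter.1 hi).1, (mem_filter.1 hi).2.1⟩, rfl⟩
  · obtain ⟨i, hi, rfl⟩ := mem_image.1 h1
    exact absurd (mem_filter.1 hi).2.2 h2
  · rw [prod_eq_one fun i _ => if_neg ?_, sub_self]
    rintro ⟨hi, rfl⟩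
    exact h1 (mem_image_of_mem _ (mem_filter.2 ⟨(mem_filter.1 hi).1, (mem_filter.1 hi).2, h2⟩))
  · rfl

theorem mean_seen3 (P : Finset (V × V)) (R t : V → ℕ) {T : ℕ} (ν : V → Fin T → ℝ)
    (h0 : ∀ w c, 0 ≤ ν w c) (h1 : ∀ w, ∑ c, ν w c = 1) (a : ℝ) (ha : ∀ w c, ν w c ≤ a) (x : V) :
    ∑ ξ, pw ν ξ * (seen0 P R t x ξ : ℝ) ≤ exX P R t ν x + (nL P x).card * a := by
  have hle : ∀ i a, ν i a ≤ 1 := fun i a =>
    (single_le_sum (fun b _ => h0 i b) (mem_univ a)).trans (h1 i).le
  have hs : ((nL P x).card : ℝ) * a = ∑ c : Fin T, ∑ w ∈ nL P x, ν w c * a := by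
    rw [sum_comm]
    simp only [← sum_mul, h1, sum_const, nsmul_eq_mul, mul_one]
  simp only [meanx_card, mul_add, sum_add_distrib, mul_sum]
  rw [exX, add_assoc, hs]
  refine add_le_add (sum_comm.trans_le (sum_le_sum fun w _ => ?_))
    (sum_comm.trans_le ((sum_le_sum fun c _ => ?_).trans_eq sum_add_distrib))
  · rw [meanx_one h1 w fun c => if c + R w < t x then 1 else 0]
    simp
  · have p0 : ∀ w, 0 ≤ ν w c * a := fun w => mul_nonneg (h0 w c) ((h0 w c).trans (ha w c))
    split_ifs with hc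
    · simp only [mul_sub, mul_one]
      rw [sum_sub_distrib, pw_sum_one h1, m2s_prod ν h1, lam]
      have p1 := prod_ge ((nL P x).filter fun w => ¬ (c + R w < t x)) (fun i => ν i c)
        (fun i _ => h0 i c) fun i _ => hle i c
      have p2 : ∑ i ∈ (nL P x).filter fun w => ¬ (c + R w < t x), ν i c ^ 2 ≤
          ∑ w ∈ nL P x, ν w c * a :=
        (sum_le_sum fun i _ => (sq _).trans_le (mul_le_mul_of_nonneg_left (ha i c) (h0 i c))).trans
          (sum_le_sum_of_subset_of_nonneg (filter_subset _ _) fun i _ _ => p0 i)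
      rw [sum_filter] at p1
      simp only [ite_not] at p1
      linarith
    · simpa using sum_nonneg fun w _ => p0 w

theorem meanx_le (P : Finset (V × V)) (R t : V → ℕ) {T : ℕ} (x : V) (ξ : V → Fin T) (i : V)
    (a b : Fin T) : (seen0 P R t x (Function.update ξ i a) : ℝ) ≤
      seen0 P R t x (Function.update ξ i b) + if i ∈ nL P x then 2 else 0 := by
  split_ifs with hi
  · have e1 : ((nL P x).filter fun w => Function.update ξ i a w + R w < t x) ⊆
        insert i ((nL P x).filter fun w => Function.update ξ i b w + R w < t x) := fun w hw => by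
      by_cases e : w = i
      · exact e ▸ mem_insert_self _ _
      · exact mem_insert_of_mem (by simpa [e] using hw)
    have e2 : ((nL P x).filter fun w => ¬ (Function.update ξ i a w + R w < t x) ∧
        (Function.update ξ i a w : ℕ) < t x).image (Function.update ξ i a) ⊆
        insert a (((nL P x).filter fun w => ¬ (Function.update ξ i b w + R w < t x) ∧
          (Function.update ξ i b w : ℕ) < t x).image (Function.update ξ i b)) := fun c hc => by
      obtain ⟨w, hw, rfl⟩ := mem_image.1 hc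
      by_cases e : w = i
      · simp [e]
      · exact mem_insert_of_mem (mem_image.2 ⟨w, by simpa [e] using hw, by simp [e]⟩)
    have := add_le_add ((card_le_card e1).trans (card_insert_le _ _))
      ((card_le_card e2).trans (card_insert_le _ _))
    unfold seen0
    exact_mod_cast this.trans (le_of_eq (by ring))
  · have e : ∀ w ∈ nL P x, Function.update ξ i a w = Function.update ξ i b w := fun w hw => by
      have : w ≠ i := fun e => hi (e ▸ hw)
      simp [this]
    rw [add_zero, seen0, seen0, filter_congr fun w hw => by rw [e w hw],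
      filter_congr (p := fun w => ¬ _ ∧ _) fun w hw => by rw [e w hw],
      image_congr fun w hw => e w (mem_filter.1 hw).1]

theorem tail_seen3 (P : Finset (V × V)) (R t : V → ℕ) {T : ℕ} (hT : 0 < T) (ν : V → Fin T → ℝ)
    (h0 : ∀ w c, 0 ≤ ν w c) (h1 : ∀ w, ∑ c, ν w c = 1) (x : V) (D μ η : ℝ)
    (hD : ((nL P x).card : ℝ) ≤ D) (hm : ∑ ξ, pw ν ξ * (seen0 P R t x ξ : ℝ) ≤ μ) (hη0 : 0 ≤ η)
    (hη : η ≤ 4) :
    mass (pw ν) (fun ξ => μ + η * D ≤ (seen0 P R t x ξ : ℝ)) ≤ Real.exp (-(η ^ 2 * D / 16)) := by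
  refine (pw_tail ν h0 h1 (fun ξ => (seen0 P R t x ξ : ℝ)) ⟨0, hT⟩
    (fun i _ => if i ∈ nL P x then 2 else 0) (fun ξ i a => abs_sub_le_iff.2
      ⟨sub_le_iff_le_add'.2 (meanx_le P R t x ξ i _ _),
        sub_le_iff_le_add'.2 (meanx_le P R t x ξ i _ _)⟩)
    (η / 8) μ (4 * D) (η * D) (by linarith) (fun i _ => by split_ifs <;> linarith) hm ?_).trans
    (le_of_eq (congrArg _ (by ring)))
  simp only [← sum_mul, h1, one_mul, ite_pow, ne_eq, OfNat.ofNat_ne_zero, not_false_eq_true,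
    zero_pow, sum_ite_mem, univ_inter, sum_const, nsmul_eq_mul]
  linarith

end Pool.Agent.Lib.MP_9087e4_co.Mz
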