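import Pool.Agent.Lib.MP_9087e4_co.Mz.Defs
import Pool.Agent.Lib.MP_9087e4_co.Mx.Lll
import Pool.Agent.Lib.MP_9087e4_co.Mx.Tail
import Pool.Agent.Lib.MP_9087e4_co.Mx.Col2

/-! Even partitions by the local lemma. -/

set_option autoImplicit false

namespace Pool.Agent.Lib.MP_9087e4_co.Mz

open Finset Polynomial Filter Topology Pool.Agent.Lib.MP_f8e628_co Pool.Agent.Lib.MP_9087e4_co.Mx

theorem multi_mean {V : Type} [Fintype V] [DecidableEq V] {L : ℕ} (hL : 0 < L) (S : Finset V)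
    (r : Fin L) :
    ∑ ξ : V → Fin L, pw (uni V L) ξ * (∑ i ∈ S, (if ξ i = r then (1 : ℝ) else 0)) =
      (S.card : ℝ) / L := by
  have h1 : ∀ i : V, ∑ a, uni V L i a = 1 := uni_sum V hL
  have h2 : ∀ i ∈ S, ∑ ξ : V → Fin L,
      pw (uni V L) ξ * (if ξ i = r then (1 : ℝ) else 0) = (L : ℝ)⁻¹ := by
    intro i _
    rw [pw_resample h1 i (fun ξ => if ξ i = r then (1 : ℝ) else 0)]
    have h3 : ∀ ξ : V → Fin L, ∑ a, uni V L i a *
        (if (Function.update ξ i a) i = r then (1 : ℝ) else 0) = (L : ℝ)⁻¹ := by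
      intro ξ
      simp [uni]
    simp only [h3]
    rw [← Finset.sum_mul, pw_sum_one h1, one_mul]
  simp only [Finset.mul_sum]
  rw [Finset.sum_comm, Finset.sum_congr rfl h2, Finset.sum_const, nsmul_eq_mul, div_eq_mul_inv]

theorem multi_tail {V : Type} [Fintype V] [DecidableEq V] {L : ℕ} (hL : 0 < L) (S : Finset V)
    (r : Fin L) (e D : ℝ) (he0 : 0 ≤ e) (he : e ≤ 2) (hS : (S.card : ℝ) ≤ D) :
    mass (pw (uni V L)) (fun ξ : V → Fin L =>
      (S.card : ℝ) / L + e * D ≤ ∑ i ∈ S, (if ξ i = r then (1 : ℝ) else 0)) ≤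
      Real.exp (-(e ^ 2 / 4 * D)) := by
  have h1 : ∀ i : V, ∑ a, uni V L i a = 1 := uni_sum V hL
  have h := pw_tail (uni V L) (uni_nonneg V L) h1
    (fun ξ : V → Fin L => ∑ i ∈ S, (if ξ i = r then (1 : ℝ) else 0)) r
    (fun i _ => if i ∈ S then (1 : ℝ) else 0) ?_ (e / 2) ((S.card : ℝ) / L) D (e * D)
    (by linarith) ?_ ?_ ?_
  · have h2 : (e / 2) ^ 2 * D - e / 2 * (e * D) = -(e ^ 2 / 4 * D) := by ring
    rwa [h2] at h
  · intro ξ i a
    rw [← Finset.sum_sub_distrib]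
    by_cases hi : i ∈ S
    · rw [Finset.sum_eq_single i (fun j _ hj => by simp [Function.update_of_ne hj])
        (fun h => absurd hi h), if_pos hi]
      split_ifs <;> norm_num
    · rw [Finset.sum_eq_zero, if_neg hi, abs_zero]
      intro j hj
      have hji : j ≠ i := fun h => hi (h ▸ hj)
      simp [Function.update_of_ne hji]
  · intro i _
    split_ifs <;> linarith
  · rw [multi_mean hL]
  · have h3 : ∀ i : V, ∑ a, uni V L i a * (if i ∈ S then (1 : ℝ) else 0) ^ 2 =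
        if i ∈ S then (1 : ℝ) else 0 := by
      intro i
      rw [← Finset.sum_mul, h1, one_mul]
      split_ifs <;> norm_num
    simp only [h3]
    rw [Finset.sum_ite_mem, Finset.univ_inter, Finset.sum_const, nsmul_eq_mul, mul_one]
    exact hS

theorem multi (L : ℕ) (hL : 0 < L) (η : ℝ) (hη : 0 < η) : ∃ D0 : ℕ, ∀ D : ℕ, D0 ≤ D →
    ∀ (V J : Type) [Fintype V] [DecidableEq V] [Fintype J] [DecidableEq J] (S : J → Finset V),
      (∀ j, (S j).card ≤ D) → (∀ v, (univ.filter fun j => v ∈ S j).card ≤ 2 * D) →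
      ∃ col : V → Fin L, ∀ j r,
        (((S j).filter fun v => col v = r).card : ℝ) ≤ (S j).card / L + η * D := by
  have he0 : 0 < min η 2 := lt_min hη (by norm_num)
  have he2 : min η 2 ≤ 2 := min_le_right _ _
  have he1 : min η 2 ≤ η := min_le_left _ _
  generalize min η 2 = e at he0 he1 he2
  obtain ⟨D0, h1, hD0⟩ := lll_num2 (e ^ 2 / 4) (by positivity)
  refine ⟨max D0 L, fun D hD V J _ _ _ _ S hS hv => ?_⟩
  have hD1 : (1 : ℝ) ≤ D := by exact_mod_cast h1.trans ((le_max_left _ _).trans hD)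
  have hDL : (L : ℝ) ≤ D := by exact_mod_cast (le_max_right _ _).trans hD
  have hSR : ∀ j, ((S j).card : ℝ) ≤ D := fun j => by exact_mod_cast hS j
  have hD2 : (D : ℝ) ≤ D ^ 2 := by nlinarith
  have hD3 : (D : ℝ) ^ 2 ≤ D ^ 3 := by nlinarith
  obtain ⟨ξ, hξ⟩ := lll_vars (J := J × Fin L) (uni V L) (uni_nonneg V L) (uni_sum V hL)
    (fun j ξ => ((S j.1).card : ℝ) / L + e * D ≤ ∑ i ∈ S j.1, (if ξ i = j.2 then (1 : ℝ) else 0))
    (fun j => S j.1) (fun j ξ ξ' h hB => by
      have h2 : ∑ i ∈ S j.1, (if ξ' i = j.2 then (1 : ℝ) else 0) =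
          ∑ i ∈ S j.1, (if ξ i = j.2 then (1 : ℝ) else 0) :=
        Finset.sum_congr rfl fun i hi => by rw [h i hi]
      rwa [h2]) (2 * (D : ℝ) ^ 3) (3 * (D : ℝ) ^ 3) (Real.exp (-(e ^ 2 / 4 * D)))
    (fun j => (hSR j.1).trans (by linarith)) (fun i => by
      have h2 : (univ.filter fun j : J × Fin L => i ∈ S j.1) =
          (univ.filter fun j => i ∈ S j) ×ˢ univ := by
        ext j
        simp
      rw [h2, Finset.card_product, Finset.card_univ, Fintype.card_fin]
      push_cast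
      have h3 : ((univ.filter fun j => i ∈ S j).card : ℝ) ≤ 2 * D := by exact_mod_cast hv i
      have h4 := mul_le_mul h3 hDL (Nat.cast_nonneg _) (by linarith)
      nlinarith) (by positivity) (by positivity) (Real.exp_pos _).le
    (fun j => multi_tail hL _ _ e D he0.le he2 (hSR j.1)) (hD0 D ((le_max_left _ _).trans hD))
  refine ⟨ξ, fun j r => ?_⟩
  have h2 := not_le.1 (hξ (j, r))
  rw [Finset.sum_boole] at h2
  have h3 : e * D ≤ η * D := mul_le_mul_of_nonneg_right he1 (by linarith)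
  linarith

end Pool.Agent.Lib.MP_9087e4_co.Mz
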