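import Pool.Agent.Lib.MP_9087e4_co.Mz.Laws
import Pool.Agent.Lib.MP_9087e4_co.Mz.MeanX
import Pool.Agent.Lib.MP_9087e4_co.Mz.MeanW
import Pool.Agent.Lib.MP_9087e4_co.Mz.Multi
import Pool.Agent.Lib.MP_9087e4_co.Mx.Col2

/-! Classes and times by the local lemma. -/

set_option autoImplicit false

namespace Pool.Agent.Lib.MP_9087e4_co.Mz

open Finset Polynomial Filter Topology Pool.Agent.Lib.MP_f8e628_co Pool.Agent.Lib.MP_9087e4_co.Mx

theorem col_nL {V : Type} [Fintype V] [DecidableEq V] (P : Finset (V × V)) (R t : V → ℕ) (c : ℕ)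
    (x : V) : nL (Pc P R t c) x ⊆ nL P x :=
  fun _ h => mem_nL.2 (mem_filter.1 (mem_nL.1 h)).1

theorem col_nR {V : Type} [Fintype V] [DecidableEq V] (P : Finset (V × V)) (R t : V → ℕ) (c : ℕ)
    (w : V) : nR (Pc P R t c) w ⊆ nR P w :=
  fun _ h => mem_nR.2 (mem_filter.1 (mem_nR.1 h)).1

theorem col_pay {V : Type} [Fintype V] [DecidableEq V] (P : Finset (V × V)) (R t : V → ℕ) {T : ℕ}
    (w : V) (c : Fin T) (ξ ξ' : V → Fin T)
    (h : ∀ i ∈ (nR P w).biUnion (nL P), ξ i = ξ' i) : pay0 P R t w c ξ = pay0 P R t w c ξ' := by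
  unfold pay0
  rw [col2_congr (Pc P R t c) w c ξ ξ' fun i hi => ?_]
  obtain ⟨x, h1, h2⟩ := mem_biUnion.1 hi
  exact h i (mem_biUnion.2 ⟨x, col_nR P R t c w h1, col_nL P R t c x h2⟩)

theorem col_seen {V : Type} [Fintype V] [DecidableEq V] (P : Finset (V × V)) (R t : V → ℕ)
    {T : ℕ} (x : V) (ξ ξ' : V → Fin T) (h : ∀ i ∈ nL P x, ξ i = ξ' i) :
    seen0 P R t x ξ = seen0 P R t x ξ' := by
  unfold seen0
  have e1 : ((nL P x).filter fun w => ξ w + R w < t x) =
      (nL P x).filter fun w => ξ' w + R w < t x := filter_congr fun w hw => by rw [h w hw]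
  have e2 : ((nL P x).filter fun w => ¬ (ξ w + R w < t x) ∧ (ξ w : ℕ) < t x) =
      (nL P x).filter fun w => ¬ (ξ' w + R w < t x) ∧ (ξ' w : ℕ) < t x :=
    filter_congr fun w hw => by rw [h w hw]
  rw [e1, e2, image_congr fun i hi => h i (mem_filter.1 (mem_coe.1 hi)).1]

theorem col_bn (β : ℝ) (hβ : 0 < β) : ∃ D0 : ℕ, ∀ D : ℕ, D0 ≤ D →
    ∀ (V : Type) [Fintype V] [DecidableEq V] (P : Finset (V × V)),
      (∀ x, (nL P x).card ≤ D) → (∀ w, (nR P w).card ≤ D) → ∃ bn : V → ℕ,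
      ∀ x i, (((nL P x).filter fun w => bn w = i).card : ℝ) ≤ β * D := by
  obtain ⟨L, hL1⟩ := exists_nat_ge (2 / β)
  have hL2 : (0 : ℝ) < L := (div_pos two_pos hβ).trans_le hL1
  obtain ⟨D0, h⟩ := multi L (by exact_mod_cast hL2) (β / 2) (by positivity)
  refine ⟨D0, fun D hD V _ _ P hL hR => ?_⟩
  obtain ⟨col, hc⟩ := h D hD V V (nL P) hL fun v => by
    have e : (univ.filter fun j => v ∈ nL P j) = nR P v := by
      ext j
      simp
    rw [e]
    exact (hR v).trans (by omega)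
  have hD0 : (0 : ℝ) ≤ D := Nat.cast_nonneg D
  refine ⟨fun w => col w, fun x i => ?_⟩
  by_cases hi : i < L
  · have e : ((nL P x).filter fun w => (col w : ℕ) = i) =
        (nL P x).filter fun w => col w = ⟨i, hi⟩ :=
      filter_congr fun w _ => by rw [Fin.ext_iff]
    rw [e]
    refine (hc x ⟨i, hi⟩).trans ?_
    have h1 : ((nL P x).card : ℝ) ≤ D := by exact_mod_cast hL x
    have h2 : ((nL P x).card : ℝ) / L ≤ β / 2 * D := by
      rw [div_le_iff₀ hL2]
      rw [div_le_iff₀ hβ] at hL1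
      nlinarith
    linarith
  · have e : ((nL P x).filter fun w => (col w : ℕ) = i) = ∅ :=
      filter_eq_empty_iff.2 fun w _ e => hi (e ▸ (col w).2)
    rw [e, card_empty, Nat.cast_zero]
    positivity

theorem colouring3 (η : ℝ) (hη : 0 < η) : ∃ δ : ℝ, 0 < δ ∧ ∃ D0 : ℕ, ∀ D : ℕ, D0 ≤ D →
    ∀ (V : Type) [Fintype V] [DecidableEq V] (P Q : Finset (V × V)), Q ⊆ P →
      (∀ x, (nL P x).card ≤ D) → (∀ w, (nR P w).card ≤ D) →
      (∀ w w', w ≠ w' → ((nR P w ∩ nR P w').card : ℝ) ≤ δ * D) →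
      ∃ c θ t : V → ℕ, (∀ x, (seenR P c θ t x : ℝ) ≤ ld P Q x + η * D) ∧
        ∀ w, payR P c θ t w ≤ ld P Q w + η * D := by
  obtain ⟨e, he0, he1, he2⟩ : ∃ e : ℝ, 0 < e ∧ e ≤ 1 ∧ e ≤ η / 4 :=
    ⟨min (η / 4) 1, lt_min (by linarith) one_pos, min_le_right _ _, min_le_left _ _⟩
  obtain ⟨θ, β, hθ0, hθ1, hβ, N, D1, -, hlaw⟩ := laws e he0
  obtain ⟨p0, hp0, hbad⟩ := tail_bad θ e hθ0 he0
  obtain ⟨D2, hD2, hnum⟩ := lll_num2 (e ^ 2 / 16) (by positivity)
  obtain ⟨D3, hbn⟩ := col_bn β hβ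
  obtain ⟨D4, hD4⟩ := exists_nat_ge (1 / θ ^ 2 / e)
  refine ⟨e ^ 2 * θ * p0 / 4, by positivity, D1 + D2 + D3 + D4,
    fun D hD V _ _ P Q hQ hL hR hcod => ?_⟩
  have hD1 : 1 ≤ D := by omega
  have hDpos : (0 : ℝ) < D := by exact_mod_cast hD1
  have heD : 0 < e * D := mul_pos he0 hDpos
  have heη : e * D ≤ η / 4 * D := mul_le_mul_of_nonneg_right he2 hDpos.le
  have hθD : 1 / θ ^ 2 ≤ e * D := by
    have h4 : (D4 : ℝ) ≤ D := by exact_mod_cast (by omega : D4 ≤ D)
    rw [div_le_iff₀ he0] at hD4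
    nlinarith
  have hθD' : 1 / θ ≤ e * D :=
    (one_div_le_one_div_of_le (by positivity) (by nlinarith)).trans hθD
  have hL' : ∀ x, ((nL P x).card : ℝ) ≤ D := fun x => by exact_mod_cast hL x
  have hR' : ∀ x, ((nR P x).card : ℝ) ≤ D := fun x => by exact_mod_cast hR x
  obtain ⟨bn, hb⟩ := hbn D (by omega) V P hL hR
  obtain ⟨T, ν, R, t, hT2, h0, h1, hν, hs, hp⟩ := hlaw D (by omega) V P Q hQ hL hR bn hb
  have hpay : ∀ w r, ν w r ≠ 0 → mass (pw ν)
      (fun ξ => (ld P Q w : ℝ) + 3 * (e * D) ≤ pay0 P R t w r ξ) ≤ p0 := fun w r hr => by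
    have : Nontrivial (Fin T) := Fin.nontrivial_iff_two_le.2 hT2
    obtain ⟨a0, ha0⟩ := exists_ne r
    have hm := mean_pay3 N P R t ν h0 h1 _ D hν hL' hR' w r
    have e0 : (D : ℝ) * D * (1 / (θ * D)) ^ 2 = 1 / θ ^ 2 := by field_simp
    have e2 : (fun ξ => (ld P Q w : ℝ) + 3 * (e * D) ≤ pay0 P R t w r ξ) =
        fun ξ => (ld P Q w + 2 * (e * D) - ((nR P w).filter fun x => t x ≤ r).card) + e * D ≤
          pay (Pc P R t r) w r ξ := by
      funext ξ
      unfold pay0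
      exact propext ⟨fun h => by linarith, fun h => by linarith⟩
    rw [e2]
    refine (tail_pay2 ν h0 h1 r a0 ha0 D θ (e ^ 2 * θ * p0 / 4 * D) _ e hD1 hθ0
      (by positivity) he0.le (by nlinarith) (fun i => hν i r) (Pc P R t r)
      (fun x => (card_le_card (col_nL P R t r x)).trans (hL x))
      (fun x => (card_le_card (col_nR P R t r x)).trans (hR x))
      (fun u u' hu => le_trans (Nat.cast_le.2 (card_le_card
        (inter_subset_inter (col_nR P R t r u) (col_nR P R t r u')))) (hcod u u' hu))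
      w (by linarith [hp w r hr])).trans ?_
    have e1 : e ^ 2 * θ * D / (4 * (e ^ 2 * θ * p0 / 4 * D)) = p0⁻¹ := by
      field_simp
    rw [e1, Real.exp_neg, inv_le_comm₀ (Real.exp_pos _) hp0]
    linarith [Real.add_one_le_exp p0⁻¹]
  obtain ⟨ξ, hξ⟩ := lll_vars (J := V × Bool) ν h0 h1
    (fun j ξ => bif j.2 then
      e * D ≤ ∑ w ∈ nL P j.1, ind ((ld P Q w : ℝ) + 3 * (e * D) ≤ pay0 P R t w (ξ w) ξ)
      else (ld P Q j.1 : ℝ) + 2 * (e * D) + e * D ≤ (seen0 P R t j.1 ξ : ℝ))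
    (col2_dp P)
    (by
      rintro ⟨x, b⟩ ξ ξ' h hB
      cases b with
      | false =>
        simp only [col2_dp, cond_false] at h hB ⊢
        rw [← col_seen P R t x ξ ξ' h]
        exact hB
      | true =>
        simp only [col2_dp, cond_true] at h hB ⊢
        refine hB.trans (le_of_eq (sum_congr rfl fun w hw => ?_))
        rw [← h w (mem_union_left _ hw), col_pay P R t w (ξ w) ξ ξ' fun i hi =>
          h i (mem_union_right _ (mem_biUnion.2 ⟨w, hw, hi⟩))])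
    (2 * (D : ℝ) ^ 3) (3 * (D : ℝ) ^ 3) (Real.exp (-(e ^ 2 / 16 * D)))
    (fun j => by exact_mod_cast col2_s P D hL hR j)
    (fun i => by exact_mod_cast col2_t P D hL hR i)
    (by positivity) (by positivity) (Real.exp_pos _).le
    (by
      rintro ⟨x, b⟩
      cases b with
      | false =>
        simp only [cond_false]
        have hm := mean_seen3 P R t ν h0 h1 _ hν x
        have e3 : ((nL P x).card : ℝ) * (1 / (θ * D)) ≤ 1 / θ := by
          refine (mul_le_mul_of_nonneg_right (hL' x) (by positivity)).trans (le_of_eq ?_)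
          field_simp
        refine (tail_seen3 P R t (by omega) ν h0 h1 x D (ld P Q x + 2 * (e * D)) e (hL' x)
          (by linarith [hs x]) he0.le (by linarith)).trans (le_of_eq ?_)
        congr 1
        ring
      | true =>
        simp only [cond_true]
        refine (hbad V (Fin T) ν h0 h1 D hDpos hν (nL P x) (hL' x)
          (fun w r ξ => (ld P Q w : ℝ) + 3 * (e * D) ≤ pay0 P R t w r ξ)
          (fun w r ξ ξ' h hB => hB.trans (add_le_add le_rfl (pay_mono _ w h))) hpay).trans ?_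
        apply Real.exp_le_exp.2
        nlinarith [mul_le_mul_of_nonneg_right he1 heD.le])
    (hnum D (by omega))
  obtain ⟨c, θ', hc1, hc2⟩ := col_fin P R t ξ (fun x => (ld P Q x : ℝ) + 2 * (e * D) + e * D)
    (fun w => (ld P Q w : ℝ) + 3 * (e * D)) (e * D) (fun w => by positivity)
    (fun x => (not_le.1 (hξ (x, false))).le) fun x => (not_le.1 (hξ (x, true))).le
  exact ⟨c, θ', t, fun x => (hc1 x).trans (by linarith), fun w => (hc2 w).trans (by linarith)⟩

end Pool.Agent.Lib.MP_9087e4_co.Mz
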