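import Pool.Agent.Lib.MP_9087e4_co.Mz.Defs
import Pool.Agent.Lib.MP_9087e4_co.Mx.Count

/-! The counting conditions. -/

set_option autoImplicit false

namespace Pool.Agent.Lib.MP_9087e4_co.Mz

open Finset Polynomial Filter Topology Pool.Agent.Lib.MP_f8e628_co Pool.Agent.Lib.MP_9087e4_co.Mx

variable {V : Type} [Fintype V] [DecidableEq V]

theorem count_free (P : Finset (V × V)) (c θ t : V → ℕ) (r : ℕ) (J : Finset V)
    (hJ : ∀ w ∈ J, c w = r) :
    ∑ w ∈ J, (((nR P w).filter fun x => t x < θ w).card : ℝ) ≤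
      ((J.biUnion fun w => (nR P w).filter fun x => t x < θ w) \
        univ.filter fun x => t x ≤ r).card + ∑ w ∈ J, payR P c θ t w := by
  have h1 := count_swap (P.filter fun p => t p.1 < θ p.2 ∧ r < t p.1) J
  have h2 : ((J.biUnion (nR (P.filter fun p => t p.1 < θ p.2 ∧ r < t p.1))).card : ℝ) ≤
      ((J.biUnion fun w => (nR P w).filter fun x => t x < θ w) \
        univ.filter fun x => t x ≤ r).card := by
    refine Nat.cast_le.2 (card_le_card fun x hx => ?_)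
    obtain ⟨w, hw, hx⟩ := mem_biUnion.1 hx
    obtain ⟨h3, h4, h5⟩ := mem_filter.1 (mem_nR.1 hx)
    exact mem_sdiff.2 ⟨mem_biUnion.2 ⟨w, hw, mem_filter.2 ⟨mem_nR.2 h3, h4⟩⟩,
      fun h => absurd (mem_filter.1 h).2 (not_le.2 h5)⟩
  refine le_trans ?_ (add_le_add h2 le_rfl)
  rw [← h1, ← sum_add_distrib]
  refine sum_le_sum fun w hw => ?_
  have h3 : nR (P.filter fun p => t p.1 < θ p.2 ∧ r < t p.1) w =
      ((nR P w).filter fun x => t x < θ w).filter fun x => r < t x := by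
    ext x
    simp only [mem_nR, mem_filter, and_assoc]
  rw [h3, sum_filter, payR, ← sum_add_distrib, card_eq_sum_ones, Nat.cast_sum, hJ w hw]
  refine sum_le_sum fun x hx => ?_
  obtain ⟨h4, h5⟩ := mem_filter.1 hx
  split_ifs with h6
  · have h7 : (0 : ℝ) < (J ∩ nL (P.filter fun p => t p.1 < θ p.2 ∧ r < t p.1) x).card :=
      Nat.cast_pos.2 (card_pos.2 ⟨w, mem_inter.2 ⟨hw,
        mem_nL.2 (mem_filter.2 ⟨mem_nR.1 h4, h5, h6⟩)⟩⟩)
    have h8 : ((J ∩ nL (P.filter fun p => t p.1 < θ p.2 ∧ r < t p.1) x).card : ℝ) ≤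
        ((nL P x).filter fun w' => t x < θ w' ∧ c w' = r).card := by
      refine Nat.cast_le.2 (card_le_card fun y hy => ?_)
      obtain ⟨h9, h10⟩ := mem_inter.1 hy
      obtain ⟨h11, h12, -⟩ := mem_filter.1 (mem_nL.1 h10)
      exact mem_filter.2 ⟨mem_nL.2 h11, h12, hJ y h9⟩
    have h9 := one_div_le_one_div_of_le h7 h8
    rw [Nat.cast_one]
    linarith
  · rw [Nat.cast_one, zero_add]

theorem count_min (N : V → Finset V) (b : V → ℕ) (s κ : ℝ) (hs : 0 < s) (hκ : κ ≤ 2 * s)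
    (hcod : ∀ w w', w ≠ w' → ((N w ∩ N w').card : ℝ) ≤ κ) (J : Finset V) (w₀ : V) (h0 : w₀ ∈ J)
    (hm : ∀ w ∈ J, b w₀ ≤ b w)
    (h : ∑ w ∈ J, ((N w).card : ℝ) ≤ (J.biUnion N).card + ∑ w ∈ J, ((b w : ℝ) - s)) :
    ∑ w ∈ J, (N w).card + b w₀ ≤ (J.biUnion N).card + ∑ w ∈ J, b w := by
  have hn : (1 : ℝ) ≤ J.card := by exact_mod_cast card_pos.2 ⟨w₀, h0⟩
  have key : ∑ w ∈ J, ((N w).card : ℝ) + b w₀ ≤ ((J.biUnion N).card : ℝ) + ∑ w ∈ J, (b w : ℝ) := by
    by_cases hb : (b w₀ : ℝ) ≤ J.card * s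
    · rw [sum_sub_distrib, sum_const, nsmul_eq_mul] at h
      linarith
    · have h1 := count_small N κ hcod J
      have h2 : (0 : ℝ) ≤ J.card * (J.card - 1) / 2 := by
        have : (0 : ℝ) ≤ J.card - 1 := by linarith
        positivity
      have h3 := mul_le_mul_of_nonneg_right hκ h2
      have h4 : (J.card * s) * ((J.card : ℝ) - 1) ≤ b w₀ * (J.card - 1) :=
        mul_le_mul_of_nonneg_right (not_le.mp hb).le (by linarith)
      have h5 : ∑ _w ∈ J, (b w₀ : ℝ) ≤ ∑ w ∈ J, (b w : ℝ) :=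
        sum_le_sum fun w hw => Nat.cast_le.2 (hm w hw)
      rw [sum_const, nsmul_eq_mul] at h5
      nlinarith
  exact_mod_cast key

end Pool.Agent.Lib.MP_9087e4_co.Mz
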