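import Pool.Agent.Lib.MP_9087e4_co.Mz.Det
import Pool.Agent.Lib.MP_9087e4_co.Mz.Col

/-! One block. -/

set_option autoImplicit false

namespace Pool.Agent.Lib.MP_9087e4_co.Mz

open Finset Polynomial Filter Topology Pool.Agent.Lib.MP_f8e628_co Pool.Agent.Lib.MP_9087e4_co.Mx

theorem tfree3 (η : ℝ) (hη : 0 < η) : ∃ δ : ℝ, 0 < δ ∧ ∃ D0 : ℕ, ∀ D : ℕ, D0 ≤ D →
    ∀ (V : Type) [Fintype V] [DecidableEq V] (A : Finset V) (P Q : Finset (V × V)),
      (∀ p ∈ P, p.1 ∈ A ∧ p.2 ∉ A) → Q ⊆ P →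
      (∀ x, (nL P x).card ≤ D) → (∀ w, (nR P w).card ≤ D) →
      (∀ w w', w ≠ w' → ((nR P w ∩ nR P w').card : ℝ) ≤ δ * D) →
      ∀ k : V → ℕ, (∀ v, ld P Q v + η * D ≤ k v) → ∃ a, TFree k P a := by
  obtain ⟨δ, hδ, D0, h⟩ := colouring3 (η / 2) (by positivity)
  refine ⟨min δ η, lt_min hδ hη, max D0 ⌈2 / η⌉₊, fun D hD V _ _ A P Q hP hQ hL hR hc k hk => ?_⟩
  have D0' : (0 : ℝ) ≤ D := Nat.cast_nonneg D
  have h1 : 2 ≤ η * D := by
    rw [← div_le_iff₀' hη]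
    exact (Nat.le_ceil _).trans (Nat.cast_le.2 ((le_max_right _ _).trans hD))
  obtain ⟨c, θ, t, c1, c2⟩ := h D ((le_max_left _ _).trans hD) V P Q hQ hL hR fun w w' e =>
    (hc w w' e).trans (mul_le_mul_of_nonneg_right (min_le_left _ _) D0')
  refine tfree_of_times A P hP k c θ t (η / 2 * D) (η * D) (by linarith) (by linarith)
    (fun w w' e => (hc w w' e).trans (mul_le_mul_of_nonneg_right (min_le_right _ _) D0'))
    (fun x => ?_) fun w => by linarith [c2 w, hk w]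
  have : (seenR P c θ t x : ℝ) + 1 ≤ k x := by linarith [c1 x, hk x]
  exact_mod_cast this

end Pool.Agent.Lib.MP_9087e4_co.Mz
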