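import Pool.Agent.Lib.MP_9087e4_co.Mx.Defs2

/-! Definitions for the asymptotic Maxwell count. -/

set_option autoImplicit false

namespace Pool.Agent.Lib.MP_9087e4_co.Mz

open Finset Polynomial Filter Topology Pool.Agent.Lib.MP_f8e628_co Pool.Agent.Lib.MP_9087e4_co.Mx

/-- the system with matrix `M` has only the trivial solution -/
def Triv {ι κ : Type} [Fintype ι] (M : κ → ι → ℝ) : Prop :=
  ∀ ω : ι → ℝ, (∀ c, ∑ e, M c e * ω e = 0) → ω = 0

/-- projection to the unit interval -/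
noncomputable def clip (z : ℝ) : ℝ := max 0 (min 1 z)

/-- a lower Riemann sum of the mean of `exp (- y u)` over `0 < u < 1` -/
noncomputable def hN (N : ℕ) (y : ℝ) : ℝ :=
  (∑ i ∈ range N, Real.exp (-(y * (((i : ℝ) + 1) / N)))) / N

section
variable {V : Type} [Fintype V] [DecidableEq V]

/-- the bipartite moment system with budgets `k` has only the trivial solution -/
def TFree (k : V → ℕ) (P : Finset (V × V)) (a : V → ℝ) : Prop :=
  ∀ ω : V → V → ℝ, (∀ x w, (x, w) ∉ P → ω x w = 0) →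
    (∀ x, ∀ l < k x, ∑ w, ω x w * a w ^ l = 0) → (∀ w, ∀ l < k w, ∑ x, ω x w * a x ^ l = 0) →
    ∀ x w, ω x w = 0

/-- the moment equations at the vertices of `U` kill all edges that meet `U` -/
def MFree (d : ℕ) (U : Finset V) (F : Finset (Sym2 V)) (a : V → ℝ) : Prop :=
  ∀ ω : V → V → ℝ, (∀ u v, ω v u = -ω u v) → (∀ u v, s(u, v) ∉ F → ω u v = 0) →
    (∀ u ∈ U, ∀ l < d, ∑ v, ω u v * a v ^ l = 0) → ∀ u ∈ U, ∀ v, ω u v = 0

/-- the edges from class `i` to class `j` inside `U` -/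
def blk (F : Finset (Sym2 V)) (U : Finset V) {L : ℕ} (col : V → Fin L) (i j : Fin L) :
    Finset (V × V) :=
  univ.filter fun p => s(p.1, p.2) ∈ F ∧ p.1 ∈ U ∧ p.2 ∈ U ∧ col p.1 = i ∧ col p.2 = j

/-- the load of a vertex when the left ends pay for the edges of `Q` -/
def ld (P Q : Finset (V × V)) (v : V) : ℕ := (nL Q v).card + (nR (P \ Q) v).card

/-- active load of class `c` at `x` -/
noncomputable def eqL (P : Finset (V × V)) (R : V → ℕ) (p : V → ℕ → ℝ) (τ : V → ℝ) (x : V)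
    (c : ℕ) : ℝ :=
  ∑ w ∈ nL P x, p w c * (1 - clip (τ x - c - R w))

/-- the share of the edge `(x, w)` paid by `w` when it is in class `c` -/
noncomputable def eqS (N : ℕ) (P : Finset (V × V)) (R : V → ℕ) (p : V → ℕ → ℝ) (τ : V → ℝ)
    (x w : V) (c : ℕ) : ℝ :=
  (1 - clip (τ x - c - R w)) * (1 - clip (τ x - c) * hN N (eqL P R p τ x c))

/-- what `w` pays in class `c` -/
noncomputable def eqPay (N : ℕ) (P : Finset (V × V)) (R : V → ℕ) (p : V → ℕ → ℝ) (τ : V → ℝ)
    (w : V) (c : ℕ) : ℝ :=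
  ∑ x ∈ nR P w, eqS N P R p τ x w c

/-- what `x` pays -/
noncomputable def eqCost (N T : ℕ) (P : Finset (V × V)) (R : V → ℕ) (p : V → ℕ → ℝ) (τ : V → ℝ)
    (x : V) : ℝ :=
  ∑ w ∈ nL P x, ∑ c ∈ range T, p w c * (1 - eqS N P R p τ x w c)

/-- an equilibrium -/
structure Equil (N T m : ℕ) (P : Finset (V × V)) (R : V → ℕ) (b : V → ℝ) (p : V → ℕ → ℝ)
    (τ : V → ℝ) : Prop where
  p0 : ∀ w c, 0 ≤ p w c
  p1 : ∀ w c, p w c ≤ 1 / m
  ps : ∀ w, ∑ c ∈ range T, p w c ≤ 1
  sat : ∀ w, ∀ c < T, 0 < p w c → eqPay N P R p τ w c ≤ b w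
  pol : ∀ w, ∀ c < T, 0 < p w c →
    ((Ioo c T).filter fun c' => eqPay N P R p τ w c' < b w).card ≤ m
  ful : ∀ w, m ≤ ((range T).filter fun c => eqPay N P R p τ w c < b w).card →
    ∑ c ∈ range T, p w c = 1
  t0 : ∀ x, 0 ≤ τ x
  cl : ∀ x, eqCost N T P R p τ x ≤ b x
  cg : ∀ x, τ x < T → b x ≤ eqCost N T P R p τ x

/-- unresolved load of class `c` at `x` -/
noncomputable def lam (P : Finset (V × V)) (R t : V → ℕ) {T : ℕ} (ν : V → Fin T → ℝ) (x : V)
    (c : Fin T) : ℝ :=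
  ∑ w ∈ nL P x, if c + R w < t x then 0 else ν w c

/-- Poisson model of what `x` pays -/
noncomputable def exX (P : Finset (V × V)) (R t : V → ℕ) {T : ℕ} (ν : V → Fin T → ℝ) (x : V) : ℝ :=
  ∑ w ∈ nL P x, ∑ c : Fin T, (if c + R w < t x then ν w c else 0) +
    ∑ c : Fin T, if (c : ℕ) < t x then 1 - Real.exp (-lam P R t ν x c) else 0

/-- Poisson model of what `w` pays in class `c` -/
noncomputable def exW (N : ℕ) (P : Finset (V × V)) (R t : V → ℕ) {T : ℕ} (ν : V → Fin T → ℝ)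
    (w : V) (c : Fin T) : ℝ :=
  ∑ x ∈ nR P w, if c + R w < t x then 0 else
    if (c : ℕ) < t x then 1 - hN N (lam P R t ν x c) else 1

/-- resolved neighbours and open classes seen by `x` -/
def seen0 (P : Finset (V × V)) (R t : V → ℕ) {T : ℕ} (x : V) (ξ : V → Fin T) : ℕ :=
  ((nL P x).filter fun w => ξ w + R w < t x).card +
    (((nL P x).filter fun w => ¬ (ξ w + R w < t x) ∧ (ξ w : ℕ) < t x).image ξ).card

/-- the edges that are open and not resolved for class `c` -/
def Pc (P : Finset (V × V)) (R t : V → ℕ) (c : ℕ) : Finset (V × V) :=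
  P.filter fun p => ¬ (c + R p.2 < t p.1) ∧ c < t p.1

/-- what `w` pays in class `c` -/
noncomputable def pay0 (P : Finset (V × V)) (R t : V → ℕ) {T : ℕ} (w : V) (c : Fin T)
    (ξ : V → Fin T) : ℝ :=
  ((nR P w).filter fun x => t x ≤ c).card + pay (Pc P R t c) w c ξ

/-- classes `c`, resolving times `θ`, times `t`: the parts seen by `x`, but for the last one -/
def seenR (P : Finset (V × V)) (c θ t : V → ℕ) (x : V) : ℕ :=
  ((nL P x).filter fun w => θ w ≤ t x).card +
    (((nL P x).filter fun w => t x < θ w ∧ c w < t x).image c).card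

/-- classes `c`, resolving times `θ`, times `t`: what `w` pays -/
noncomputable def payR (P : Finset (V × V)) (c θ t : V → ℕ) (w : V) : ℝ :=
  ∑ x ∈ (nR P w).filter fun x => t x < θ w, if c w < t x then
    1 - 1 / (((nL P x).filter fun w' => t x < θ w' ∧ c w' = c w).card : ℝ) else 1

end

theorem clip_nonneg (z : ℝ) : 0 ≤ clip z := le_max_left _ _

theorem clip_le_one (z : ℝ) : clip z ≤ 1 := max_le zero_le_one (min_le_left _ _)

theorem clip_mono {z z' : ℝ} (h : z ≤ z') : clip z ≤ clip z' :=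
  max_le_max le_rfl (min_le_min le_rfl h)

theorem clip_zero {z : ℝ} (h : z ≤ 0) : clip z = 0 := max_eq_left ((min_le_right _ _).trans h)

theorem clip_one {z : ℝ} (h : 1 ≤ z) : clip z = 1 := by
  rw [clip, min_eq_left h, max_eq_right zero_le_one]

theorem clip_cont : Continuous clip := by
  unfold clip
  fun_prop

end Pool.Agent.Lib.MP_9087e4_co.Mz
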