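import Pool.Agent.Lib.MP_9087e4_co.Mz.Lin
import Pool.Agent.Lib.MP_9087e4_co.Mx.Mom

/-! Degeneration to the blocks. -/

set_option autoImplicit false

namespace Pool.Agent.Lib.MP_9087e4_co.Mz

open Finset Polynomial Filter Topology Pool.Agent.Lib.MP_f8e628_co Pool.Agent.Lib.MP_9087e4_co.Mx

variable {V : Type} [Fintype V] [LinearOrder V]

/-- antisymmetric solutions supported on `cr` of the tests `E` vanish -/
def DegS {κ : Type} (cr : Finset (V × V)) (own : κ → V) (E : κ → V → ℝ) : Prop :=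
  ∀ ω : V → V → ℝ, (∀ u v, ω v u = -ω u v) → (∀ u v, (u, v) ∉ cr → ω u v = 0) →
    (∀ c, ∑ v, E c v * ω (own c) v = 0) → ∀ u v, ω u v = 0

/-- the matrix of that system -/
def degM {κ : Type} (cr : Finset (V × V)) (own : κ → V) (E : κ → V → ℝ) :
    (V × V) ⊕ (V × V) ⊕ κ → V × V → ℝ
  | .inl p, e => (if e = p.swap then 1 else 0) + if e = p then 1 else 0
  | .inr (.inl p), e => if e = p then (if p ∈ cr then 0 else 1) else 0
  | .inr (.inr c), e => if e.1 = own c then E c e.2 else 0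

theorem deg_iff {κ : Type} (cr : Finset (V × V)) (own : κ → V) (E : κ → V → ℝ) :
    Triv (degM cr own E) ↔ DegS cr own E := by
  have e1 : ∀ (ω : V × V → ℝ) (p : V × V),
      ∑ e, degM cr own E (.inl p) e * ω e = ω p.swap + ω p := fun ω p => by
    simp [degM, add_mul, sum_add_distrib]
  have e2 : ∀ (ω : V × V → ℝ) (p : V × V),
      ∑ e, degM cr own E (.inr (.inl p)) e * ω e = if p ∈ cr then 0 else ω p := fun ω p => by
    simp [degM]
  have e3 : ∀ (ω : V × V → ℝ) (c : κ),
      ∑ e, degM cr own E (.inr (.inr c)) e * ω e = ∑ v, E c v * ω (own c, v) := fun ω c => by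
    rw [Fintype.sum_prod_type, sum_eq_single (own c)]
    · simp [degM]
    · intro b _ hb
      simp [degM, hb]
    · simp
  constructor
  · intro h ω h1 h2 h3 u v
    refine congrFun (h (fun e => ω e.1 e.2) fun c => ?_) (u, v)
    rcases c with p | p | c
    · rw [e1, Prod.fst_swap, Prod.snd_swap, h1 p.1 p.2, neg_add_cancel]
    · rw [e2]
      split_ifs with hp
      exacts [rfl, h2 _ _ hp]
    · rw [e3]
      exact h3 c
  · intro h ω hω
    funext e
    refine h (fun u v => ω (u, v)) (fun u v => ?_) (fun u v hp => ?_) (fun c => ?_) e.1 e.2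
    · have := hω (.inl (u, v))
      rw [e1] at this
      exact eq_neg_of_add_eq_zero_left this
    · have := hω (.inr (.inl (u, v)))
      rwa [e2, if_neg hp] at this
    · have := hω (.inr (.inr c))
      rwa [e3] at this

theorem deg_ev {κ : Type} [Fintype κ] (cr : Finset (V × V)) (own : κ → V) (E : ℝ → κ → V → ℝ)
    (hE : ∀ c v, Continuous fun t => E t c v) (h : DegS cr own (E 0)) :
    ∀ᶠ t in 𝓝 (0 : ℝ), DegS cr own (E t) := by
  refine (triv_eventually (fun t => degM cr own (E t)) _ (fun c e => ?_)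
    ((deg_iff _ _ _).2 h)).mono fun t ht => (deg_iff _ _ _).1 ht
  rcases c with p | p | c
  · exact tendsto_const_nhds
  · exact tendsto_const_nhds
  · simp only [degM]
    split_ifs
    exacts [(hE c e.2).tendsto 0, tendsto_const_nhds]

/-- the points -/
noncomputable def degA (U : Finset V) {L : ℕ} (col : V → Fin L) (g : V → ℝ) (t : ℝ) (v : V) : ℝ :=
  if v ∈ U then ((col v : ℕ) : ℝ) + t * g v else -1 - ((Fintype.equivFin V v : ℕ) : ℝ)

/-- the value of a test polynomial divided by `t ^ l` -/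
noncomputable def degE {L : ℕ} (Z : Finset V) (A : V → ℝ) (n l : ℕ) (j i : Fin L) (t y : ℝ) : ℝ :=
  (∏ z ∈ Z, ((i : ℕ) + t * y - A z)) *
    if i = j then (∏ j' ∈ univ.erase j, (((i : ℕ) : ℝ) + t * y - (j' : ℕ))) ^ n * y ^ l
    else t ^ (n - l) * y ^ n *
      (∏ j' ∈ (univ.erase j).erase i, (((i : ℕ) : ℝ) + t * y - (j' : ℕ))) ^ n *
        ((i : ℕ) + t * y - (j : ℕ)) ^ l

/-- the test polynomial -/
noncomputable def degP {L : ℕ} (Z : Finset V) (A : V → ℝ) (n l : ℕ) (j : Fin L) : ℝ[X] :=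
  (∏ z ∈ Z, (X - C (A z))) * (∏ j' ∈ univ.erase j, (X - C ((j' : ℕ) : ℝ))) ^ n *
    (X - C ((j : ℕ) : ℝ)) ^ l

omit [Fintype V] [LinearOrder V] in
theorem deg_eval {L : ℕ} (Z : Finset V) (A : V → ℝ) {n l : ℕ} (h : l ≤ n) (j i : Fin L)
    (t y : ℝ) : (degP Z A n l j).eval ((i : ℕ) + t * y) = t ^ l * degE Z A n l j i t y := by
  simp only [degP, degE, eval_mul, eval_pow, eval_prod, eval_sub, eval_X, eval_C]
  split_ifs with hij
  · subst hij
    rw [add_sub_cancel_left]
    ring
  · obtain ⟨m, rfl⟩ := Nat.exists_eq_add_of_le h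
    rw [← mul_prod_erase (univ.erase j) _ (mem_erase.2 ⟨hij, mem_univ i⟩), add_sub_cancel_left,
      Nat.add_sub_cancel_left]
    ring

omit [Fintype V] [LinearOrder V] in
theorem deg_degree {L : ℕ} (Z : Finset V) (A : V → ℝ) {n l d : ℕ} (h : l < n) (j : Fin L)
    (hd : Z.card + L * n ≤ d) : (degP Z A n l j).degree < d := by
  refine degree_le_natDegree.trans_lt (Nat.cast_lt.2 ?_)
  have h1 : (∏ z ∈ Z, (X - C (A z))).natDegree = Z.card := natDegree_finsetProd_X_sub_C_eq_card _ _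
  have h2 : (∏ j' ∈ univ.erase j, (X - C ((j' : ℕ) : ℝ))).natDegree = L - 1 := by
    rw [natDegree_finsetProd_X_sub_C_eq_card, card_erase_of_mem (mem_univ j), card_univ,
      Fintype.card_fin]
  have h3 : (degP Z A n l j).natDegree ≤ Z.card + n * (L - 1) + l * 1 := by
    refine natDegree_mul_le.trans (add_le_add (natDegree_mul_le.trans (add_le_add h1.le ?_)) ?_)
    · exact natDegree_pow_le.trans (by rw [h2])
    · exact natDegree_pow_le.trans (by rw [natDegree_X_sub_C])
  obtain ⟨M, rfl⟩ : ∃ M, L = M + 1 := ⟨L - 1, by have := j.pos; omega⟩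
  rw [Nat.add_sub_cancel, mul_comm n] at h3
  rw [add_mul] at hd
  omega

theorem deg (d : ℕ) (U : Finset V) (F : Finset (Sym2 V)) {L : ℕ} (col : V → Fin L) (k : V → ℕ)
    (g : V → ℝ) (hg : Function.Injective g)
    (hk : ∀ u ∈ U, ((nb F u).filter fun v => v ∉ U ∨ col v = col u).card + L * k u ≤ d)
    (hT : ∀ i j, i ≠ j → TFree k (blk F U col i j) g) : ∃ a, MFree d U F a := by
  obtain ⟨Z, hZ⟩ : ∃ Z : V → Finset V,
      Z = fun u => (nb F u).filter fun v => v ∉ U ∨ col v = col u := ⟨_, rfl⟩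
  have mZ : ∀ u v, v ∈ Z u ↔ s(u, v) ∈ F ∧ (v ∉ U ∨ col v = col u) := fun u v => by
    simp [hZ, mem_nb]
  have hk' : ∀ u ∈ U, (Z u).card + L * k u ≤ d := by
    rw [hZ]
    exact hk
  obtain ⟨cr, hcr⟩ : ∃ cr : Finset (V × V), ∀ u v,
      (u, v) ∈ cr ↔ s(u, v) ∈ F ∧ u ∈ U ∧ v ∈ U ∧ col v ≠ col u :=
    ⟨univ.filter fun p => s(p.1, p.2) ∈ F ∧ p.1 ∈ U ∧ p.2 ∈ U ∧ col p.2 ≠ col p.1, by simp⟩
  have crs : ∀ u v, (v, u) ∈ cr ↔ (u, v) ∈ cr := fun u v => by
    rw [hcr, hcr, Sym2.eq_swap]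
    exact ⟨fun h => ⟨h.1, h.2.2.1, h.2.1, h.2.2.2.symm⟩,
      fun h => ⟨h.1, h.2.2.1, h.2.1, h.2.2.2.symm⟩⟩
  obtain ⟨E, hE⟩ : ∃ E : ℝ → V × Fin L × Fin d → V → ℝ, E = fun t c v =>
      if c.1 ∈ U ∧ (c.2.2 : ℕ) < k c.1 then
        degE (Z c.1) (degA U col g t) (k c.1) c.2.2 c.2.1 (col v) t (g v) else 0 := ⟨_, rfl⟩
  have hc : ∀ c v, Continuous fun t => E t c v := fun c v => by
    have hA : ∀ z, Continuous fun t => degA U col g t z := fun z => by
      unfold degA
      split_ifs <;> fun_prop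
    simp only [hE, degE]
    split_ifs <;> fun_prop
  have h0 : DegS cr Prod.fst (E 0) := by
    intro ω h1 h2 h3
    have key : ∀ u ∈ U, ∀ j, j ≠ col u → ∀ l < k u,
        ∑ v, (if col v = j then ω u v else 0) * g v ^ l = 0 := by
      intro u hu j hj l hl
      have hd : l < d := by
        have h4 := hk' u hu
        have h5 := Nat.le_mul_of_pos_left (k u) j.pos
        omega
      have h4 := h3 (u, j, ⟨l, hd⟩)
      have h5 : (∏ z ∈ Z u, (((j : ℕ) : ℝ) - degA U col g 0 z)) *
          (∏ j' ∈ univ.erase j, (((j : ℕ) : ℝ) - (j' : ℕ))) ^ k u ≠ 0 := by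
        refine mul_ne_zero (prod_ne_zero_iff.2 fun z hz => ?_)
          (pow_ne_zero _ (prod_ne_zero_iff.2 fun j' hj' h => (mem_erase.1 hj').1 ?_))
        · unfold degA
          split_ifs with hzU
          · rw [((mZ u z).1 hz).2.resolve_left (not_not.2 hzU), zero_mul, add_zero, sub_ne_zero]
            exact fun h => hj (Fin.ext (Nat.cast_injective h))
          · have : (0 : ℝ) < (j : ℕ) + 1 + (Fintype.equivFin V z : ℕ) := by positivity
            linarith
        · exact (Fin.ext (Nat.cast_injective (sub_eq_zero.1 h))).symm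
      refine (mul_eq_zero.1 ?_).resolve_left h5
      refine Eq.trans ?_ h4
      rw [mul_sum]
      refine sum_congr rfl fun v _ => ?_
      simp only [hE, degE, hu, hl, and_self, if_true, zero_mul, add_zero]
      split_ifs with hv
      · rw [hv]
        ring
      · rw [zero_pow (by omega)]
        ring
    intro u v
    by_cases huv : (u, v) ∈ cr
    swap
    · exact h2 u v huv
    obtain ⟨a1, a2, a3, a4⟩ := (hcr u v).1 huv
    have mb : ∀ x w, (x, w) ∈ blk F U col (col u) (col v) ↔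
        s(x, w) ∈ F ∧ x ∈ U ∧ w ∈ U ∧ col x = col u ∧ col w = col v := fun x w => by simp [blk]
    have h4 := hT (col u) (col v) a4.symm
      (fun x w => if (x, w) ∈ blk F U col (col u) (col v) then ω x w else 0)
      (fun x w h => if_neg h) (fun x l hl => ?_) (fun w l hl => ?_) u v
    · rwa [if_pos ((mb u v).2 ⟨a1, a2, a3, rfl, rfl⟩)] at h4
    · by_cases hx : x ∈ U ∧ col x = col u
      · refine (sum_congr rfl fun w _ => ?_).trans (key x hx.1 (col v) (hx.2 ▸ a4) l hl)
        by_cases hw : (x, w) ∈ cr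
        · obtain ⟨b1, b2, b3, _⟩ := (hcr x w).1 hw
          simp only [mb, b1, b2, b3, hx.2, true_and]
        · simp only [h2 x w hw, ite_self]
      · exact sum_eq_zero fun w _ => by
          rw [if_neg fun h => hx ⟨((mb x w).1 h).2.1, ((mb x w).1 h).2.2.2.1⟩, zero_mul]
    · by_cases hw : w ∈ U ∧ col w = col v
      · rw [← neg_eq_zero, ← sum_neg_distrib]
        refine (sum_congr rfl fun x _ => ?_).trans (key w hw.1 (col u) (hw.2 ▸ a4.symm) l hl)
        by_cases hx : (x, w) ∈ cr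
        · obtain ⟨b1, b2, b3, _⟩ := (hcr x w).1 hx
          simp only [mb, b1, b2, b3, hw.2, true_and, and_true, h1 x w]
          split_ifs <;> ring
        · simp only [h1 x w, h2 x w hx, neg_zero, ite_self, zero_mul]
      · exact sum_eq_zero fun x _ => by
          rw [if_neg fun h => hw ⟨((mb x w).1 h).2.2.1, ((mb x w).1 h).2.2.2.2⟩, zero_mul]
  have h1 : ∀ᶠ t in 𝓝 (0 : ℝ), ∀ v, -1 < t * g v := eventually_all.2 fun v =>
    (show Continuous fun t : ℝ => t * g v by fun_prop).continuousAt.eventually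
      (p := fun y => -1 < y) (lt_mem_nhds (by simp))
  obtain ⟨t, ⟨ht1, ht2⟩, ht0⟩ := ((((deg_ev cr Prod.fst E hc h0).and h1).filter_mono
    (nhdsWithin_le_nhds (s := {0}ᶜ))).and self_mem_nhdsWithin).exists
  have ht0 : t ≠ 0 := ht0
  refine ⟨degA U col g t, fun ω a1 a2 a3 u hu v => ?_⟩
  have mom : ∀ u ∈ U, ∀ f : ℝ[X], f.degree < d →
      ∑ v, ω u v * f.eval (degA U col g t v) = 0 := fun u hu f hf =>
    mom_poly univ (ω u) (degA U col g t) 0 d (by simpa using a3 u hu) f hf
  have tri : ∀ u ∈ U, ∀ v, (u, v) ∉ cr → v ∉ Z u → ω u v = 0 := fun u hu v b1 b2 =>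
    a2 u v fun h => b2 ((mZ u v).2 ⟨h, by
      by_contra hn
      rw [not_or, not_not] at hn
      exact b1 ((hcr u v).2 ⟨h, hu, hn.1, hn.2⟩)⟩)
  have h2 := ht1 (fun x w => if (x, w) ∈ cr then ω x w else 0) (fun x w => by
      simp only [crs x w, a1 x w]
      split_ifs <;> simp) (fun x w h => if_neg h) fun c => by
    by_cases hc : c.1 ∈ U ∧ (c.2.2 : ℕ) < k c.1
    · refine (mul_eq_zero.1 ?_).resolve_left (pow_ne_zero c.2.2 ht0)
      rw [mul_sum]
      refine (sum_congr rfl fun w _ => ?_).trans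
        (mom c.1 hc.1 _ (deg_degree (Z c.1) (degA U col g t) hc.2 c.2.1 (hk' _ hc.1)))
      by_cases hw : (c.1, w) ∈ cr
      · rw [if_pos hw, ← mul_assoc, mul_comm, hE]
        simp only [if_pos hc]
        rw [← deg_eval _ _ hc.2.le, degA, if_pos ((hcr _ _).1 hw).2.2.1]
      · rw [if_neg hw, mul_zero, mul_zero]
        by_cases hz : w ∈ Z c.1
        · simp only [degP, eval_mul, eval_prod, eval_sub, eval_X, eval_C]
          rw [prod_eq_zero hz (sub_self _), zero_mul, zero_mul, mul_zero]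
        · rw [tri _ hc.1 w hw hz, zero_mul]
    · simp only [hE, if_neg hc, zero_mul, sum_const_zero]
  have h3 : ∀ w, w ∉ Z u → ω u w = 0 := fun w hw => by
    by_cases hc : (u, w) ∈ cr
    · have := h2 u w
      rwa [if_pos hc] at this
    · exact tri u hu w hc hw
  by_cases hv : v ∈ Z u
  swap
  · exact h3 v hv
  have h4 := mom u hu (∏ z ∈ (Z u).erase v, (X - C (degA U col g t z))) (by
    refine degree_le_natDegree.trans_lt (Nat.cast_lt.2 ?_)
    rw [natDegree_finsetProd_X_sub_C_eq_card]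
    have := card_erase_lt_of_mem hv
    have := hk' u hu
    omega)
  rw [sum_eq_single v (fun w _ hw => ?_) (fun h => absurd (mem_univ v) h)] at h4
  · refine (mul_eq_zero.1 h4).resolve_right ?_
    simp only [eval_prod, eval_sub, eval_X, eval_C]
    refine prod_ne_zero_iff.2 fun z hz h => (mem_erase.1 hz).1 ?_
    have b1 := ((mZ u v).1 hv).2
    have b2 := ((mZ u z).1 (mem_erase.1 hz).2).2
    have b3 := ht2 v
    have b4 := ht2 z
    unfold degA at h
    split_ifs at h with c1 c2 c2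
    · rw [b1.resolve_left (not_not.2 c1), b2.resolve_left (not_not.2 c2)] at h
      exact hg (mul_left_cancel₀ ht0 (by linarith))
    · have : (0 : ℝ) ≤ (col v : ℕ) + (Fintype.equivFin V z : ℕ) := by positivity
      linarith
    · have : (0 : ℝ) ≤ (col z : ℕ) + (Fintype.equivFin V v : ℕ) := by positivity
      linarith
    · exact (Fintype.equivFin V).injective (Fin.ext (Nat.cast_injective (R := ℝ) (by linarith)))
  · by_cases hz : w ∈ Z u
    · simp only [eval_prod, eval_sub, eval_X, eval_C]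
      rw [prod_eq_zero (mem_erase.2 ⟨hw, hz⟩) (sub_self _), mul_zero]
    · rw [h3 w hz, zero_mul]

end Pool.Agent.Lib.MP_9087e4_co.Mz
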