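import Pool.Agent.Lib.MP_9087e4_co.Mz.Defs
import Pool.Agent.Lib.MP_9087e4_co.Lov

/-! One class: budgets that depend on the vertex, free left vertices. -/

set_option autoImplicit false

namespace Pool.Agent.Lib.MP_9087e4_co.Mz

open Finset Polynomial Filter Topology Pool.Agent.Lib.MP_f8e628_co Pool.Agent.Lib.MP_9087e4_co.Mx

theorem lov_var {σ W : Type} [Fintype σ] [DecidableEq σ] [Fintype W] [DecidableEq W]
    (N : W → Finset σ) (b : W → ℕ)
    (hc : ∀ J : Finset W, ∀ w₀ ∈ J, (∀ w ∈ J, b w₀ ≤ b w) → (∀ w ∈ J, b w < (N w).card) →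
      ∑ w ∈ J, (N w).card + b w₀ ≤ (J.biUnion N).card + ∑ w ∈ J, b w)
    {g : σ → ℝ} (hg : AlgebraicIndependent ℚ g) (om : σ → W → ℝ)
    (hs : ∀ x w, x ∉ N w → om x w = 0) (hx : ∀ x, ∑ w, om x w = 0)
    (hw : ∀ w, ∀ l < b w, ∑ x, om x w * (g x)⁻¹ ^ l = 0) : ∀ x w, om x w = 0 := by
  have g0 : ∀ x, g x ≠ 0 := fun x h => hg.transcendental x (h ▸ isAlgebraic_zero)
  obtain ⟨c, hcd⟩ : ∃ c : W → σ → ℝ, c = fun w x => om x w * g x * (g x)⁻¹ ^ b w := ⟨_, rfl⟩
  have hm : ∀ w, ∀ j < b w, ∑ x ∈ N w, c w x * g x ^ j = 0 := fun w j hj => by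
    rw [← hw w (b w - 1 - j) (by omega), ← sum_subset (subset_univ (N w)) fun x _ hx => by
      rw [hs x w hx, zero_mul]]
    refine sum_congr rfl fun x _ => ?_
    have e : (g x)⁻¹ ^ b w = (g x)⁻¹ ^ (b w - 1 - j) * (g x ^ j)⁻¹ * (g x)⁻¹ := by
      rw [← inv_pow, ← pow_add, ← pow_succ]
      congr 1
      omega
    have := g0 x
    simp only [hcd]
    rw [e]
    field_simp
  have hd : ∀ w, (lovQ g (N w) (c w)).degree < ((N w).card - b w : ℕ) := fun w =>
    lovQ_deg g _ _ _ (hm w)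
  have hz : ∀ w, ¬ b w < (N w).card → lovQ g (N w) (c w) = 0 := fun w hw => by
    have := hd w
    rwa [show (N w).card - b w = 0 by omega, Nat.cast_zero, Nat.WithBot.lt_zero_iff,
      degree_eq_bot] at this
  have hq : ∀ w, lovQ g (N w) (c w) * lovP g (N w)ᶜ (b w) =
      lovQ g univ fun x => om x w * g x := fun w => by
    rw [← lovQ_mul g (N w) _ fun x hx => by rw [hs x w hx, zero_mul],
      show lovP g (N w)ᶜ (b w) = X ^ b w * lovP g (N w)ᶜ 0 by simp [lovP], ← mul_assoc,
      mul_comm _ (X ^ b w), lovQ_pow g _ _ _ (hm w)]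
    congr 2
    funext x
    have := g0 x
    simp only [hcd, inv_pow]
    field_simp
  have h0 := lovett hg _ univ (Fintype.card σ) (univ.filter fun w => b w < (N w).card)
    (fun w => (N w)ᶜ) b (fun w => (N w).card - b w) (Nat.lt_succ_self _)
    (fun _ _ => subset_univ _) ⟨fun w hw => by
      have k1 := (mem_filter.1 hw).2
      have k2 := card_add_card_compl (N w)
      simp only
      omega, fun J hJ hJn T μ hT => by
      have hb : ∀ w ∈ J, b w < (N w).card := fun w hw => (mem_filter.1 (hJ hw)).2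
      obtain ⟨w₀, h₀, hmin⟩ := exists_min_image J b hJn
      have k1 := hc J w₀ h₀ hmin hb
      have k2 : ∑ w ∈ J, ((N w).card - b w) + ∑ w ∈ J, b w = ∑ w ∈ J, (N w).card := by
        rw [← sum_add_distrib]
        exact sum_congr rfl fun w hw => Nat.sub_add_cancel (hb w hw).le
      have k3 : T ⊆ (J.biUnion N)ᶜ := fun x hx => mem_compl.2 fun hh => by
        obtain ⟨w, hw, hxw⟩ := mem_biUnion.1 hh
        exact mem_compl.1 ((hT w hw).1 hx) hxw
      have k4 := card_le_card k3
      have k5 := card_add_card_compl (J.biUnion N)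
      have k6 : μ ≤ b w₀ := (hT w₀ h₀).2
      simp only
      omega⟩ (fun w => lovQ g (N w) (c w)) (fun w _ => hd w) (by
      rw [sum_subset (subset_univ _) fun w _ hw => by
        rw [hz w fun hh => hw (mem_filter.2 ⟨mem_univ _, hh⟩), zero_mul]]
      simp only [hq]
      unfold lovQ
      rw [sum_comm]
      refine sum_eq_zero fun x _ => ?_
      rw [← sum_mul, ← map_sum, ← sum_mul, hx, zero_mul, map_zero, zero_mul])
  intro x w
  by_cases hxw : x ∈ N w
  · have : c w x = 0 := by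
      refine lovQ_zero hg.injective ?_ hxw
      by_cases hb : b w < (N w).card
      · exact h0 w (mem_filter.2 ⟨mem_univ _, hb⟩)
      · exact hz w hb
    simpa [hcd, g0 x] using this
  · exact hs x w hxw

theorem lov_free {σ W : Type} [Fintype σ] [DecidableEq σ] [Fintype W] [DecidableEq W]
    (N : W → Finset σ) (b : W → ℕ) (Fr : Finset σ)
    (hc1 : ∀ J : Finset W, ∀ w₀ ∈ J, (∀ w ∈ J, b w₀ ≤ b w) → (∀ w ∈ J, (N w).Nonempty) →
      ∑ w ∈ J, (N w).card + b w₀ ≤ (J.biUnion N).card + ∑ w ∈ J, b w)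
    (hc2 : ∀ J : Finset W, (∀ w ∈ J, (N w).Nonempty) →
      ∑ w ∈ J, (N w).card ≤ (J.biUnion N \ Fr).card + ∑ w ∈ J, b w)
    {g : σ → ℝ} (hg : AlgebraicIndependent ℚ g) (om : σ → W → ℝ)
    (hs : ∀ x w, x ∉ N w → om x w = 0) (hx : ∀ x, x ∉ Fr → ∑ w, om x w = 0)
    (hw : ∀ w, ∀ l < b w, ∑ x, om x w * (g x)⁻¹ ^ l = 0) : ∀ x w, om x w = 0 := by
  intro x w
  refine lov_var (W := Option W) (fun o => o.elim Fr N) (fun o => o.elim 0 b)
    (fun J w₀ h₀ hm hb => ?_) hg (fun x o => o.elim (-∑ w, om x w) (om x)) (fun x o h => ?_)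
    (fun x => by simp) (fun o l hl => ?_) x (some w)
  · have hJ : ∀ w ∈ J.eraseNone, (N w).Nonempty := fun w hw =>
      card_pos.1 ((Nat.zero_le _).trans_lt (hb (some w) (mem_eraseNone.1 hw)))
    by_cases hn : none ∈ J
    · obtain ⟨J', rfl⟩ : ∃ J' : Finset W, J = insertNone J' :=
        ⟨J.eraseNone, by rw [insertNone_eraseNone, insert_eq_of_mem hn]⟩
      have k0 : w₀.elim 0 b ≤ 0 := hm none hn
      have k1 := hc2 J' (by simpa using hJ)
      have k2 : (insertNone J').biUnion (fun o => o.elim Fr N) = J'.biUnion N ∪ Fr := by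
        ext y
        simp [Option.exists, or_comm]
      have k3 := card_sdiff_add_card (J'.biUnion N) Fr
      rw [k2, sum_insertNone, sum_insertNone]
      simp only [Option.elim_none, Option.elim_some]
      omega
    · obtain ⟨J', rfl⟩ : ∃ J' : Finset W, J = J'.map Function.Embedding.some :=
        ⟨J.eraseNone, by rw [map_some_eraseNone, erase_eq_of_notMem hn]⟩
      obtain ⟨w₁, h₁, rfl⟩ := mem_map.1 h₀
      have k1 := hc1 J' w₁ h₁ (fun w hw => hm (some w) (mem_map_of_mem _ hw)) (by simpa using hJ)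
      have k2 : (J'.map Function.Embedding.some).biUnion (fun o => o.elim Fr N) =
          J'.biUnion N := by
        ext y
        simp
      rw [k2, sum_map, sum_map]
      exact k1
  · cases o with
    | none => simpa using hx x h
    | some w => exact hs x w h
  · cases o with
    | none => exact absurd hl (Nat.not_lt_zero _)
    | some w => exact hw w l hl

end Pool.Agent.Lib.MP_9087e4_co.Mz
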