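import Pool.Agent.Lib.MP_9087e4_co.Mz.Tree
import Pool.Agent.Lib.MP_9087e4_co.Mz.Lov2
import Pool.Agent.Lib.MP_9087e4_co.Mz.Count
import Pool.Agent.Lib.MP_9087e4_co.Mx.Gen

/-! Classes and times give independence. -/

set_option autoImplicit false

namespace Pool.Agent.Lib.MP_9087e4_co.Mz

open Finset Polynomial Filter Topology Pool.Agent.Lib.MP_f8e628_co Pool.Agent.Lib.MP_9087e4_co.Mx

variable {V : Type} [Fintype V] [DecidableEq V]

theorem tfree_of_times (A : Finset V) (P : Finset (V × V)) (hP : ∀ p ∈ P, p.1 ∈ A ∧ p.2 ∉ A)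
    (k c θ t : V → ℕ) (s κ : ℝ) (hs : 0 < s) (hκ : κ ≤ 2 * s)
    (hcod : ∀ w w', w ≠ w' → ((nR P w ∩ nR P w').card : ℝ) ≤ κ)
    (hX : ∀ x, seenR P c θ t x + 1 ≤ k x) (hW : ∀ w, payR P c θ t w + s ≤ k w) :
    ∃ a, TFree k P a := by
  obtain ⟨g, hg⟩ := exists_gen V
  obtain ⟨e, he⟩ : ∃ e : V → ℕ, Function.Injective e :=
    ⟨fun v => Fintype.equivFin V v, fun _ _ h => (Fintype.equivFin V).injective (Fin.ext h)⟩
  obtain ⟨π, hπ⟩ : ∃ π : ℕ → V → ℕ, ∀ n w,
      π n w = if θ w ≤ n then 2 * e w + 1 else if c w < n then 2 * c w + 2 else 0 :=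
    ⟨_, fun _ _ => rfl⟩
  refine tree A P hP k (fun x => (g x)⁻¹) π (fun n w w' h => ?_) t (fun x => ?_)
    fun ω h1 h2 h3 x0 w0 => ?_
  · by_cases hw : w = w'
    · rw [hw]
    · have := he.ne hw
      rw [hπ, hπ] at h ⊢
      split_ifs at h ⊢ <;> omega
  · refine le_trans ?_ (hX x)
    have h1 : (nL P x).image (π (t x)) ⊆ insert 0
        (((nL P x).filter fun w => θ w ≤ t x).image (fun w => 2 * e w + 1) ∪
          (((nL P x).filter fun w => t x < θ w ∧ c w < t x).image c).image fun r => 2 * r + 2) := by
      intro r hr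
      obtain ⟨w, hw, rfl⟩ := mem_image.1 hr
      rw [hπ]
      split_ifs with a b
      · exact mem_insert_of_mem (mem_union_left _ (mem_image_of_mem _ (mem_filter.2 ⟨hw, a⟩)))
      · exact mem_insert_of_mem (mem_union_right _ (mem_image_of_mem (fun r => 2 * r + 2)
          (mem_image_of_mem _ (mem_filter.2 ⟨hw, not_le.1 a, b⟩))))
      · exact mem_insert_self _ _
    exact (card_le_card h1).trans ((card_insert_le _ _).trans (Nat.add_le_add_right
      ((card_union_le _ _).trans (add_le_add card_image_le card_image_le)) 1))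
  · have res : ∀ x w, θ w ≤ t x → ω x w = 0 := fun x w h => by
      have h4 := h2 x (2 * e w + 1)
      rwa [sum_eq_single w (fun w' hw' hne => ?_) (fun hn => ?_)] at h4
      · have h5 := (mem_filter.1 hw').2
        have := he.ne hne
        rw [hπ] at h5
        split_ifs at h5 <;> omega
      · exact absurd (mem_filter.2 ⟨mem_univ w, by rw [hπ, if_pos h]⟩) hn
    obtain ⟨N, hN⟩ : ∃ N : V → Finset V, ∀ w,
        N w = if c w = c w0 then (nR P w).filter fun x => t x < θ w else ∅ := ⟨_, fun _ => rfl⟩
    have cnt : ∀ J : Finset V, (∀ w ∈ J, (N w).Nonempty) → ∑ w ∈ J, ((N w).card : ℝ) ≤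
        (J.biUnion N \ univ.filter fun x => t x ≤ c w0).card + ∑ w ∈ J, ((k w : ℝ) - s) := by
      intro J hJ
      have hc : ∀ w ∈ J, c w = c w0 := fun w hw => by
        by_contra hn
        have := hJ w hw
        rw [hN, if_neg hn] at this
        exact not_nonempty_empty this
      have h4 : ∀ w ∈ J, N w = (nR P w).filter fun x => t x < θ w := fun w hw => by
        rw [hN, if_pos (hc w hw)]
      rw [sum_congr rfl fun w hw => by rw [h4 w hw], biUnion_congr rfl h4]
      exact (count_free P c θ t (c w0) J hc).trans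
        (add_le_add le_rfl (sum_le_sum fun w _ => le_sub_iff_add_le.2 (hW w)))
    have sub : ∀ w, N w ⊆ nR P w := fun w => by
      rw [hN]
      split_ifs
      exacts [filter_subset _ _, empty_subset _]
    have h4 := lov_free N k (univ.filter fun x => t x ≤ c w0)
      (fun J w1 a1 a2 a3 => count_min N k s κ hs hκ (fun w w' hw => le_trans
        (Nat.cast_le.2 (card_le_card (inter_subset_inter (sub w) (sub w')))) (hcod w w' hw))
        J w1 a1 a2 ((cnt J a3).trans
          (add_le_add (Nat.cast_le.2 (card_le_card sdiff_subset)) le_rfl)))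
      (fun J a3 => by
        have h5 := (cnt J a3).trans
          (add_le_add le_rfl (sum_le_sum fun w _ => sub_le_self (k w : ℝ) hs.le))
        exact_mod_cast h5) hg (fun x w => if c w = c w0 then ω x w else 0)
      (fun x w hx => by
        split_ifs with hc
        · rw [hN, if_pos hc, mem_filter, mem_nR, not_and_or, not_lt] at hx
          exact hx.elim (h1 x w) (res x w)
        · rfl)
      (fun x hx => by
        have h5 : c w0 < t x := by simpa using hx
        refine Eq.trans (sum_congr rfl fun w _ => ?_) ((sum_filter _ _).symm.trans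
          (h2 x (2 * c w0 + 2)))
        by_cases a : θ w ≤ t x
        · simp only [res x w a, ite_self]
        · refine if_congr ?_ rfl rfl
          rw [hπ, if_neg a]
          by_cases b : c w < t x
          · rw [if_pos b]
            omega
          · rw [if_neg b]
            omega)
      (fun w l hl => by
        by_cases hc : c w = c w0
        · simp only [if_pos hc]
          exact h3 w l hl
        · simp only [if_neg hc, zero_mul, sum_const_zero]) x0 w0
    rwa [if_pos rfl] at h4

end Pool.Agent.Lib.MP_9087e4_co.Mz
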