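import Pool.Agent.Lib.MP_9087e4_co.Mz.HN
import Pool.Agent.Lib.MP_b71113_an.KL.Mir

/-! Existence of an equilibrium. -/

set_option autoImplicit false

namespace Pool.Agent.Lib.MP_9087e4_co.Mz

open Finset Polynomial Filter Topology Pool.Agent.Lib.MP_f8e628_co Pool.Agent.Lib.MP_9087e4_co.Mx

theorem box_fix {ι : Type} [Fintype ι] (f : (ι → ℝ) → ι → ℝ)
    (hf : ∀ i, Continuous fun z => f z i) :
    ∃ z : ι → ℝ, ∀ i, 0 ≤ z i ∧ z i ≤ 1 ∧ (0 < z i → 0 ≤ f z i) ∧ (z i < 1 → f z i ≤ 0) := by
  obtain ⟨n, ⟨e⟩⟩ := Finite.exists_equiv_fin ι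
  have hc : ∀ i, Continuous fun x : Fin n → ℝ => f (fun j => x (e j)) i := fun i =>
    (hf i).comp (continuous_pi fun j => continuous_apply (e j))
  obtain ⟨x, hx, h⟩ := Pool.Agent.NapKL.cube_cover (n := n)
    (A := fun i => {x | x i ≤ 0} ∪ {x | 0 ≤ f (fun j => x (e j)) (e.symm i)})
    (B := fun i => {x | 1 ≤ x i} ∪ {x | f (fun j => x (e j)) (e.symm i) ≤ 0})
    (fun i => (isClosed_le (continuous_apply i) continuous_const).union
      (isClosed_le continuous_const (hc _)))
    (fun i => (isClosed_le continuous_const (continuous_apply i)).union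
      (isClosed_le (hc _) continuous_const))
    (fun i x _ => (le_total 0 (f (fun j => x (e j)) (e.symm i))).imp Or.inr Or.inr)
    (fun i x _ h => Or.inl h.le) fun i x _ h => Or.inl h.ge
  refine ⟨fun j => x (e j), fun i => ⟨hx.1 _, hx.2 _, fun h0 => ?_, fun h1 => ?_⟩⟩
  · have h2 : 0 ≤ f (fun j => x (e j)) (e.symm (e i)) := (h (e i)).1.resolve_left (not_le.2 h0)
    rwa [e.symm_apply_apply] at h2
  · have h2 : f (fun j => x (e j)) (e.symm (e i)) ≤ 0 := (h (e i)).2.resolve_left (not_le.2 h1)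
    rwa [e.symm_apply_apply] at h2

variable {V : Type} [Fintype V] [DecidableEq V]

theorem fix_contS {X : Type} [TopologicalSpace X] (N : ℕ) (P : Finset (V × V)) (R : V → ℕ)
    {p : X → V → ℕ → ℝ} {τ : X → V → ℝ} (hp : ∀ w c, Continuous fun z => p z w c)
    (hτ : ∀ x, Continuous fun z => τ z x) (x w : V) (c : ℕ) :
    Continuous fun z => eqS N P R (p z) (τ z) x w c := by
  have h1 : ∀ w', Continuous fun z => 1 - clip (τ z x - c - R w') := fun w' =>
    continuous_const.sub (clip_cont.comp (((hτ x).sub continuous_const).sub continuous_const))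
  exact (h1 w).mul (continuous_const.sub ((clip_cont.comp ((hτ x).sub continuous_const)).mul
    ((hN_cont N).comp (continuous_finsetSum _ fun w' _ => (hp w' c).mul (h1 w')))))

/-- the coordinates of the classes -/
noncomputable def fixY (T : ℕ) (z : (V × Fin T) ⊕ V → ℝ) (w : V) (c : ℕ) : ℝ :=
  if h : c < T then z (Sum.inl (w, ⟨c, h⟩)) else 0

/-- the tail sums -/
noncomputable def fixS (T m : ℕ) (z : (V × Fin T) ⊕ V → ℝ) (w : V) (c : ℕ) : ℝ :=
  (∑ c' ∈ Ico c T, fixY T z w c') / m

/-- the weights of the classes -/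
noncomputable def fixP (T m : ℕ) (z : (V × Fin T) ⊕ V → ℝ) (w : V) (c : ℕ) : ℝ :=
  min 1 (fixS T m z w c) - min 1 (fixS T m z w (c + 1))

omit [Fintype V] [DecidableEq V] in
theorem fix_contP (T m : ℕ) (w : V) (c : ℕ) : Continuous fun z => fixP T m z w c := by
  have h1 : ∀ c, Continuous fun z => fixY T z w c := fun c => by
    unfold fixY
    split_ifs
    · exact continuous_apply _
    · exact continuous_const
  have h2 : ∀ c, Continuous fun z => min 1 (fixS T m z w c) := fun c =>
    continuous_const.min ((continuous_finsetSum _ fun c' _ => h1 c').div_const _)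
  exact (h2 c).sub (h2 _)

omit [Fintype V] [DecidableEq V] in
theorem fix_step (T m : ℕ) (z : (V × Fin T) ⊕ V → ℝ) (w : V) (c : ℕ) :
    fixS T m z w c = fixY T z w c / m + fixS T m z w (c + 1) := by
  unfold fixS
  by_cases h : c < T
  · rw [sum_eq_sum_Ico_succ_bot h, add_div]
  · rw [Ico_eq_empty h, Ico_eq_empty (by omega), fixY, dif_neg h]
    simp

omit [Fintype V] [DecidableEq V] in
theorem fix_sum (T m : ℕ) (z : (V × Fin T) ⊕ V → ℝ) (w : V) :
    ∑ c ∈ range T, fixP T m z w c = min 1 (fixS T m z w 0) := by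
  unfold fixP
  rw [sum_range_sub' fun c => min 1 (fixS T m z w c)]
  simp [fixS]

theorem exists_equil (N T m : ℕ) (hm : 0 < m) (P : Finset (V × V)) (R : V → ℕ) (b : V → ℝ)
    (hb : ∀ v, 0 ≤ b v) : ∃ p τ, Equil N T m P R b p τ := by
  have hS := fix_contS N P R (fix_contP (V := V) T m)
    (τ := fun z x => T * z (Sum.inr x)) fun x => continuous_const.mul (continuous_apply _)
  obtain ⟨z, hz⟩ := box_fix (ι := (V × Fin T) ⊕ V) (fun z => Sum.elim
    (fun q => b q.1 - eqPay N P R (fixP T m z) (fun x => T * z (Sum.inr x)) q.1 q.2)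
    fun x => b x - eqCost N T P R (fixP T m z) (fun x => T * z (Sum.inr x)) x) (by
      rintro (q | x)
      · exact continuous_const.sub (continuous_finsetSum _ fun x _ => hS x q.1 q.2)
      · exact continuous_const.sub (continuous_finsetSum _ fun w _ => continuous_finsetSum _
          fun c _ => (fix_contP T m w c).mul (continuous_const.sub (hS x w c))))
  have hm' : (0 : ℝ) < m := Nat.cast_pos.2 hm
  have y0 : ∀ w c, 0 ≤ fixY T z w c := fun w c => by
    unfold fixY
    split_ifs
    exacts [(hz _).1, le_rfl]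
  have y1 : ∀ w c, fixY T z w c ≤ 1 := fun w c => by
    unfold fixY
    split_ifs
    exacts [(hz _).2.1, zero_le_one]
  have hcard : ∀ w c (s : Finset ℕ), s ⊆ Ico c T →
      ((s.filter fun c' => eqPay N P R (fixP T m z) (fun x => T * z (Sum.inr x)) w c' <
        b w).card : ℝ) / m ≤ fixS T m z w c := fun w c s hs => by
    refine div_le_div_of_nonneg_right ?_ hm'.le
    rw [card_eq_sum_ones, Nat.cast_sum]
    refine (sum_le_sum fun c' hc' => ?_).trans
      (sum_le_sum_of_subset_of_nonneg ((filter_subset _ _).trans hs) fun c' _ _ => y0 w c')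
    have h1 : c' < T := (mem_Ico.1 (hs (mem_filter.1 hc').1)).2
    rw [Nat.cast_one, fixY, dif_pos h1]
    by_contra h2
    exact (sub_pos.2 (mem_filter.1 hc').2).not_ge
      ((hz (Sum.inl (w, ⟨c', h1⟩))).2.2.2 (not_le.1 h2))
  refine ⟨fixP T m z, fun x => T * z (Sum.inr x), fun w c => ?_, fun w c => ?_, fun w => ?_,
    fun w c hc hp => ?_, fun w c hc hp => ?_, fun w h => ?_,
    fun x => mul_nonneg (Nat.cast_nonneg T) (hz _).1, fun x => ?_, fun x h => ?_⟩
  · rw [fixP, fix_step T m z w c, sub_nonneg]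
    exact min_le_min le_rfl (le_add_of_nonneg_left (div_nonneg (y0 w c) hm'.le))
  · have h1 := div_nonneg (y0 w c) hm'.le
    have h2 := div_le_div_of_nonneg_right (y1 w c) hm'.le
    rw [fixP, fix_step T m z w c, sub_le_iff_le_add, add_min]
    exact min_le_min (by linarith) (by linarith)
  · rw [fix_sum]
    exact min_le_left _ _
  · refine sub_nonneg.1 ((hz (Sum.inl (w, ⟨c, hc⟩))).2.2.1 ((hz _).1.lt_of_ne fun h => ?_))
    rw [fixP, fix_step T m z w c, fixY, dif_pos hc, ← h, zero_div, zero_add, sub_self] at hp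
    exact hp.false
  · have h1 := hcard w (c + 1) (Ioo c T) fun c' h => mem_Ico.2 (mem_Ioo.1 h)
    have h2 : fixS T m z w (c + 1) < 1 := by
      by_contra h3
      rw [fixP, min_eq_left (not_lt.1 h3), sub_pos] at hp
      exact hp.not_ge (min_le_left _ _)
    exact_mod_cast ((div_lt_one hm').1 (h1.trans_lt h2)).le
  · rw [fix_sum]
    refine min_eq_left (le_trans ?_ (hcard w 0 (range T) (range_eq_Ico T).le))
    rw [one_le_div hm']
    exact_mod_cast h
  · rcases (hz (Sum.inr x)).1.eq_or_lt with h | h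
    · refine le_trans (le_of_eq (sum_eq_zero fun w _ => sum_eq_zero fun c _ => ?_)) (hb x)
      have h1 : (0 : ℝ) ≤ c := Nat.cast_nonneg c
      have h2 : (0 : ℝ) ≤ R w := Nat.cast_nonneg _
      rw [eqS, ← h, mul_zero, clip_zero (by linarith), clip_zero (by linarith)]
      ring
    · exact sub_nonneg.1 ((hz (Sum.inr x)).2.2.1 h)
  · refine sub_nonpos.1 ((hz (Sum.inr x)).2.2.2 ((hz _).2.1.lt_of_ne fun h1 => ?_))
    rw [h1, mul_one] at h
    exact h.false

end Pool.Agent.Lib.MP_9087e4_co.Mz
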