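import Pool.Agent.Lib.MP_9087e4_co.Mz.Shift

/-! In an equilibrium every vertex places its whole mass. -/

set_option autoImplicit false

namespace Pool.Agent.Lib.MP_9087e4_co.Mz

open Finset Polynomial Filter Topology Pool.Agent.Lib.MP_f8e628_co Pool.Agent.Lib.MP_9087e4_co.Mx

variable {V : Type} [Fintype V] [DecidableEq V]

theorem gap_swap (P : Finset (V × V)) (f : V → V → ℝ) :
    ∑ x, ∑ w ∈ nL P x, f x w = ∑ w, ∑ x ∈ nR P w, f x w := by
  simp only [nL, nR, Finset.sum_filter]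
  exact Finset.sum_comm

theorem gap_nonneg (N : ℕ) (P : Finset (V × V)) (R : V → ℕ) {p : V → ℕ → ℝ}
    (hp : ∀ w c, 0 ≤ p w c) (τ : V → ℝ) (x w : V) (c : ℕ) : 0 ≤ eqS N P R p τ x w c := by
  have h1 : 0 ≤ eqL P R p τ x c :=
    Finset.sum_nonneg fun w _ => mul_nonneg (hp _ _) (sub_nonneg.2 (clip_le_one _))
  exact mul_nonneg (sub_nonneg.2 (clip_le_one _))
    (sub_nonneg.2 (mul_le_one₀ (clip_le_one _) (hN_nonneg _ _) (hN_le_one _ h1)))

omit [DecidableEq V] in
theorem gap_exists (τ : V → ℝ) (h0 : ∀ x, 0 ≤ τ x) (L : ℕ) (hL : 0 < L) :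
    ∃ G : ℕ, G + L ≤ (Fintype.card V + 1) * L ∧ ∀ x, τ x < G ∨ (G : ℝ) + L ≤ τ x := by
  obtain ⟨i, hi, hn⟩ := Finset.exists_mem_notMem_of_card_lt_card
    (s := univ.image fun x => ⌊τ x⌋₊ / L) (t := range (Fintype.card V + 1))
    (by simpa using Nat.lt_succ_of_le (Finset.card_image_le (s := (univ : Finset V))))
  refine ⟨i * L, by nlinarith [mem_range.1 hi], fun x => ?_⟩
  have h1 : ⌊τ x⌋₊ / L ≠ i := fun h => hn (mem_image.2 ⟨x, mem_univ _, h⟩)
  rcases h1.lt_or_gt with h | h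
  · exact Or.inl ((Nat.floor_lt (h0 x)).1 ((Nat.div_lt_iff_lt_mul hL).1 h))
  · have h2 := (Nat.le_floor_iff (h0 x)).1 ((Nat.le_div_iff_mul_le hL).1 (Nat.succ_le_of_lt h))
    right
    push_cast at h2 ⊢
    linarith

theorem gap_pol {T m : ℕ} (y : ℕ → ℝ) (hy : ∀ c, 0 ≤ y c) (b : ℝ) (hb : 0 ≤ b) (c r : ℕ)
    (hc : c + r < T) (h : ((Ioo c T).filter fun c' => y c' < b).card ≤ m) :
    r * (b - y c) - m * b ≤ ∑ j ∈ Icc 1 r, (y (c + j) - y c) := by
  have h1 : ((Icc 1 r).filter fun j => y (c + j) < b).card ≤ m := by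
    refine le_trans (Finset.card_le_card_of_injOn (fun j => c + j) (fun j hj => ?_)
      fun j _ j' _ hj => Nat.add_left_cancel hj) h
    simp only [coe_filter, mem_Icc, mem_Ioo, Set.mem_ofPred_eq] at hj ⊢
    exact ⟨by omega, hj.2⟩
  have h2 : ∑ j ∈ Icc 1 r, (b - y c - if y (c + j) < b then b else 0) ≤
      ∑ j ∈ Icc 1 r, (y (c + j) - y c) := Finset.sum_le_sum fun j _ => by
    have := hy (c + j)
    split_ifs <;> linarith
  rw [Finset.sum_sub_distrib, ← Finset.sum_filter] at h2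
  simp only [Finset.sum_const, Nat.card_Icc, Nat.add_sub_cancel, nsmul_eq_mul] at h2
  have h3 : (((Icc 1 r).filter fun j => y (c + j) < b).card : ℝ) ≤ m := by exact_mod_cast h1
  nlinarith

theorem gap_or (P Q : Finset (V × V)) (I : V → ℝ) (h0 : ∀ x, 0 ≤ I x) (h1 : ∀ x, I x ≤ 1) (w : V)
    (M : ℝ) (hM0 : 0 ≤ M) (hM1 : M ≤ 1) :
    M * ∑ x ∈ nR P w, I x ≤ ∑ x ∈ nR Q w, I x + M * (nR (P \ Q) w).card := by
  have e1 : ∑ x ∈ nR P w, I x ≤ ∑ x ∈ nR Q w ∪ nR (P \ Q) w, I x :=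
    Finset.sum_le_sum_of_subset_of_nonneg (fun x hx => by
      simp only [mem_union, mem_nR, Finset.mem_sdiff] at hx ⊢
      tauto) fun x _ _ => h0 x
  rw [Finset.sum_union (Finset.disjoint_left.2 fun x hx hx' => by
    simp only [mem_nR, Finset.mem_sdiff] at hx hx'
    tauto)] at e1
  have e2 : ∑ x ∈ nR (P \ Q) w, I x ≤ (nR (P \ Q) w).card := by
    simpa using Finset.sum_le_sum (s := nR (P \ Q) w) fun x _ => h1 x
  have e3 : 0 ≤ ∑ x ∈ nR Q w, I x := Finset.sum_nonneg fun x _ => h0 x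
  nlinarith

theorem gap {N T m : ℕ} (hN0 : 0 < N) {P Q : Finset (V × V)} {R : V → ℕ} {b : V → ℝ}
    {p : V → ℕ → ℝ} {τ : V → ℝ} (hE : Equil N T m P R b p τ) (r B : ℕ) (bn : V → ℕ)
    (hR : ∀ w, R w = (r + 1) * (bn w + 1)) (hB : ∀ w, bn w < B) (nB D s : ℝ) (hs : 0 < s)
    (hbin : ∀ x i, (((nL P x).filter fun w => bn w = i).card : ℝ) ≤ nB)
    (hD : ∀ x, ((nL P x).card : ℝ) ≤ D) (hb : ∀ v, ld P Q v + s ≤ b v)
    (hb2 : ∀ v, m * b v ≤ s * r) (hnum : N * r ^ 2 + nB * D < s * r)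
    (hT : (Fintype.card V + 1) * (m + r + (r + 1) * B + 1) ≤ T) (w : V) :
    ∑ c ∈ range T, p w c = 1 := by
  obtain ⟨G, hG, hτ⟩ := gap_exists τ hE.t0 (m + r + (r + 1) * B + 1) (by omega)
  have hGT : G + m + r + 1 ≤ T := by omega
  have hb0 : ∀ v, 0 < b v := fun v => by
    have := hb v
    have := Nat.cast_nonneg (α := ℝ) (ld P Q v)
    linarith
  have hS0 : ∀ x, ¬ τ x < G → ∀ w c, c ≤ G + m + r → eqS N P R p τ x w c = 0 := by
    intro x hx w c hc
    have h1 := (hτ x).resolve_left hx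
    have h2 : c + R w + 1 ≤ G + (m + r + (r + 1) * B + 1) := by
      have := Nat.mul_le_mul_left (r + 1) (show bn w + 1 ≤ B from hB w)
      rw [hR w]
      omega
    have h3 : ((c + R w + 1 : ℕ) : ℝ) ≤ (G + (m + r + (r + 1) * B + 1) : ℕ) := by exact_mod_cast h2
    rw [Nat.cast_add G] at h3
    rw [eqS, clip_one (by push_cast at h1 h3; linarith), sub_self, zero_mul]
  have hS1 : ∀ x, τ x < G → ∀ w c, G ≤ c → eqS N P R p τ x w c = 1 := by
    intro x hx w c hc
    have h1 : (G : ℝ) ≤ c := by exact_mod_cast hc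
    have h2 := Nat.cast_nonneg (α := ℝ) (R w)
    rw [eqS, clip_zero (by linarith), clip_zero (by linarith)]
    ring
  set I : V → ℝ := fun x => if τ x < G then 1 else 0 with hI
  have hI0 : ∀ x, 0 ≤ I x := fun x => by simp only [hI]; split_ifs <;> norm_num
  have hI1 : ∀ x, I x ≤ 1 := fun x => by simp only [hI]; split_ifs <;> norm_num
  set M : V → ℝ := fun w => ∑ c ∈ range G, p w c with hM
  have hM0 : ∀ w, 0 ≤ M w := fun w => Finset.sum_nonneg fun c _ => hE.p0 w c
  have hM1 : ∀ w, M w ≤ 1 := fun w => (Finset.sum_le_sum_of_subset_of_nonneg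
    (range_subset_range.2 (by omega)) fun c _ _ => hE.p0 w c).trans (hE.ps w)
  have hA : ∑ x, I x * b x ≤
      ∑ x, ∑ w ∈ nL P x, ∑ c ∈ range G, p w c * (I x - eqS N P R p τ x w c) := by
    refine Finset.sum_le_sum fun x _ => ?_
    by_cases hx : τ x < G
    · have h1 : (G : ℝ) ≤ T := by exact_mod_cast (by omega : G ≤ T)
      simp only [hI, if_pos hx, one_mul]
      refine (hE.cg x (by linarith)).trans (le_of_eq (Finset.sum_congr rfl fun w _ => ?_))
      refine (Finset.sum_subset (range_subset_range.2 (by omega)) fun c _ hc => ?_).symm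
      rw [hS1 x hx w c (by simpa using hc), sub_self, mul_zero]
    · simp only [hI, if_neg hx, zero_mul]
      refine Finset.sum_nonneg fun w _ => Finset.sum_nonneg fun c hc => ?_
      rw [hS0 x hx w c (by have := mem_range.1 hc; omega), sub_self, mul_zero]
  have hA2 : ∀ w, ∑ x ∈ nR P w, ∑ c ∈ range G, p w c * (I x - eqS N P R p τ x w c) =
      M w * ∑ x ∈ nR P w, I x - ∑ c ∈ range G, p w c * eqPay N P R p τ w c := fun w => by
    rw [Finset.sum_comm, hM, Finset.sum_mul, ← Finset.sum_sub_distrib]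
    refine Finset.sum_congr rfl fun c _ => ?_
    rw [← Finset.mul_sum, Finset.sum_sub_distrib, eqPay, mul_sub]
  rw [gap_swap, Finset.sum_congr rfl fun w _ => hA2 w, Finset.sum_sub_distrib] at hA
  have hO := Finset.sum_le_sum (s := univ) fun w _ => gap_or P Q I hI0 hI1 w (M w) (hM0 w) (hM1 w)
  rw [Finset.sum_add_distrib, ← gap_swap Q fun x _ => I x] at hO
  have hO1 : ∑ x, ∑ _w ∈ nL Q x, I x ≤ ∑ x, (I x * b x - s * I x) :=
    Finset.sum_le_sum fun x _ => by
      have h1 := hb x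
      have h2 := Nat.cast_nonneg (α := ℝ) (nR (P \ Q) x).card
      rw [ld, Nat.cast_add] at h1
      rw [Finset.sum_const, nsmul_eq_mul]
      nlinarith [hI0 x]
  have hO2 : ∑ w, M w * (nR (P \ Q) w).card ≤ ∑ w, (M w * b w - s * M w) :=
    Finset.sum_le_sum fun x _ => by
      have h1 := hb x
      have h2 := Nat.cast_nonneg (α := ℝ) (nL Q x).card
      rw [ld, Nat.cast_add] at h1
      nlinarith [hM0 x]
  rw [Finset.sum_sub_distrib, ← Finset.mul_sum] at hO1 hO2
  have hP : ∑ w, (r * (M w * b w) - r * ∑ c ∈ range G, p w c * eqPay N P R p τ w c -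
      s * r * M w) ≤ ∑ w, ∑ c ∈ range G, p w c *
        ∑ j ∈ Icc 1 r, (eqPay N P R p τ w (c + j) - eqPay N P R p τ w c) := by
    refine Finset.sum_le_sum fun w _ => ?_
    simp only [hM, Finset.sum_mul, Finset.mul_sum (range G), ← Finset.sum_sub_distrib]
    refine Finset.sum_le_sum fun c hc => ?_
    have hc' := mem_range.1 hc
    rcases (hE.p0 w c).eq_or_lt with h | h
    · simp [← h]
    · have h1 := gap_pol (eqPay N P R p τ w) (fun c => Finset.sum_nonneg fun x _ =>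
        gap_nonneg N P R hE.p0 τ x w c) (b w) (hb0 w).le c r (by omega) (hE.pol w c (by omega) h)
      have h2 := hb2 w
      have h3 := mul_le_mul_of_nonneg_left (show r * (b w - eqPay N P R p τ w c) - s * r ≤ _ from
        le_trans (by linarith) h1) h.le
      linarith
  have hnB : 0 ≤ nB := (Nat.cast_nonneg _).trans (hbin w 0)
  have hSh : ∑ x, ∑ w ∈ nL P x, ∑ j ∈ Icc 1 r, ∑ c ∈ range G,
      p w c * (eqS N P R p τ x w (c + j) - eqS N P R p τ x w c) ≤
      ∑ x, (N * r ^ 2 + nB * D) * I x := by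
    refine Finset.sum_le_sum fun x _ => ?_
    by_cases hx : τ x < G
    · have h1 := shift hN0 hE r bn hR x nB (hbin x) G (by omega)
      have h2 := mul_le_mul_of_nonneg_left (hD x) hnB
      rw [Finset.sum_comm] at h1
      simp only [hI, if_pos hx]
      linarith
    · simp only [hI, if_neg hx, mul_zero]
      refine le_of_eq (Finset.sum_eq_zero fun w _ => Finset.sum_eq_zero fun j hj =>
        Finset.sum_eq_zero fun c hc => ?_)
      have := mem_range.1 hc
      have := (mem_Icc.1 hj).2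
      rw [hS0 x hx w c (by omega), hS0 x hx w (c + j) (by omega), sub_self, mul_zero]
  have hS2 : ∀ w, ∑ x ∈ nR P w, ∑ j ∈ Icc 1 r, ∑ c ∈ range G,
      p w c * (eqS N P R p τ x w (c + j) - eqS N P R p τ x w c) = ∑ c ∈ range G, p w c *
        ∑ j ∈ Icc 1 r, (eqPay N P R p τ w (c + j) - eqPay N P R p τ w c) := fun w => by
    simp only [eqPay, ← Finset.sum_sub_distrib, Finset.mul_sum]
    rw [Finset.sum_comm, Finset.sum_comm (s := range G)]
    exact Finset.sum_congr rfl fun j _ => Finset.sum_comm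
  rw [gap_swap, Finset.sum_congr rfl fun w _ => hS2 w, ← Finset.mul_sum] at hSh
  rw [Finset.sum_sub_distrib, Finset.sum_sub_distrib, ← Finset.mul_sum, ← Finset.mul_sum,
    ← Finset.mul_sum] at hP
  have hn : ∑ x, I x ≤ 0 := by
    by_contra hc
    have h1 := mul_lt_mul_of_pos_right hnum (not_le.1 hc)
    have h2 := mul_le_mul_of_nonneg_left (show s * ∑ x, I x ≤ ∑ w, M w * b w -
      ∑ w, ∑ c ∈ range G, p w c * eqPay N P R p τ w c - s * ∑ w, M w by linarith)
      (Nat.cast_nonneg (α := ℝ) r)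
    nlinarith
  have hJ : ∀ x, ¬ τ x < G := fun x hx => by
    have := Finset.single_le_sum (f := I) (fun x _ => hI0 x) (mem_univ x)
    simp only [hI, if_pos hx] at this hn
    linarith
  refine hE.ful w (le_trans (card_range m).ge (Finset.card_le_card fun c hc => ?_))
  have := mem_range.1 hc
  refine mem_filter.2 ⟨mem_range.2 (by omega), ?_⟩
  rw [eqPay, Finset.sum_eq_zero fun x _ => hS0 x (hJ x) w c (by omega)]
  exact hb0 w

end Pool.Agent.Lib.MP_9087e4_co.Mz
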