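import Pool.Agent.Lib.MP_9087e4_co.Mz.Defs

/-! The share function. -/

set_option autoImplicit false

namespace Pool.Agent.Lib.MP_9087e4_co.Mz

open Finset Polynomial Filter Topology Pool.Agent.Lib.MP_f8e628_co Pool.Agent.Lib.MP_9087e4_co.Mx

theorem hN_cont (N : ℕ) : Continuous (hN N) := by
  unfold hN
  fun_prop

theorem hN_nonneg (N : ℕ) (y : ℝ) : 0 ≤ hN N y := by
  unfold hN
  positivity

theorem hN_le_one (N : ℕ) {y : ℝ} (hy : 0 ≤ y) : hN N y ≤ 1 := by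
  unfold hN
  refine div_le_one_of_le₀ ?_ (Nat.cast_nonneg N)
  refine (sum_le_card_nsmul _ _ 1 fun i _ => ?_).trans (by simp)
  exact Real.exp_le_one_iff.2 (neg_nonpos.2 (by positivity))

theorem hN_anti (N : ℕ) {y y' : ℝ} (h : y ≤ y') : hN N y' ≤ hN N y := by
  unfold hN
  gcongr

theorem one_sub_hN {N : ℕ} (hN0 : 0 < N) {y : ℝ} (hy : 0 ≤ y) : 1 - hN N y ≤ y := by
  have hN' : (0 : ℝ) < N := by exact_mod_cast hN0
  have h : (N : ℝ) * (1 - y) ≤ ∑ i ∈ range N, Real.exp (-(y * (((i : ℝ) + 1) / N))) := by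
    have := card_nsmul_le_sum (range N) (fun i : ℕ => Real.exp (-(y * (((i : ℝ) + 1) / N))))
      (1 - y) fun i hi => by
        have k1 : (i : ℝ) + 1 ≤ N := by exact_mod_cast mem_range.1 hi
        have k2 : ((i : ℝ) + 1) / N ≤ 1 := (div_le_one hN').2 k1
        have k3 := mul_le_of_le_one_right hy k2
        linarith [Real.add_one_le_exp (-(y * (((i : ℝ) + 1) / N)))]
    simpa using this
  have h2 : 1 - y ≤ hN N y := by
    unfold hN
    rw [le_div_iff₀ hN']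
    linarith
  linarith

theorem exp_le_hN {N : ℕ} (hN0 : 0 < N) {y : ℝ} (hy : 0 ≤ y) :
    1 - Real.exp (-y) ≤ y * hN N y + y / N := by
  have hN' : (0 : ℝ) < N := by exact_mod_cast hN0
  have h1 := sum_range_sub' (fun i : ℕ => Real.exp (-(y * (((i : ℝ) + 1) / N)))) N
  have h2 : ∑ i ∈ range N, (Real.exp (-(y * (((i : ℝ) + 1) / N))) -
      Real.exp (-(y * ((((i + 1 : ℕ) : ℝ) + 1) / N)))) ≤ y * hN N y := by
    unfold hN
    rw [mul_div_left_comm, mul_comm, mul_sum]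
    refine sum_le_sum fun i _ => ?_
    have e : Real.exp (-(y * ((((i + 1 : ℕ) : ℝ) + 1) / N))) =
        Real.exp (-(y / N)) * Real.exp (-(y * (((i : ℝ) + 1) / N))) := by
      rw [← Real.exp_add]
      congr 1
      push_cast
      ring
    rw [e]
    have k1 := Real.add_one_le_exp (-(y / N))
    have k2 := Real.exp_pos (-(y * (((i : ℝ) + 1) / N)))
    nlinarith
  rw [h1] at h2
  have h3 := Real.add_one_le_exp (-(y * ((((0 : ℕ) : ℝ) + 1) / N)))
  have h4 : Real.exp (-(y * (((N : ℝ) + 1) / N))) ≤ Real.exp (-y) :=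
    Real.exp_le_exp.2 (neg_le_neg (le_mul_of_one_le_right hy ((one_le_div hN').2 (by linarith))))
  have h5 : y * ((((0 : ℕ) : ℝ) + 1) / N) = y / N := by push_cast; ring
  linarith

theorem hN_tangent (N : ℕ) : ∃ F : ℝ → ℝ, F 0 = 0 ∧ (∀ y, 0 ≤ y → F y ≤ N) ∧
    ∀ y y', (y' - y) * hN N y' ≤ F y' - F y := by
  rcases Nat.eq_zero_or_pos N with rfl | hN0
  · exact ⟨fun _ => 0, rfl, fun _ _ => by simp, fun _ _ => by simp [hN]⟩
  have hN' : (0 : ℝ) < N := by exact_mod_cast hN0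
  refine ⟨fun y => (∑ i ∈ range N, (1 - Real.exp (-(y * (((i : ℝ) + 1) / N)))) /
    (((i : ℝ) + 1) / N)) / N, by simp, fun y _ => ?_, fun y y' => ?_⟩
  · rw [div_le_iff₀ hN']
    refine (sum_le_card_nsmul _ _ (N : ℝ) fun i _ => ?_).trans (by simp)
    rw [div_le_iff₀ (by positivity), mul_div_cancel₀ _ hN'.ne']
    linarith [Real.exp_pos (-(y * (((i : ℝ) + 1) / N))), Nat.cast_nonneg (α := ℝ) i]
  · unfold hN
    rw [← sub_div, ← mul_div_assoc, ← sum_sub_distrib, mul_sum]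
    refine div_le_div_of_nonneg_right (sum_le_sum fun i _ => ?_) hN'.le
    have hu : 0 < ((i : ℝ) + 1) / N := by positivity
    generalize ((i : ℝ) + 1) / N = u at hu ⊢
    rw [← sub_div, le_div_iff₀ hu]
    have e : Real.exp (-(y * u)) = Real.exp ((y' - y) * u) * Real.exp (-(y' * u)) := by
      rw [← Real.exp_add]
      congr 1
      ring
    rw [e]
    have k1 := Real.add_one_le_exp ((y' - y) * u)
    have k2 := Real.exp_pos (-(y' * u))
    nlinarith

theorem riemann_pow (N t : ℕ) :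
    (∑ i ∈ range N, (1 - ((i : ℝ) + 1) / N) ^ t) / N ≤ 1 / ((t : ℝ) + 1) := by
  rcases Nat.eq_zero_or_pos N with rfl | hN0
  · simp only [range_zero, sum_empty, zero_div]
    positivity
  have hN' : (0 : ℝ) < N := by exact_mod_cast hN0
  have h1 := sum_range_sub' (fun i : ℕ => (1 - (i : ℝ) / N) ^ (t + 1)) N
  rw [le_div_iff₀ (by positivity), sum_div, sum_mul]
  refine (sum_le_sum fun i hi => ?_).trans (h1.le.trans ?_)
  · have k1 : (i : ℝ) + 1 ≤ N := by exact_mod_cast mem_range.1 hi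
    have k2 : 0 ≤ 1 - ((i : ℝ) + 1) / N := sub_nonneg.2 ((div_le_one hN').2 k1)
    have k3 := pow_add_mul_le_add_pow k2 (b := 1 / (N : ℝ)) (by positivity) (t + 1)
    rw [show 1 - ((i : ℝ) + 1) / N + 1 / N = 1 - (i : ℝ) / N by ring, Nat.add_sub_cancel] at k3
    push_cast at k3 ⊢
    refine le_trans (le_of_eq ?_) (le_sub_iff_add_le'.2 k3)
    ring
  · simp [hN'.ne']

theorem shift_chain (N : ℕ) (y α : ℕ → ℝ) (hy : ∀ c, 0 ≤ y c) (h0 : ∀ c, 0 ≤ α c)
    (h1 : ∀ c, α c ≤ 1) (G j : ℕ) (ha : ∀ c, α (c + j) ≤ α c) :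
    ∑ c ∈ range G, y c * (α c * hN N (y c) - α (c + j) * hN N (y (c + j))) ≤ N * j := by
  obtain ⟨F, F0, F1, F2⟩ := hN_tangent N
  obtain ⟨Ψ, hΨ⟩ : ∃ Ψ : ℕ → ℝ, ∀ c, Ψ c = α c * (F (y c) - y c * hN N (y c) - N) :=
    ⟨_, fun _ => rfl⟩
  have k1 : ∀ c, Ψ c ≤ 0 ∧ -(N : ℝ) ≤ Ψ c := by
    intro c
    have m1 := F2 0 (y c)
    rw [F0, sub_zero, sub_zero] at m1
    have m2 := F1 (y c) (hy c)
    have m3 := mul_nonneg (hy c) (hN_nonneg N (y c))
    have m4 := h0 c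
    have m5 := h1 c
    rw [hΨ]
    constructor <;> nlinarith
  have k2 : ∀ c, y c * (α c * hN N (y c) - α (c + j) * hN N (y (c + j))) ≤ Ψ (c + j) - Ψ c := by
    intro c
    have m1 := mul_le_mul_of_nonneg_left (F2 (y c) (y (c + j))) (h0 (c + j))
    have m2 := mul_nonneg (sub_nonneg.2 (ha c)) (sub_nonneg.2 (F1 (y c) (hy c)))
    rw [hΨ, hΨ]
    nlinarith
  have k3 : ∑ c ∈ range G, (Ψ (c + j) - Ψ c) = ∑ i ∈ range j, (Ψ (G + i) - Ψ i) := by
    have e1 := sum_range_add Ψ G j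
    have e2 := sum_range_add Ψ j G
    rw [add_comm j G] at e2
    simp only [sum_sub_distrib, add_comm _ j]
    linarith
  refine (sum_le_sum fun c _ => k2 c).trans (k3.le.trans ?_)
  refine (sum_le_card_nsmul _ _ (N : ℝ) fun i _ => ?_).trans (by simp [mul_comm])
  linarith [(k1 (G + i)).1, (k1 i).2]

end Pool.Agent.Lib.MP_9087e4_co.Mz
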