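import Pool.Agent.Lib.MP_9087e4_co.Mz.HN

/-! Rounding the times. -/

set_option autoImplicit false

namespace Pool.Agent.Lib.MP_9087e4_co.Mz

open Finset Polynomial Filter Topology Pool.Agent.Lib.MP_f8e628_co Pool.Agent.Lib.MP_9087e4_co.Mx

variable {V : Type} [Fintype V] [DecidableEq V]

theorem round_lt {τ : ℝ} {k : ℕ} : k < ⌈τ⌉₊ ↔ (k : ℝ) < τ := Nat.lt_ceil

theorem round_one {T : ℕ} (t r : ℕ) {a : ℝ} (ha : 0 ≤ a) :
    ∑ c : Fin T, (if (c : ℕ) + r + 1 = t then a else 0) ≤ a := by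
  rw [← sum_filter, sum_const, nsmul_eq_mul]
  refine mul_le_of_le_one_left ha ?_
  exact_mod_cast card_le_one.2 fun i hi j hj => Fin.ext (by
    have h1 := (mem_filter.1 hi).2
    have h2 := (mem_filter.1 hj).2
    omega)

theorem round_clip {τ : ℝ} {k : ℕ} (h : k < ⌈τ⌉₊) (h' : ¬ k + 1 = ⌈τ⌉₊) : clip (τ - k) = 1 := by
  have h1 : k + 1 < ⌈τ⌉₊ := by omega
  have h2 := round_lt.1 h1
  push_cast at h2
  exact clip_one (by linarith)

theorem round_clip0 {τ : ℝ} {k : ℕ} (h : ¬ k < ⌈τ⌉₊) : clip (τ - k) = 0 :=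
  clip_zero (by linarith [not_lt.1 (mt round_lt.2 h)])

theorem round_sub (τ : ℝ) (c r : ℕ) : τ - c - r = τ - ((c + r : ℕ) : ℝ) := by
  push_cast; ring

theorem round_eqL {P : Finset (V × V)} {R : V → ℕ} {p : V → ℕ → ℝ} {τ : V → ℝ}
    (p0 : ∀ w c, 0 ≤ p w c) (x : V) (c : ℕ) : 0 ≤ eqL P R p τ x c :=
  sum_nonneg fun w _ => mul_nonneg (p0 w c) (sub_nonneg.2 (clip_le_one _))

theorem round_lam {T : ℕ} {P : Finset (V × V)} {R : V → ℕ} {p : V → ℕ → ℝ} {τ : V → ℝ}
    (p0 : ∀ w c, 0 ≤ p w c) (x : V) (c : Fin T) :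
    lam P R (fun x => ⌈τ x⌉₊) (fun w (c : Fin T) => p w c) x c ≤ eqL P R p τ x c := by
  refine sum_le_sum fun w _ => ?_
  split_ifs with h
  · exact mul_nonneg (p0 w c) (sub_nonneg.2 (clip_le_one _))
  · rw [round_sub, round_clip0 h, sub_zero, mul_one]

theorem round_X {N T m : ℕ} (hN0 : 0 < N) {P : Finset (V × V)} {R : V → ℕ} {b : V → ℝ}
    {p : V → ℕ → ℝ} {τ : V → ℝ} (hE : Equil N T m P R b p τ) (x : V) :
    exX P R (fun x => ⌈τ x⌉₊) (fun w (c : Fin T) => p w c) x ≤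
      b x + (nL P x).card / m + (nL P x).card / N + 1 := by
  have hc := hE.cl x
  have hN1 : (0 : ℝ) < N := by exact_mod_cast hN0
  have hm : (0 : ℝ) ≤ 1 / m := by positivity
  have e1 : eqCost N T P R p τ x = ∑ w ∈ nL P x, ∑ c : Fin T, p w c * clip (τ x - c - R w) +
      ∑ c : Fin T, clip (τ x - c) * hN N (eqL P R p τ x c) * eqL P R p τ x c := by
    have e2 : ∑ c : Fin T, clip (τ x - c) * hN N (eqL P R p τ x c) * eqL P R p τ x c =
        ∑ w ∈ nL P x, ∑ c : Fin T, clip (τ x - c) * hN N (eqL P R p τ x c) *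
          (p w c * (1 - clip (τ x - c - R w))) := by
      rw [sum_comm]
      exact sum_congr rfl fun c _ => mul_sum _ _ _
    rw [e2, ← sum_add_distrib, eqCost]
    refine sum_congr rfl fun w _ => ?_
    rw [← sum_add_distrib, ← Fin.sum_univ_eq_sum_range
      (fun c => p w c * (1 - eqS N P R p τ x w c))]
    exact sum_congr rfl fun c _ => by rw [eqS]; ring
  have a1 : ∑ w ∈ nL P x, ∑ c : Fin T, (if (c : ℕ) + R w < ⌈τ x⌉₊ then p w c else 0) ≤
      ∑ w ∈ nL P x, (∑ c : Fin T, p w c * clip (τ x - c - R w) + 1 / m) := by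
    refine sum_le_sum fun w _ => le_trans ?_
      (add_le_add le_rfl (round_one (T := T) ⌈τ x⌉₊ (R w) hm))
    rw [← sum_add_distrib]
    refine sum_le_sum fun c _ => ?_
    have g := mul_nonneg (hE.p0 w c) (clip_nonneg (τ x - c - R w))
    split_ifs with h h' h'
    · linarith [hE.p1 w c]
    · rw [round_sub, round_clip h h', mul_one, add_zero]
    · linarith
    · linarith
  have a2 : ∑ c : Fin T, (if (c : ℕ) < ⌈τ x⌉₊ then 1 - Real.exp
      (-lam P R (fun x => ⌈τ x⌉₊) (fun w (c : Fin T) => p w c) x c) else 0) ≤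
      ∑ c : Fin T, (clip (τ x - c) * hN N (eqL P R p τ x c) * eqL P R p τ x c +
        eqL P R p τ x c / N + if (c : ℕ) + 0 + 1 = ⌈τ x⌉₊ then 1 else 0) := by
    refine sum_le_sum fun c _ => ?_
    have y0 := round_eqL (P := P) (R := R) (τ := τ) hE.p0 x c
    have g1 := mul_nonneg (mul_nonneg (clip_nonneg (τ x - c)) (hN_nonneg N (eqL P R p τ x c))) y0
    have g2 := div_nonneg y0 hN1.le
    split_ifs with h h' h'
    · linarith [Real.exp_pos (-lam P R (fun x => ⌈τ x⌉₊) (fun w (c : Fin T) => p w c) x c)]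
    · have g3 := Real.exp_le_exp.2 (neg_le_neg (round_lam (P := P) (R := R) (τ := τ) hE.p0 x c))
      have g4 := exp_le_hN hN0 y0
      rw [round_clip h h']
      linarith
    · linarith
    · linarith
  have a3 : ∑ c : Fin T, eqL P R p τ x c ≤ (nL P x).card := by
    unfold eqL
    rw [sum_comm, card_eq_sum_ones]
    push_cast
    refine sum_le_sum fun w _ => le_trans (sum_le_sum fun c _ => ?_)
      (((Fin.sum_univ_eq_sum_range (fun c => p w c) T).le).trans (hE.ps w))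
    exact mul_le_of_le_one_right (hE.p0 w c) (by linarith [clip_nonneg (τ x - c - R w)])
  rw [sum_add_distrib, sum_const, nsmul_eq_mul, mul_one_div] at a1
  rw [sum_add_distrib, sum_add_distrib, ← sum_div] at a2
  have a4 := round_one (T := T) ⌈τ x⌉₊ 0 zero_le_one
  have a5 := div_le_div_of_nonneg_right a3 hN1.le
  unfold exX
  linarith

theorem round_W {N T m : ℕ} {P : Finset (V × V)} {R : V → ℕ} {b : V → ℝ}
    {p : V → ℕ → ℝ} {τ : V → ℝ} (hE : Equil N T m P R b p τ) (w : V) (c : Fin T)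
    (h : p w c ≠ 0) : exW N P R (fun x => ⌈τ x⌉₊) (fun w (c : Fin T) => p w c) w c ≤ b w := by
  refine le_trans (sum_le_sum fun x _ => ?_)
    (hE.sat w c c.2 (lt_of_le_of_ne (hE.p0 w c) (Ne.symm h)))
  have y0 := round_eqL (P := P) (R := R) (τ := τ) hE.p0 x c
  have g1 : clip (τ x - c) * hN N (eqL P R p τ x c) ≤ hN N (eqL P R p τ x c) :=
    mul_le_of_le_one_left (hN_nonneg _ _) (clip_le_one _)
  unfold eqS
  split_ifs with h1 h2
  · exact mul_nonneg (sub_nonneg.2 (clip_le_one _)) (by linarith [hN_le_one N y0])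
  · rw [round_sub, round_clip0 h1, sub_zero, one_mul]
    linarith [hN_anti N (round_lam (P := P) (R := R) (τ := τ) hE.p0 x c)]
  · rw [round_sub, round_clip0 h1, round_clip0 h2]
    simp

end Pool.Agent.Lib.MP_9087e4_co.Mz
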