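import Pool.Agent.Lib.MP_9087e4_co.Mz.Fix
import Pool.Agent.Lib.MP_9087e4_co.Mz.Gap
import Pool.Agent.Lib.MP_9087e4_co.Mz.Round

/-! Choice of the parameters. -/

set_option autoImplicit false

namespace Pool.Agent.Lib.MP_9087e4_co.Mz

open Finset Polynomial Filter Topology Pool.Agent.Lib.MP_f8e628_co Pool.Agent.Lib.MP_9087e4_co.Mx

theorem laws_ld {V : Type} [Fintype V] [DecidableEq V] {P Q : Finset (V × V)} (hQ : Q ⊆ P) {D : ℕ}
    (h1 : ∀ x, (nL P x).card ≤ D) (h2 : ∀ w, (nR P w).card ≤ D) (v : V) : ld P Q v ≤ 2 * D := by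
  have a1 : (nL Q v).card ≤ (nL P v).card := card_le_card fun w hw => by
    simp only [nL, mem_filter, mem_univ, true_and] at hw ⊢
    exact hQ hw
  have a2 : (nR (P \ Q) v).card ≤ (nR P v).card := card_le_card fun w hw => by
    simp only [nR, mem_filter, mem_univ, true_and] at hw ⊢
    exact sdiff_subset hw
  have := h1 v
  have := h2 v
  rw [ld]
  omega

theorem laws_num {e D : ℝ} {N : ℕ} (he : 0 < e) (he1 : e ≤ 1) (hN : 8 / e ≤ N)
    (hD : 8 / (e * (e ^ 2 / (200 * N))) ≤ D) : ∃ r m : ℕ, (m : ℝ) * (3 * D) ≤ e * D / 2 * r ∧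
      N * (r : ℝ) ^ 2 + e ^ 2 / (128 * N) * D * D < e * D / 2 * r ∧ e ^ 2 / (200 * N) * D ≤ m ∧
      1 / (e ^ 2 / (200 * N)) ≤ e * D / 8 := by
  have hN0 : (0 : ℝ) < N := lt_of_lt_of_le (by positivity) hN
  obtain ⟨u, hu⟩ : ∃ u : ℝ, u = e / N := ⟨_, rfl⟩
  have hu0 : 0 < u := by rw [hu]; positivity
  have e1 : e ^ 2 / (200 * N) = e * u / 200 := by rw [hu]; field_simp
  have e2 : e ^ 2 / (128 * N) = e * u / 128 := by rw [hu]; field_simp
  have e3 : N * u = e := by rw [hu]; field_simp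
  rw [e1] at hD
  rw [e1, e2]
  rw [div_le_iff₀ (by positivity)] at hD
  have hD0 : 0 < D := by
    by_contra h
    have := mul_nonpos_of_nonpos_of_nonneg (not_lt.1 h) (by positivity : 0 ≤ e * (e * u / 200))
    linarith
  have huD : 0 < u * D := by positivity
  have a1 : e * (e * (u * D)) ≤ e * (u * D) := mul_le_of_le_one_left (by positivity) he1
  have a2 : e * (u * D) ≤ u * D := mul_le_of_le_one_left huD.le he1
  have r1 := Nat.floor_le (show 0 ≤ u * D / 8 by positivity)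
  have r2 := Nat.lt_floor_add_one (u * D / 8)
  generalize ⌊u * D / 8⌋₊ = r at r1 r2
  have r3 : u * D / 16 ≤ r := by linarith
  have r0 : (0 : ℝ) < r := lt_of_lt_of_le (by positivity) r3
  have m1 := Nat.floor_le (show 0 ≤ e * r / 6 by positivity)
  have m2 := Nat.lt_floor_add_one (e * r / 6)
  generalize ⌊e * r / 6⌋₊ = m at m1 m2
  have r4 := mul_le_mul_of_nonneg_left r3 he.le
  refine ⟨r, m, ?_, ?_, by linarith, ?_⟩
  · have := mul_le_mul_of_nonneg_right m1 (show 0 ≤ 3 * D by positivity)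
    linarith
  · have b1 := mul_le_mul_of_nonneg_left r1 (show 0 ≤ (N : ℝ) * r by positivity)
    have b2 : (N : ℝ) * r * (u * D / 8) = e * D * r / 8 := by rw [← e3]; ring
    have b3 := mul_le_mul_of_nonneg_right r4 hD0.le
    have b4 : 0 < e * D * r := by positivity
    linarith
  · rw [div_le_iff₀ (by positivity)]
    linarith

theorem laws (η : ℝ) (hη : 0 < η) : ∃ θ β : ℝ, 0 < θ ∧ θ ≤ 1 ∧ 0 < β ∧ ∃ N D0 : ℕ, 0 < N ∧
    ∀ D : ℕ, D0 ≤ D → ∀ (V : Type) [Fintype V] [DecidableEq V] (P Q : Finset (V × V)), Q ⊆ P →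
      (∀ x, (nL P x).card ≤ D) → (∀ w, (nR P w).card ≤ D) → ∀ bn : V → ℕ,
      (∀ x i, (((nL P x).filter fun w => bn w = i).card : ℝ) ≤ β * D) →
      ∃ (T : ℕ) (ν : V → Fin T → ℝ) (R t : V → ℕ), 2 ≤ T ∧ (∀ w c, 0 ≤ ν w c) ∧
        (∀ w, ∑ c, ν w c = 1) ∧ (∀ w c, ν w c ≤ 1 / (θ * D)) ∧
        (∀ x, exX P R t ν x ≤ ld P Q x + η * D) ∧
        ∀ w c, ν w c ≠ 0 → exW N P R t ν w c ≤ ld P Q w + η * D := by
  obtain ⟨e, he, he1, heη⟩ : ∃ e : ℝ, 0 < e ∧ e ≤ 1 ∧ e ≤ η :=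
    ⟨min η 1, lt_min hη one_pos, min_le_right _ _, min_le_left _ _⟩
  have hN := Nat.le_ceil (8 / e)
  generalize ⌈8 / e⌉₊ = N at hN
  have hN0 : (0 : ℝ) < N := lt_of_lt_of_le (by positivity) hN
  have hN0' : 0 < N := by exact_mod_cast hN0
  have hN1 : (1 : ℝ) ≤ N := by exact_mod_cast hN0'
  have hθ : 0 < e ^ 2 / (200 * N) := by positivity
  have hθ1 : e ^ 2 / (200 * N) ≤ 1 := by
    rw [div_le_one (by positivity)]
    nlinarith
  refine ⟨e ^ 2 / (200 * N), e ^ 2 / (128 * N), hθ, hθ1, by positivity, N,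
    ⌈8 / (e * (e ^ 2 / (200 * N)))⌉₊, hN0', fun D hD V _ _ P Q hQ h1 h2 bn hbn => ?_⟩
  have hD' := Nat.ceil_le.1 hD
  have hD0 : (0 : ℝ) < D := lt_of_lt_of_le (by positivity) hD'
  obtain ⟨r, m, n1, n2, n3, n4⟩ := laws_num he he1 hN hD'
  generalize e ^ 2 / (200 * N) = θ at *
  have hm : (0 : ℝ) < m := lt_of_lt_of_le (by positivity) n3
  have heD : e * D ≤ η * D := mul_le_mul_of_nonneg_right heη hD0.le
  have heD1 : e * D ≤ D := mul_le_of_le_one_left hD0.le he1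
  have heD0 : 0 < e * D := by positivity
  obtain ⟨p, τ, hE⟩ := exists_equil N
    ((Fintype.card V + 1) * (m + r + (r + 1) * (univ.sup bn + 1) + 1) + 2) m (by exact_mod_cast hm)
    P (fun w => (r + 1) * (bn w + 1)) (fun v => ld P Q v + e * D / 2) fun v => by positivity
  have h1' : ∀ x, ((nL P x).card : ℝ) ≤ D := fun x => by exact_mod_cast h1 x
  refine ⟨_, fun w c => p w c, _, fun x => ⌈τ x⌉₊, Nat.le_add_left _ _, fun w c => hE.p0 w c,
    fun w => ?_, fun w c => (hE.p1 w c).trans (one_div_le_one_div_of_le (by positivity) n3),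
    fun x => (round_X hN0' hE x).trans ?_, fun w c h => (round_W hE w c h).trans (by linarith)⟩
  · rw [Fin.sum_univ_eq_sum_range (p w)]
    refine gap hN0' hE r (univ.sup bn + 1) bn (fun _ => rfl)
      (fun w => Nat.lt_succ_of_le (le_sup (mem_univ w))) _ D (e * D / 2) (by positivity) hbn h1'
      (fun _ => le_rfl) (fun v => le_trans (mul_le_mul_of_nonneg_left ?_ hm.le) n1) n2
      (Nat.le_add_right _ _) w
    have : (ld P Q v : ℝ) ≤ 2 * D := by exact_mod_cast laws_ld hQ h1 h2 v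
    linarith
  · have a1 : ((nL P x).card : ℝ) / m ≤ 1 / θ := by
      rw [div_le_div_iff₀ hm hθ]
      nlinarith [h1' x]
    have a2 : ((nL P x).card : ℝ) / N ≤ e * D / 8 := by
      rw [div_le_iff₀ he] at hN
      rw [div_le_iff₀ hN0]
      nlinarith [h1' x]
    have a3 : 1 ≤ 1 / θ := one_le_one_div hθ hθ1
    linarith

end Pool.Agent.Lib.MP_9087e4_co.Mz
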