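import Pool.Agent.Lib.MP_9087e4_co.Mz.Defs

/-! Openness and generic points. -/

set_option autoImplicit false

namespace Pool.Agent.Lib.MP_9087e4_co.Mz

open Finset Polynomial Filter Topology Pool.Agent.Lib.MP_f8e628_co Pool.Agent.Lib.MP_9087e4_co.Mx

theorem triv_iff {ι κ : Type} [Fintype ι] (M : κ → ι → ℝ) :
    Triv M ↔ LinearIndependent ℝ fun e c => M c e := by
  rw [Fintype.linearIndependent_iff]
  refine forall_congr' fun ω => imp_congr ?_ funext_iff
  rw [funext_iff]
  simp [Finset.sum_apply, mul_comm]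

theorem triv_eventually {T ι κ : Type} [Fintype ι] [Fintype κ] {l : Filter T}
    (M : T → κ → ι → ℝ) (M₀ : κ → ι → ℝ)
    (h : ∀ c e, Tendsto (fun t => M t c e) l (𝓝 (M₀ c e))) (h₀ : Triv M₀) :
    ∀ᶠ t in l, Triv (M t) := by
  have : Tendsto (fun t e c => M t c e) l (𝓝 fun e c => M₀ c e) :=
    tendsto_pi_nhds.2 fun e => tendsto_pi_nhds.2 fun c => h c e
  exact (this.eventually ((triv_iff M₀).1 h₀).eventually).mono fun t ht => (triv_iff _).2 ht

theorem triv_gen {σ ι κ : Type} [Fintype ι] [Fintype κ] (M : κ → ι → MvPolynomial σ ℚ)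
    {g : σ → ℝ} (hg : AlgebraicIndependent ℚ g) (y : σ → ℝ)
    (h : Triv fun c e => MvPolynomial.aeval y (M c e)) :
    Triv fun c e => MvPolynomial.aeval g (M c e) := by
  have := gen_ind hg y (fun e c => M c e) univ (by
    simpa [Ind] using (triv_iff _).1 h)
  exact (triv_iff _).2 (by simpa [Ind] using this)

variable {V : Type} [Fintype V] [DecidableEq V]

theorem lin_one (q : Prop) [Decidable q] (p : V × V) (ω : V × V → ℝ) :
    ∑ e, (if e = p ∧ q then (1 : ℝ) else 0) * ω e = if q then ω p else 0 := by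
  by_cases h : q <;> simp [h]

theorem lin_fst (q : Prop) [Decidable q] (x : V) (f : V → ℝ) (l : ℕ) (ω : V × V → ℝ) :
    ∑ e : V × V, (if e.1 = x ∧ q then f e.2 ^ l else 0) * ω e =
      if q then ∑ w, ω (x, w) * f w ^ l else 0 := by
  by_cases h : q
  · simp only [h, and_true, if_true, Fintype.sum_prod_type, ite_mul, zero_mul, sum_ite_irrel,
      sum_const_zero, sum_ite_eq', mem_univ, mul_comm]
  · simp [h]

theorem lin_snd (q : Prop) [Decidable q] (w : V) (f : V → ℝ) (l : ℕ) (ω : V × V → ℝ) :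
    ∑ e : V × V, (if e.2 = w ∧ q then f e.1 ^ l else 0) * ω e =
      if q then ∑ x, ω (x, w) * f x ^ l else 0 := by
  by_cases h : q
  · simp only [h, and_true, if_true, Fintype.sum_prod_type, ite_mul, zero_mul, sum_ite_eq',
      mem_univ, mul_comm]
  · simp [h]

theorem tfree_gen {k : V → ℕ} {P : Finset (V × V)} {a g : V → ℝ}
    (hg : AlgebraicIndependent ℚ g) (h : TFree k P a) : TFree k P g := by
  have key : ∀ z : V → ℝ, Triv (fun (c : (V × V) ⊕ (V × Fin (univ.sup k)) ⊕ V × Fin (univ.sup k))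
      (e : V × V) => MvPolynomial.aeval z (Sum.elim
        (fun p => if e = p ∧ p ∉ P then (1 : MvPolynomial V ℚ) else 0) (Sum.elim
        (fun p => if e.1 = p.1 ∧ p.2 < k p.1 then MvPolynomial.X e.2 ^ (p.2 : ℕ) else 0)
        fun p => if e.2 = p.1 ∧ p.2 < k p.1 then MvPolynomial.X e.1 ^ (p.2 : ℕ) else 0) c)) ↔
      TFree k P z := fun z => by
    simp only [Triv, Sum.forall, Sum.elim_inl, Sum.elim_inr, apply_ite (MvPolynomial.aeval z),
      map_one, map_zero, map_pow, MvPolynomial.aeval_X, lin_one, lin_fst,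
      lin_snd, ite_eq_right_iff, Prod.forall]
    constructor
    · intro H ω h1 h2 h3 x w
      exact congrFun (H (fun p => ω p.1 p.2) ⟨h1, fun x l => h2 x l, fun x l => h3 x l⟩) (x, w)
    · rintro H ω ⟨h1, h2, h3⟩
      exact funext fun p => H (fun x w => ω (x, w)) h1
        (fun x l hl => h2 x ⟨l, hl.trans_le (le_sup (mem_univ x))⟩ hl)
        (fun x l hl => h3 x ⟨l, hl.trans_le (le_sup (mem_univ x))⟩ hl) p.1 p.2
  exact (key g).1 (triv_gen _ hg a ((key a).2 h))

theorem mfree_gen {d : ℕ} {U : Finset V} {F : Finset (Sym2 V)} {a g : V → ℝ}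
    (hg : AlgebraicIndependent ℚ g) (h : MFree d U F a) : MFree d U F g := by
  have key : ∀ z : V → ℝ, Triv (fun (c : (V × V) ⊕ (V × V) ⊕ V × Fin d)
      (e : V × V) => MvPolynomial.aeval z (Sum.elim
        (fun p => (if e = p ∧ True then (1 : MvPolynomial V ℚ) else 0) +
          if e = p.swap ∧ True then 1 else 0) (Sum.elim
        (fun p => if e = p ∧ (s(p.1, p.2) ∉ F ∨ (p.1 ∉ U ∧ p.2 ∉ U)) then 1 else 0)
        fun p => if e.1 = p.1 ∧ p.1 ∈ U then MvPolynomial.X e.2 ^ (p.2 : ℕ) else 0) c)) ↔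
      MFree d U F z := fun z => by
    simp only [Triv, Sum.forall, Sum.elim_inl, Sum.elim_inr, map_add,
      apply_ite (MvPolynomial.aeval z), map_one, map_zero, map_pow, MvPolynomial.aeval_X, add_mul,
      sum_add_distrib, lin_one, lin_fst, ite_eq_right_iff, Prod.forall,
      if_true, Prod.swap_prod_mk]
    constructor
    · intro H ω h1 h2 h3 u hu v
      have := congrFun (H (fun p => if p.1 ∈ U ∨ p.2 ∈ U then ω p.1 p.2 else 0)
        ⟨fun x y => ?_, fun x y hh => ?_, fun x l hx => ?_⟩) (u, v)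
      · simpa [hu] using this
      · by_cases hh : x ∈ U ∨ y ∈ U
        · simp [hh, hh.symm, h1 x y]
        · simp [hh, mt Or.symm hh]
      · rcases hh with hh | hh
        · simp [h2 x y hh]
        · simp [hh]
      · simpa [hx] using h3 x hx l l.2
    · rintro H ω ⟨h1, h2, h3⟩
      have z0 := H (fun x w => ω (x, w)) (fun x y => by linarith [h1 x y])
        (fun x y hh => h2 x y (Or.inl hh)) fun x hx l hl => h3 x ⟨l, hl⟩ hx
      funext ⟨x, y⟩
      by_cases hx : x ∈ U
      · exact z0 x hx y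
      by_cases hy : y ∈ U
      · have := z0 y hy x
        have := h1 x y
        simp only [Pi.zero_apply] at *
        linarith
      · exact h2 x y (Or.inr ⟨hx, hy⟩)
  exact (key g).1 (triv_gen _ hg a ((key a).2 h))

end Pool.Agent.Lib.MP_9087e4_co.Mz
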