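import Pool.Agent.Lib.MP_9087e4_co.Mz.Defs
import Pool.Agent.Lib.MP_9087e4_co.Mx.Mom

/-! Points on a parabola and on the moment curve. -/

set_option autoImplicit false

namespace Pool.Agent.Lib.MP_9087e4_co.Mz

open Finset Polynomial Filter Topology Pool.Agent.Lib.MP_f8e628_co Pool.Agent.Lib.MP_9087e4_co.Mx

variable {V : Type} [Fintype V] [LinearOrder V]

theorem spec_star (F : Finset (Sym2 V)) (u : V) (f : Sym2 V → ℝ) (hf : ∀ e, u ∉ e → f e = 0) :
    ∑ e ∈ F, f e = ∑ v, if s(u, v) ∈ F then f s(u, v) else 0 := by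
  rw [← Finset.sum_filter, ← Finset.sum_filter_of_ne (p := fun e => u ∈ e)
    (fun e _ h => by_contra fun h' => h (hf e h'))]
  symm
  refine Finset.sum_bij (fun v _ => s(u, v)) ?_ ?_ ?_ fun _ _ => rfl
  · intro v hv
    exact mem_filter.2 ⟨(mem_filter.1 hv).2, Sym2.mem_mk_left _ _⟩
  · intro v _ w _ h
    exact Sym2.congr_right.1 h
  · intro e he
    obtain ⟨v, rfl⟩ := Sym2.mem_iff_exists.1 (mem_filter.1 he).2
    exact ⟨v, mem_filter.2 ⟨mem_univ _, (mem_filter.1 he).1⟩, rfl⟩

omit [Fintype V] [LinearOrder V] in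
theorem spec_ne {F : Finset (Sym2 V)} (hF : ∀ e ∈ F, ¬ e.IsDiag) {u v : V} (h : s(u, v) ∈ F) :
    u ≠ v := fun h' => hF _ h (Sym2.mk_isDiag_iff.2 h')

omit [Fintype V] in
theorem spec_sg {u v : V} (h : u ≠ v) : sg v u = -sg u v := by
  unfold sg
  rcases lt_or_gt_of_ne h with h1 | h1
  · rw [if_neg (not_le.2 h1), if_pos h1.le]
  · rw [if_pos h1.le, if_neg (not_le.2 h1), neg_neg]

omit [Fintype V] [LinearOrder V] in
theorem spec_vec (k : ℕ) (a : V → ℝ) (u v : V) (s : Fin (k + 1)) :
    cofVec k (fun v => ![a v, a v ^ 2]) u v s = (a u - a v) ^ k * (a v - -a u) ^ (s : ℕ) := by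
  have hs : (a u - a v) ^ k = (a u - a v) ^ (k - s) * (a u - a v) ^ (s : ℕ) := by
    rw [← pow_add]; congr 1; have := s.2; omega
  have h2 : a u ^ 2 - a v ^ 2 = (a u - a v) * (a v - -a u) := by ring
  simp only [cofVec, Matrix.cons_val_zero, Matrix.cons_val_one]
  rw [hs, h2, mul_pow, mul_assoc]

theorem gind_of_mfree (k : ℕ) (F : Finset (Sym2 V)) (hF : ∀ e ∈ F, ¬ e.IsDiag) (a : V → ℝ)
    (ha : Function.Injective a) (h : MFree (k + 1) univ F a) : GInd k F := by
  refine ⟨fun v => ![a v, a v ^ 2], ind_iff.2 fun c hc e he => ?_⟩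
  have key := h
    (fun u v => if s(u, v) ∈ F then sg u v ^ (k + 1) * c s(u, v) * (a u - a v) ^ k else 0)
    (fun u v => by
      rw [Sym2.eq_swap (a := v)]
      split_ifs with h1
      · rw [spec_sg (spec_ne hF h1), ← neg_sub (a u), neg_pow (sg u v), neg_pow (a u - a v),
          pow_succ (-1 : ℝ)]
        have h2 : (-1 : ℝ) ^ k * (-1) ^ k = 1 := by rw [← mul_pow]; simp
        linear_combination (-(sg u v ^ (k + 1) * c s(u, v) * (a u - a v) ^ k)) * h2
      · rw [neg_zero])
    (fun u v h1 => if_neg h1)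
    (fun u _ l hl => by
      have h1 := mom_poly univ
        (fun v => if s(u, v) ∈ F then sg u v ^ (k + 1) * c s(u, v) * (a u - a v) ^ k else 0)
        a (-a u) (k + 1) (fun j hj => by
          have h2 := congrFun hc (u, ⟨j, hj⟩)
          rw [Finset.sum_apply, spec_star F u _ (fun e he => by
            rw [Pi.smul_apply, cofRow_notMem he, smul_zero])] at h2
          refine Eq.trans (Finset.sum_congr rfl fun v _ => ?_) h2
          split_ifs with h3
          · rw [Pi.smul_apply, cofRow_star (spec_ne hF h3), spec_vec, smul_eq_mul]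
            ring
          · rw [zero_mul]) (X ^ l) (by rw [degree_X_pow]; exact_mod_cast hl)
      simpa only [eval_pow, eval_X] using h1)
  induction e using Sym2.ind with
  | _ u v =>
    have h1 := key u (mem_univ _) v
    rw [if_pos he] at h1
    exact (mul_eq_zero.1 ((mul_eq_zero.1 h1).resolve_right
      (pow_ne_zero _ (sub_ne_zero.2 fun h2 => spec_ne hF he (ha h2))))).resolve_left
      (pow_ne_zero _ (sg_ne u v))

theorem rind_of_mfree (d : ℕ) (F : Finset (Sym2 V)) (hF : ∀ e ∈ F, ¬ e.IsDiag) (a : V → ℝ)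
    (ha : Function.Injective a) (h : MFree d univ F a) : RInd d F := by
  refine ⟨fun v l => a v ^ ((l : ℕ) + 1), ind_iff.2 fun c hc e he => ?_⟩
  have h0 : ∀ u, ∀ m ≤ d,
      ∑ v, (if s(u, v) ∈ F then c s(u, v) * (a u ^ m - a v ^ m) else 0) = 0 := by
    intro u m hm
    rcases m with _ | j
    · simp
    have h2 := congrFun hc (u, ⟨j, hm⟩)
    rw [Finset.sum_apply, spec_star F u _ (fun e he => by
      induction e using Sym2.ind with
      | _ x y =>
        rw [Sym2.mem_iff, not_or] at he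
        simp [rigRow, he.1, he.2])] at h2
    refine Eq.trans (Finset.sum_congr rfl fun v _ => ?_) h2
    split_ifs with h3
    · simp [rigRow, spec_ne hF h3]
    · rfl
  have key := h (fun u v => if s(u, v) ∈ F then c s(u, v) * (a v - a u) else 0)
    (fun u v => by
      rw [Sym2.eq_swap (a := v)]
      split_ifs with h1
      · ring
      · rw [neg_zero])
    (fun u v h1 => if_neg h1)
    (fun u _ l hl => by
      have h1 := h0 u l hl.le
      have h2 := h0 u (l + 1) hl
      have h3 : ∑ v, (if s(u, v) ∈ F then c s(u, v) * (a v - a u) else 0) * a v ^ l =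
          a u * ∑ v, (if s(u, v) ∈ F then c s(u, v) * (a u ^ l - a v ^ l) else 0) -
          ∑ v, (if s(u, v) ∈ F then c s(u, v) * (a u ^ (l + 1) - a v ^ (l + 1)) else 0) := by
        rw [Finset.mul_sum, ← Finset.sum_sub_distrib]
        refine Finset.sum_congr rfl fun v _ => ?_
        split_ifs <;> ring
      rw [h3, h1, h2, mul_zero, sub_zero])
  induction e using Sym2.ind with
  | _ u v =>
    have h1 := key u (mem_univ _) v
    rw [if_pos he] at h1
    exact (mul_eq_zero.1 h1).resolve_right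
      (sub_ne_zero.2 fun h2 => spec_ne hF he (ha h2).symm)

end Pool.Agent.Lib.MP_9087e4_co.Mz
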