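import Pool.Agent.Lib.MP_9087e4_co.Mz.Pin
import Pool.Agent.Lib.MP_9087e4_co.Mz.Clos
import Pool.Agent.Lib.MP_9087e4_co.Mz.Spec

/-! The asymptotic Maxwell count. -/

set_option autoImplicit false

namespace Pool.Agent.Lib.MP_9087e4_co.Mz

open Finset Polynomial Filter Topology Pool.Agent.Lib.MP_f8e628_co Pool.Agent.Lib.MP_9087e4_co.Mx

theorem mfree_all (ε : ℝ) (hε : 0 < ε) : ∃ δ : ℝ, 0 < δ ∧ ∃ d0 : ℕ, ∀ d : ℕ, d0 ≤ d →
    ∀ (V : Type) [Fintype V] [LinearOrder V] (g : V → ℝ), AlgebraicIndependent ℚ g →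
      ∀ F : Finset (Sym2 V), (∀ e ∈ F, ¬ e.IsDiag) →
      (∀ u v, u ≠ v → ((nb F u ∩ nb F v).card : ℝ) ≤ δ * d) →
      (∀ B : Finset V, ((F.filter fun e => ∀ v ∈ e, v ∈ B).card : ℝ) ≤ (1 - ε) * d * B.card) →
      MFree d univ F g := by
  obtain ⟨e, e0, e1, e2⟩ : ∃ e : ℝ, 0 < e ∧ e ≤ 1 ∧ e ≤ ε :=
    ⟨min ε 1, lt_min hε one_pos, min_le_right _ _, min_le_left _ _⟩
  obtain ⟨C, hC⟩ := exists_nat_gt (4 / e)
  rw [div_lt_iff₀' e0] at hC
  have C0 : 0 < C := Nat.pos_of_ne_zero fun h => by norm_num [h] at hC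
  obtain ⟨δ, hδ, d0, h⟩ := pinned (e / 4) (by positivity) C C0
  refine ⟨δ, hδ, max d0 C, fun d hd V _ _ g hg => ?_⟩
  have dC : (C : ℝ) ≤ d := Nat.cast_le.2 ((le_max_right _ _).trans hd)
  have d4 : 4 ≤ e * d := hC.le.trans (mul_le_mul_of_nonneg_left dC e0.le)
  have dp : 0 < d := C0.trans_le ((le_max_right _ _).trans hd)
  have d0' : (0 : ℝ) ≤ d := Nat.cast_nonneg d
  have n1 : (⌈(1 - e / 2) * d⌉₊ : ℝ) ≤ (1 - e / 4) * d := by
    have := Nat.ceil_lt_add_one (a := (1 - e / 2) * d) (mul_nonneg (by linarith) d0')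
    linarith
  have n2 : ⌈(1 - e / 2) * d⌉₊ ≤ d := Nat.ceil_le.2 (by nlinarith)
  have key : ∀ A : Finset V, ∀ F : Finset (Sym2 V), (∀ s ∈ F, ∀ v ∈ s, v ∈ A) →
      (∀ s ∈ F, ¬ s.IsDiag) → (∀ u v, u ≠ v → ((nb F u ∩ nb F v).card : ℝ) ≤ δ * d) →
      (∀ B : Finset V, ((F.filter fun s => ∀ v ∈ s, v ∈ B).card : ℝ) ≤ (1 - e) * d * B.card) →
      MFree d univ F g := fun A => by
    induction A using Finset.strongInduction with
    | H A ih =>
      intro F hA hF hc hs ω w1 w2 w3 u _ v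
      rcases A.eq_empty_or_nonempty with rfl | hne
      · exact w2 u v fun hh => absurd (hA _ hh u (Sym2.mem_mk_left _ _)) (notMem_empty _)
      obtain ⟨U, hU, Un, U1, U2⟩ := layer e e0 C d _ hC dp (Nat.le_ceil _) n2 F hF A hne hA hs
      obtain ⟨o, o1, o2⟩ := orient F U _ U2
      obtain ⟨a, ha⟩ := h d ((le_max_left _ _).trans hd) V U F U1 hc o o1
        fun u _ => (Nat.cast_le.2 (o2 u)).trans n1
      have z := mfree_gen hg ha ω w1 w2 fun u _ => w3 u (mem_univ u)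
      have hsub : F.filter (fun s => ∀ v ∈ s, v ∈ A \ U) ⊆ F := filter_subset _ _
      refine ih (A \ U) (sdiff_ssubset hU Un) _ (fun s hs => (mem_filter.1 hs).2)
        (fun s hs => hF s (hsub hs)) (fun u v huv => le_trans (Nat.cast_le.2 (card_le_card
          (inter_subset_inter (nb_mono hsub u) (nb_mono hsub v)))) (hc u v huv))
        (fun B => le_trans (Nat.cast_le.2 (card_le_card (filter_subset_filter _ hsub))) (hs B))
        ω w1 (fun u v huv => ?_) w3 u (mem_univ u) v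
      by_cases h1 : u ∈ U
      · exact z u h1 v
      by_cases h2 : v ∈ U
      · rw [w1, z v h2 u, neg_zero]
      refine w2 u v fun hh => huv (mem_filter.2 ⟨hh, fun y hy => mem_sdiff.2 ⟨hA _ hh y hy, ?_⟩⟩)
      rcases Sym2.mem_iff.1 hy with rfl | rfl <;> assumption
  exact fun F hF hc hs => key univ F (fun _ _ v _ => mem_univ v) hF hc fun B => (hs B).trans
    (mul_le_mul_of_nonneg_right (mul_le_mul_of_nonneg_right (by linarith) d0') (Nat.cast_nonneg _))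

theorem sparse_both3 (ε : ℝ) (hε : 0 < ε) : ∃ δ : ℝ, 0 < δ ∧ ∃ d0 : ℕ, ∀ d : ℕ, d0 ≤ d →
    ∀ (n : ℕ) (G : SimpleGraph (Fin n)),
      (∀ A : Set (Fin n), ({e ∈ G.edgeSet | ∀ v ∈ e, v ∈ A}.ncard : ℝ) ≤ (1 - ε) * d * A.ncard) →
      (∀ u v, u ≠ v → ((G.commonNeighbors u v).ncard : ℝ) ≤ δ * d) →
      ∃ F : Finset (Sym2 (Fin n)), (F : Set (Sym2 (Fin n))) = G.edgeSet ∧ GInd (d - 1) F ∧
        RInd d F := by
  classical
  obtain ⟨δ, hδ, d0, h⟩ := mfree_all ε hε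
  refine ⟨δ, hδ, d0 + 1, fun d hd n G h1 h2 => ⟨G.edgeSet.toFinset, by simp, ?_⟩⟩
  have hnb : ∀ v, (nb G.edgeSet.toFinset v : Set (Fin n)) = G.neighborSet v := fun v => by
    ext a; simp [mem_nb]
  have hF : ∀ e ∈ G.edgeSet.toFinset, ¬ e.IsDiag := fun e he =>
    G.not_isDiag_of_mem_edgeSet (by simpa using he)
  obtain ⟨g, hg⟩ := exists_gen (Fin n)
  have := h d (by omega) (Fin n) g hg G.edgeSet.toFinset hF
    (fun u v huv => by
      rw [← Set.ncard_coe_finset, Finset.coe_inter, hnb, hnb, ← G.commonNeighbors_eq]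
      exact h2 u v huv)
    (fun B => by
      have := h1 B
      rw [Set.ncard_coe_finset] at this
      rw [← Set.ncard_coe_finset]
      convert this using 3
      ext s
      simp)
  exact ⟨gind_of_mfree _ _ hF g hg.injective (by rwa [Nat.sub_add_cancel (by omega)]),
    rind_of_mfree _ _ hF g hg.injective this⟩

end Pool.Agent.Lib.MP_9087e4_co.Mz
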