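import Pool.Agent.Lib.MP_9087e4_co.Mz.Deg
import Pool.Agent.Lib.MP_9087e4_co.Mz.Cross
import Pool.Agent.Lib.MP_9087e4_co.Mz.Multi
import Pool.Agent.Lib.MP_9087e4_co.Mx.Gen

/-! Bounded degrees, the other vertices pinned. -/

set_option autoImplicit false

namespace Pool.Agent.Lib.MP_9087e4_co.Mz

open Finset Polynomial Filter Topology Pool.Agent.Lib.MP_f8e628_co Pool.Agent.Lib.MP_9087e4_co.Mx

theorem pin_mem {V : Type} [Fintype V] [DecidableEq V] {F : Finset (Sym2 V)} {U : Finset V}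
    {L : ℕ} {col : V → Fin L} {i j : Fin L} {x w : V} : (x, w) ∈ blk F U col i j ↔
      s(x, w) ∈ F ∧ x ∈ U ∧ w ∈ U ∧ col x = i ∧ col w = j := by simp [blk]

/-- the sets that are partitioned evenly -/
def pinS {V : Type} [Fintype V] [LinearOrder V] (U : Finset V) (F : Finset (Sym2 V))
    (o : V → Finset V) (j : V × Bool) : Finset V :=
  univ.filter fun v => j.1 ∈ U ∧ v ∈ U ∧ s(j.1, v) ∈ F ∧ (j.2 = true → v ∈ o j.1)

theorem pin_S {V : Type} [Fintype V] [LinearOrder V] {U : Finset V} {F : Finset (Sym2 V)}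
    {o : V → Finset V} {j : V × Bool} {v : V} : v ∈ pinS U F o j ↔
      j.1 ∈ U ∧ v ∈ U ∧ s(j.1, v) ∈ F ∧ (j.2 = true → v ∈ o j.1) := by simp [pinS]

theorem pin_card {V : Type} [Fintype V] [LinearOrder V] {U : Finset V} {F : Finset (Sym2 V)}
    {D : ℕ} (h : ∀ u ∈ U, (nb F u).card ≤ D) {u : V} {T : Finset V}
    (hT : ∀ v ∈ T, u ∈ U ∧ s(u, v) ∈ F) : T.card ≤ D := by
  rcases T.eq_empty_or_nonempty with rfl | ⟨v, hv⟩
  · simp
  · exact (card_le_card fun x hx => mem_nb.2 (hT x hx).2).trans (h u (hT v hv).1)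

theorem pin_ld {V : Type} [Fintype V] [LinearOrder V] {U : Finset V} {F : Finset (Sym2 V)}
    {o : V → Finset V} (ho : ∀ u ∈ U, ∀ v, s(u, v) ∈ F → v ∈ o u ∨ (v ∈ U ∧ u ∈ o v)) {L : ℕ}
    (col : V → Fin L) {i j : Fin L} (hij : i ≠ j) (v : V) : ∃ r,
      ld (blk F U col i j) ((blk F U col i j).filter fun p => p.2 ∈ o p.1) v ≤
        ((pinS U F o (v, true)).filter fun x => col x = r).card := by
  by_cases hv : col v = i
  · refine ⟨j, ?_⟩
    rw [ld, (eq_empty_iff_forall_notMem (s := nR _ v)).2, card_empty, add_zero]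
    · refine card_le_card fun x hx => ?_
      simp only [mem_nL, mem_filter, pin_mem, pin_S] at hx ⊢
      tauto
    · intro x hx
      simp only [mem_nR, Finset.mem_sdiff, pin_mem] at hx
      exact hij (hv.symm.trans hx.1.2.2.2.2)
  · refine ⟨i, ?_⟩
    rw [ld, (eq_empty_iff_forall_notMem (s := nL _ v)).2, card_empty, zero_add]
    · refine card_le_card fun x hx => ?_
      simp only [mem_nR, Finset.mem_sdiff, mem_filter, pin_mem, pin_S] at hx ⊢
      obtain ⟨⟨h1, h2, h3, h4, h5⟩, h6⟩ := hx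
      exact ⟨⟨h3, h2, Sym2.eq_swap ▸ h1, fun _ =>
        ((ho x h2 v h1).resolve_left fun h => h6 ⟨⟨h1, h2, h3, h4, h5⟩, h⟩).2⟩, h4⟩
    · intro x hx
      simp only [mem_nL, mem_filter, pin_mem] at hx
      exact hv hx.1.2.2.2.1

theorem pinned (ε : ℝ) (hε : 0 < ε) (C : ℕ) (hC : 0 < C) : ∃ δ : ℝ, 0 < δ ∧ ∃ d0 : ℕ, ∀ d : ℕ,
    d0 ≤ d → ∀ (V : Type) [Fintype V] [LinearOrder V] (U : Finset V) (F : Finset (Sym2 V)),
      (∀ u ∈ U, (nb F u).card ≤ C * d) →
      (∀ u v, u ≠ v → ((nb F u ∩ nb F v).card : ℝ) ≤ δ * d) → ∀ o : V → Finset V,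
      (∀ u ∈ U, ∀ v, s(u, v) ∈ F → v ∈ o u ∨ (v ∈ U ∧ u ∈ o v)) →
      (∀ u ∈ U, ((o u).card : ℝ) ≤ (1 - ε) * d) → ∃ a, MFree d U F a := by
  obtain ⟨L, hL⟩ := exists_nat_gt (8 * C / ε)
  have C1 : (1 : ℝ) ≤ C := Nat.one_le_cast.2 hC
  have L0 : (0 : ℝ) < L := lt_trans (by positivity) hL
  have L1 : (1 : ℝ) ≤ L := Nat.one_le_cast.2 (Nat.cast_pos.1 L0)
  obtain ⟨η, hη⟩ : ∃ η : ℝ, η = ε / (8 * L * C) := ⟨_, rfl⟩
  have η0 : 0 < η := by rw [hη]; positivity
  have η1 : L * (η * C) = ε / 8 := by rw [hη]; field_simp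
  have η2 : C / L ≤ ε / 8 := by
    rw [div_lt_iff₀ hε] at hL
    rw [div_le_div_iff₀ L0 (by norm_num)]
    linarith
  obtain ⟨D1, h1⟩ := multi L (Nat.cast_pos.1 L0) η η0
  obtain ⟨δ, δ0, D2, h2⟩ := tfree3 η η0
  obtain ⟨D3, h3⟩ := exists_nat_gt (2 * L / ε)
  refine ⟨δ * C, by positivity, max (max D1 D2) D3, fun d hd V _ _ U F hD hc o ho hs => ?_⟩
  have dD : d ≤ C * d := Nat.le_mul_of_pos_left d hC
  obtain ⟨col, hcol⟩ := h1 (C * d) (by omega) V (V × Bool) (pinS U F o)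
    (fun j => pin_card hD fun v hv => ⟨(pin_S.1 hv).1, (pin_S.1 hv).2.2.1⟩) fun v => by
      have e : (univ.filter fun j => v ∈ pinS U F o j) ⊆
          (univ.filter fun u => v ∈ U ∧ s(v, u) ∈ F) ×ˢ (univ : Finset Bool) := fun j hj => by
        simp only [mem_filter, mem_univ, true_and, pin_S, mem_product, and_true] at hj ⊢
        exact ⟨hj.2.1, Sym2.eq_swap ▸ hj.2.2.1⟩
      refine (card_le_card e).trans ?_
      rw [card_product, card_univ, Fintype.card_bool, mul_comm]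
      exact Nat.mul_le_mul_left 2 (pin_card hD fun x hx => (mem_filter.1 hx).2)
  obtain ⟨g, hg⟩ := exists_gen V
  refine deg d U F col (fun u => ⌈((pinS U F o (u, true)).card : ℝ) / L + 2 * (η * (C * d : ℕ))⌉₊)
    g hg.injective (fun u hu => ?_) fun i j hij => ?_
  · have a1 : ((nb F u).filter fun v => v ∉ U ∨ col v = col u).card ≤ (o u \ U).card +
        ((pinS U F o (u, false)).filter fun v => col v = col u).card := by
      refine (card_le_card fun v hv => ?_).trans (card_union_le _ _)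
      simp only [mem_filter, mem_nb, Finset.mem_union, Finset.mem_sdiff, pin_S] at hv ⊢
      have := ho u hu v hv.1
      by_cases h : v ∈ U
      · exact .inr ⟨⟨hu, h, hv.1, by simp⟩, hv.2.resolve_left (not_not.2 h)⟩
      · exact .inl ⟨this.resolve_right fun h' => h h'.1, h⟩
    have a2 : (o u \ U).card + (pinS U F o (u, true)).card ≤ (o u).card := by
      rw [← card_sdiff_add_card_inter (o u) U]
      exact Nat.add_le_add_left (card_le_card fun v hv =>
        mem_inter.2 ⟨(pin_S.1 hv).2.2.2 rfl, (pin_S.1 hv).2.1⟩) _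
    have a3 : (pinS U F o (u, false)).card ≤ C * d :=
      pin_card hD fun v hv => ⟨hu, (pin_S.1 hv).2.2.1⟩
    have a4 := hcol (u, false) (col u)
    have a5 := (Nat.ceil_lt_add_one (a := ((pinS U F o (u, true)).card : ℝ) / L +
      2 * (η * (C * d : ℕ))) (by positivity)).le
    have a6 := hs u hu
    have d0 : (0 : ℝ) ≤ d := Nat.cast_nonneg d
    have a7 : (L : ℝ) ≤ ε / 2 * d := by
      have : (D3 : ℝ) ≤ d := Nat.cast_le.2 (by omega)
      rw [div_lt_iff₀ hε] at h3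
      nlinarith
    have a8 : ((pinS U F o (u, false)).card : ℝ) / L ≤ ε / 8 * d := by
      refine (div_le_div_of_nonneg_right (Nat.cast_le.2 a3) L0.le).trans ?_
      push_cast
      rw [mul_div_right_comm]
      exact mul_le_mul_of_nonneg_right η2 d0
    have a9 : L * (η * (C * d : ℕ)) = ε / 8 * d := by
      rw [← η1]
      push_cast
      ring
    have a10 : η * (C * d : ℕ) ≤ ε / 8 * d := a9 ▸ le_mul_of_one_le_left (by positivity) L1
    have a11 := mul_le_mul_of_nonneg_left a5 L0.le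
    rw [mul_add, mul_add, mul_div_cancel₀ _ L0.ne', mul_left_comm (L : ℝ) 2, a9] at a11
    rw [← Nat.cast_le (α := ℝ)] at a1 a2 ⊢
    rw [Nat.cast_add] at a1 a2 ⊢
    rw [Nat.cast_mul]
    linarith
  · obtain ⟨a, ha⟩ := h2 (C * d) (by omega) V (univ.filter fun v => col v = i) (blk F U col i j)
      ((blk F U col i j).filter fun p => p.2 ∈ o p.1) (fun p hp => by
        have := pin_mem.1 (show (p.1, p.2) ∈ _ from hp)
        simp only [mem_filter, mem_univ, true_and]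
        exact ⟨this.2.2.2.1, fun h => hij (h.symm.trans this.2.2.2.2)⟩) (filter_subset _ _)
      (fun x => pin_card hD fun v hv =>
        ⟨(pin_mem.1 (mem_nL.1 hv)).2.1, (pin_mem.1 (mem_nL.1 hv)).1⟩)
      (fun x => pin_card hD fun v hv =>
        ⟨(pin_mem.1 (mem_nR.1 hv)).2.2.1, Sym2.eq_swap ▸ (pin_mem.1 (mem_nR.1 hv)).1⟩)
      (fun w w' h => by
        have e : ∀ w, nR (blk F U col i j) w ⊆ nb F w := fun w x hx =>
          mem_nb.2 (Sym2.eq_swap ▸ (pin_mem.1 (mem_nR.1 hx)).1)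
        refine (Nat.cast_le.2 (card_le_card (inter_subset_inter (e w) (e w')))).trans
          ((hc w w' h).trans_eq ?_)
        push_cast
        ring)
      (fun u => ⌈((pinS U F o (u, true)).card : ℝ) / L + 2 * (η * (C * d : ℕ))⌉₊) fun v => by
        obtain ⟨r, hr⟩ := pin_ld ho col hij v
        refine le_trans ?_ (Nat.le_ceil _)
        have := (Nat.cast_le.2 hr).trans (hcol (v, true) r)
        linarith
    exact tfree_gen hg ha

end Pool.Agent.Lib.MP_9087e4_co.Mz
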