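import Pool.Agent.Lib.MP_9087e4_co.Mz.HN

/-! Moving all classes by the same amount. -/

set_option autoImplicit false

namespace Pool.Agent.Lib.MP_9087e4_co.Mz

open Finset Polynomial Filter Topology Pool.Agent.Lib.MP_f8e628_co Pool.Agent.Lib.MP_9087e4_co.Mx

variable {V : Type} [Fintype V] [DecidableEq V]

theorem shift_win {r a a' : ℕ} {z : ℝ} (h1 : z - 1 < ((r + 1) * (a + 1) : ℕ))
    (h2 : (((r + 1) * (a' + 1) : ℕ) : ℝ) < z + r) : a' ≤ a := by
  by_contra h
  have h3 : (r + 1) * (a + 1) + (r + 1) ≤ (r + 1) * (a' + 1) := by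
    rw [← Nat.mul_succ]
    exact Nat.mul_le_mul_left _ (by omega)
  have h4 : (((r + 1) * (a + 1) : ℕ) : ℝ) + (r + 1) ≤ ((r + 1) * (a' + 1) : ℕ) := by
    exact_mod_cast h3
  linarith

theorem shift_sum {T G r : ℕ} (hG : G + r ≤ T) (q F : ℕ → ℝ) (hq : ∀ c, 0 ≤ q c)
    (hs : ∑ c ∈ range T, q c ≤ 1) (hF : ∀ c, 0 ≤ F c) :
    ∑ j ∈ Icc 1 r, ∑ c ∈ range G, q c * F (c + j) ≤ ∑ c ∈ range T, F c := by
  rw [sum_comm]
  have h0 : 0 ≤ ∑ c ∈ range T, F c := sum_nonneg fun c _ => hF c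
  calc ∑ c ∈ range G, ∑ j ∈ Icc 1 r, q c * F (c + j)
      ≤ ∑ c ∈ range G, q c * ∑ c ∈ range T, F c := by
        refine sum_le_sum fun c hc => ?_
        rw [← mul_sum]
        refine mul_le_mul_of_nonneg_left ?_ (hq c)
        rw [← sum_image (s := Icc 1 r) (g := fun j => c + j) (f := F)
          fun _ _ _ _ h => Nat.add_left_cancel h]
        refine sum_le_sum_of_subset_of_nonneg (fun k hk => ?_) fun k _ _ => hF k
        obtain ⟨j, hj, rfl⟩ := mem_image.1 hk
        have := mem_range.1 hc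
        have := (mem_Icc.1 hj).2
        exact mem_range.2 (by omega)
    _ ≤ 1 * ∑ c ∈ range T, F c := by
        rw [← sum_mul]
        exact mul_le_mul_of_nonneg_right ((sum_le_sum_of_subset_of_nonneg
          (range_subset_range.2 (by omega)) fun k _ _ => hq k).trans hs) h0
    _ = _ := one_mul _

theorem shift_pt {N : ℕ} (hN0 : 0 < N) {τ y : ℝ} (hy : 0 ≤ y) {c j r R : ℕ} (hj : j ≤ r)
    (hR : r + 1 ≤ R) :
    (clip (τ - c - R) - clip (τ - (c + j : ℕ) - R)) * (1 - clip (τ - (c + j : ℕ)) * hN N y) ≤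
      (if τ - (c + j : ℕ) - 1 < R ∧ (R : ℝ) < τ - (c + j : ℕ) + r then 1 else 0) * y := by
  have h1 : 0 ≤ 1 - clip (τ - (c + j : ℕ)) * hN N y :=
    sub_nonneg.2 (mul_le_one₀ (clip_le_one _) (hN_nonneg _ _) (hN_le_one _ hy))
  have hj' : (j : ℝ) ≤ r := by exact_mod_cast hj
  have hR' : (r : ℝ) + 1 ≤ R := by exact_mod_cast hR
  have a1 := clip_nonneg (τ - (c + j : ℕ) - R)
  have a2 := clip_le_one (τ - c - R)
  split_ifs with h
  · rw [clip_one (z := τ - (c + j : ℕ)) (by linarith [h.2]), one_mul] at h1 ⊢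
    exact mul_le_mul (by linarith) (one_sub_hN hN0 hy) h1 zero_le_one
  · rw [zero_mul]
    refine mul_nonpos_of_nonpos_of_nonneg ?_ h1
    rcases not_and_or.1 h with h | h
    · rw [clip_one (z := τ - (c + j : ℕ) - R) (by linarith [not_lt.1 h])]
      linarith
    · have h2 := not_lt.1 h
      rw [clip_zero (z := τ - c - R) (by push_cast at h2; linarith)]
      linarith

theorem shift {N T m : ℕ} (hN0 : 0 < N) {P : Finset (V × V)} {R : V → ℕ} {b : V → ℝ}
    {p : V → ℕ → ℝ} {τ : V → ℝ} (hE : Equil N T m P R b p τ) (r : ℕ) (bn : V → ℕ)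
    (hR : ∀ w, R w = (r + 1) * (bn w + 1)) (x : V) (nB : ℝ)
    (hbin : ∀ i, (((nL P x).filter fun w => bn w = i).card : ℝ) ≤ nB) (G : ℕ) (hG : G + r ≤ T) :
    ∑ j ∈ Icc 1 r, ∑ w ∈ nL P x, ∑ c ∈ range G,
      p w c * (eqS N P R p τ x w (c + j) - eqS N P R p τ x w c) ≤
        N * r ^ 2 + nB * (nL P x).card := by
  obtain ⟨y, hy⟩ : ∃ y, y = eqL P R p τ x := ⟨_, rfl⟩
  have hy0 : ∀ c, 0 ≤ y c := fun c => hy ▸ sum_nonneg fun w _ =>
    mul_nonneg (hE.p0 w c) (sub_nonneg.2 (clip_le_one _))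
  obtain ⟨I, hI⟩ : ∃ I : V → ℕ → ℝ, I = fun w c =>
    if τ x - (c : ℕ) - 1 < R w ∧ (R w : ℝ) < τ x - (c : ℕ) + r then 1 else 0 := ⟨_, rfl⟩
  have hI0 : ∀ w c, 0 ≤ I w c := fun w c => by
    rw [hI]
    dsimp only
    split_ifs <;> norm_num
  have h1 : ∀ j ∈ Icc 1 r, ∑ w ∈ nL P x, ∑ c ∈ range G,
      p w c * (eqS N P R p τ x w (c + j) - eqS N P R p τ x w c) ≤
      N * r + ∑ w ∈ nL P x, ∑ c ∈ range G, p w c * (I w (c + j) * y (c + j)) := fun j hj => by
    have hjr := (mem_Icc.1 hj).2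
    have h2 := shift_chain N y (fun c => clip (τ x - c)) hy0 (fun _ => clip_nonneg _)
      (fun _ => clip_le_one _) G j fun c => clip_mono (by
        push_cast
        linarith [Nat.cast_nonneg (α := ℝ) j])
    have h3 : (N : ℝ) * j ≤ N * r :=
      mul_le_mul_of_nonneg_left (by exact_mod_cast hjr) N.cast_nonneg
    have h4 : ∑ c ∈ range G, y c * (clip (τ x - c) * hN N (y c) -
        clip (τ x - (c + j : ℕ)) * hN N (y (c + j))) = ∑ w ∈ nL P x, ∑ c ∈ range G,
          p w c * (1 - clip (τ x - c - R w)) * (clip (τ x - c) * hN N (y c) -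
            clip (τ x - (c + j : ℕ)) * hN N (y (c + j))) := by
      rw [sum_comm]
      refine sum_congr rfl fun c _ => ?_
      rw [← sum_mul]
      exact congrArg (· * _) (congrFun hy c)
    refine le_trans ?_ (add_le_add_left ((h4.symm.le.trans h2).trans h3) _)
    rw [← sum_add_distrib]
    refine sum_le_sum fun w _ => ?_
    rw [← sum_add_distrib]
    refine sum_le_sum fun c _ => ?_
    have h5 := mul_le_mul_of_nonneg_left (shift_pt hN0 (τ := τ x) (hy0 (c + j)) (c := c) hjr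
      (R := R w) (by rw [hR]; exact Nat.le_mul_of_pos_right _ (Nat.succ_pos _))) (hE.p0 w c)
    rw [eqS, eqS, ← hy, hI]
    dsimp only
    linarith
  have h6 : ∀ c, ∑ w ∈ nL P x, I w c ≤ nB := fun c => by
    rw [hI]
    dsimp only
    rw [sum_boole]
    rcases ((nL P x).filter fun w => τ x - (c : ℕ) - 1 < R w ∧
      (R w : ℝ) < τ x - (c : ℕ) + r).eq_empty_or_nonempty with h | ⟨w₀, h⟩
    · rw [h, card_empty, Nat.cast_zero]
      exact (Nat.cast_nonneg _).trans (hbin 0)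
    · refine le_trans (Nat.cast_le.2 (card_le_card fun w hw => ?_)) (hbin (bn w₀))
      obtain ⟨-, a1, a2⟩ := mem_filter.1 h
      obtain ⟨hw, a3, a4⟩ := mem_filter.1 hw
      rw [hR] at a1 a2 a3 a4
      exact mem_filter.2 ⟨hw, le_antisymm (shift_win a1 a4) (shift_win a3 a2)⟩
  have h7 : ∑ c ∈ range T, y c ≤ (nL P x).card := by
    rw [hy]
    unfold eqL
    rw [sum_comm, card_eq_sum_ones, Nat.cast_sum]
    refine sum_le_sum fun w _ => ?_
    rw [Nat.cast_one]
    exact (sum_le_sum fun c _ => mul_le_of_le_one_right (hE.p0 w c)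
      (by linarith [clip_nonneg (τ x - c - R w)])).trans (hE.ps w)
  refine (sum_le_sum h1).trans ?_
  rw [sum_add_distrib, sum_const, Nat.card_Icc, nsmul_eq_mul, Nat.add_sub_cancel, sum_comm]
  refine add_le_add (le_of_eq (by ring)) ?_
  calc _ ≤ ∑ w ∈ nL P x, ∑ c ∈ range T, I w c * y c := sum_le_sum fun w _ =>
        shift_sum hG (p w) (fun c => I w c * y c) (hE.p0 w) (hE.ps w)
          fun c => mul_nonneg (hI0 w c) (hy0 c)
    _ ≤ ∑ c ∈ range T, nB * y c := by
        rw [sum_comm]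
        exact sum_le_sum fun c _ => by
          rw [← sum_mul]
          exact mul_le_mul_of_nonneg_right (h6 c) (hy0 c)
    _ ≤ _ := by
        rw [← mul_sum]
        exact mul_le_mul_of_nonneg_left h7 ((Nat.cast_nonneg _).trans (hbin 0))

end Pool.Agent.Lib.MP_9087e4_co.Mz
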