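import Pool.Agent.Lib.MP_9087e4_co.Mz.Lin
import Pool.Agent.Lib.MP_9087e4_co.Mx.Mom

/-! Successive perturbations along a refining chain of partitions. -/

set_option autoImplicit false

namespace Pool.Agent.Lib.MP_9087e4_co.Mz

open Finset Polynomial Filter Topology Pool.Agent.Lib.MP_f8e628_co Pool.Agent.Lib.MP_9087e4_co.Mx

variable {V : Type} [Fintype V] [DecidableEq V]

/-- true equations at the left vertices of time `< s`, part sums at the others -/
def treeSys (P : Finset (V × V)) (k τ : V → ℕ) (lab : ℕ → V → ℕ) (g : V → ℝ) (s : ℕ)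
    (a : V → ℝ) : Prop :=
  ∀ om : V → V → ℝ, (∀ x w, (x, w) ∉ P → om x w = 0) →
    (∀ x, τ x < s → ∀ l < k x, ∑ w, om x w * a w ^ l = 0) →
    (∀ x, s ≤ τ x → ∀ w0, ∑ w, (if lab (τ x) w = lab (τ x) w0 then om x w else 0) = 0) →
    (∀ w, ∀ l < k w, ∑ x, om x w * g x ^ l = 0) → ∀ x w, om x w = 0

/-- the matrix of the mixed system -/
def treeRow (P : Finset (V × V)) (k τ : V → ℕ) (lab : ℕ → V → ℕ) (g : V → ℝ) (s : ℕ) (a : V → ℝ) :
    (V × V) ⊕ (V × Fin (univ.sup k)) ⊕ (V × V) ⊕ (V × Fin (univ.sup k)) → V × V → ℝ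
  | .inl c, p => if p = c ∧ c ∉ P then 1 else 0
  | .inr (.inl c), p => if p.1 = c.1 ∧ τ c.1 < s ∧ (c.2 : ℕ) < k c.1 then a p.2 ^ (c.2 : ℕ) else 0
  | .inr (.inr (.inl c)), p =>
      if p.1 = c.1 ∧ s ≤ τ c.1 ∧ lab (τ c.1) p.2 = lab (τ c.1) c.2 then 1 else 0
  | .inr (.inr (.inr c)), p => if p.2 = c.1 ∧ (c.2 : ℕ) < k c.1 then g p.1 ^ (c.2 : ℕ) else 0

theorem tree_iff (P : Finset (V × V)) (k τ : V → ℕ) (lab : ℕ → V → ℕ) (g : V → ℝ) (s : ℕ)
    (a : V → ℝ) : treeSys P k τ lab g s a ↔ Triv (treeRow P k τ lab g s a) := by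
  have hk : ∀ v l, l < k v → l < univ.sup k := fun v l h => h.trans_le (le_sup (mem_univ v))
  constructor
  · intro h ω hω
    funext p
    refine h (fun x w => ω (x, w)) (fun x w hp => ?_) (fun x hx l hl => ?_) (fun x hx w0 => ?_)
      (fun w l hl => ?_) p.1 p.2
    · simpa [treeRow, hp] using hω (.inl (x, w))
    · simpa [treeRow, hx, hl, Fintype.sum_prod_type, mul_comm] using
        hω (.inr (.inl (x, ⟨l, hk x l hl⟩)))
    · simpa [treeRow, hx, Fintype.sum_prod_type, ite_and] using hω (.inr (.inr (.inl (x, w0))))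
    · simpa [treeRow, hl, Fintype.sum_prod_type, mul_comm] using
        hω (.inr (.inr (.inr (w, ⟨l, hk w l hl⟩))))
  · intro h om h0 h1 h2 h3 x w
    refine congrFun (h (fun p => om p.1 p.2) ?_) (x, w)
    rintro (c | c | c | c)
    · by_cases hc : c ∈ P
      · simp [treeRow, hc]
      · simpa [treeRow, hc] using h0 c.1 c.2 hc
    · by_cases hc : τ c.1 < s ∧ (c.2 : ℕ) < k c.1
      · simpa [treeRow, hc, Fintype.sum_prod_type, mul_comm] using h1 c.1 hc.1 c.2 hc.2
      · simp [treeRow, hc]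
    · by_cases hc : s ≤ τ c.1
      · simpa [treeRow, hc, Fintype.sum_prod_type, ite_and] using h2 c.1 hc c.2
      · simp [treeRow, hc]
    · by_cases hc : (c.2 : ℕ) < k c.1
      · simpa [treeRow, hc, Fintype.sum_prod_type, mul_comm] using h3 c.1 c.2 hc
      · simp [treeRow, hc]

theorem tree_part (N : Finset V) (ω a : V → ℝ) (lb : V → ℕ) (b : ℕ)
    (ha : ∀ w w', a w = a w' ↔ lb w = lb w') (hb : (N.image lb).card ≤ b)
    (h0 : ∀ w, w ∉ N → ω w = 0) (h : ∀ l < b, ∑ w, ω w * a w ^ l = 0) (w0 : V) :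
    ∑ w, (if lb w = lb w0 then ω w else 0) = 0 := by
  classical
  by_cases hr : a w0 ∈ N.image a
  swap
  · refine Finset.sum_eq_zero fun w _ => ?_
    split_ifs with hw
    · exact h0 w fun hN => hr (mem_image.2 ⟨w, hN, (ha _ _).2 hw⟩)
    · rfl
  have hc : (N.image a).card ≤ (N.image lb).card := by
    refine Finset.card_le_card_of_surjOn (fun r => if h : ∃ w, lb w = r then a h.choose else 0) ?_
    intro y hy
    obtain ⟨w, hw, rfl⟩ := mem_image.1 (mem_coe.1 hy)
    have he : ∃ w', lb w' = lb w := ⟨w, rfl⟩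
    exact ⟨lb w, mem_coe.2 (mem_image_of_mem _ hw), by
      simp only [dif_pos he]; exact (ha _ _).2 he.choose_spec⟩
  have h1 := mom_poly univ ω a 0 b (by simpa using h)
    (∏ u ∈ (N.image a).erase (a w0), (X - C u)) (by
      rw [degree_prod]
      simp only [degree_X_sub_C, Finset.sum_const, nsmul_eq_mul, mul_one, Nat.cast_lt]
      have := Finset.card_erase_lt_of_mem hr
      omega)
  simp only [eval_prod, eval_sub, eval_X, eval_C] at h1
  have h2 : ∏ u ∈ (N.image a).erase (a w0), (a w0 - u) ≠ 0 :=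
    Finset.prod_ne_zero_iff.2 fun u hu h => (Finset.mem_erase.1 hu).1 (by linarith)
  refine (mul_eq_zero.1 ?_).resolve_right h2
  refine Eq.trans ?_ h1
  rw [Finset.sum_mul]
  refine Finset.sum_congr rfl fun w _ => ?_
  split_ifs with h3
  · rw [(ha _ _).2 h3]
  · by_cases hN : w ∈ N
    · rw [Finset.prod_eq_zero (s := (N.image a).erase (a w0)) (f := fun u => a w - u)
        (Finset.mem_erase.2 ⟨fun h => h3 ((ha _ _).1 h), Finset.mem_image_of_mem _ hN⟩)
        (sub_self _), mul_zero, zero_mul]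
    · rw [h0 w hN, zero_mul, zero_mul]

/-- successive small perturbations along a refining sequence of partitions -/
theorem tree_step (P : Finset (V × V)) (k τ : V → ℕ) (lab : ℕ → V → ℕ) (g : V → ℝ)
    (hlab : ∀ s w w', lab (s + 1) w = lab (s + 1) w' → lab s w = lab s w')
    (hk : ∀ x, ((nL P x).image (lab (τ x))).card ≤ k x) (h : treeSys P k τ lab g 0 0) (s : ℕ) :
    ∃ a : V → ℝ, (∀ w w', a w = a w' ↔ lab s w = lab s w') ∧ treeSys P k τ lab g s a := by
  induction s with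
  | zero =>
    exact ⟨fun w => lab 0 w, fun w w' => Nat.cast_inj, fun om h0 _ h2 h3 =>
      h om h0 (fun x hx => absurd hx (Nat.not_lt_zero _)) h2 h3⟩
  | succ s ih =>
    obtain ⟨a, ha, h⟩ := ih
    have h1 : treeSys P k τ lab g (s + 1) a := by
      intro om h0 h1 h2 h3
      refine h om h0 (fun x hx => h1 x (by omega)) (fun x hx w0 => ?_) h3
      rcases hx.eq_or_lt with hx | hx
      · exact tree_part (nL P x) (om x) a (lab (τ x)) (k x) (hx ▸ ha) (hk x)
          (fun w hw => h0 x w (by simpa using hw)) (h1 x (by omega)) w0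
      · exact h2 x hx w0
    have h2 := triv_eventually (l := 𝓝 (0 : ℝ))
      (fun t => treeRow P k τ lab g (s + 1) fun w => a w + t * lab (s + 1) w) _ (by
        intro c p
        have : Continuous fun t : ℝ =>
            treeRow P k τ lab g (s + 1) (fun w => a w + t * lab (s + 1) w) c p := by
          rcases c with c | c | c | c <;> simp only [treeRow] <;> split_ifs <;> fun_prop
        simpa using this.tendsto 0) ((tree_iff _ _ _ _ _ _ _).1 h1)
    have h3 : ∀ᶠ t in 𝓝 (0 : ℝ), ∀ w w', a w ≠ a w' →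
        a w + t * lab (s + 1) w ≠ a w' + t * lab (s + 1) w' := by
      simp only [eventually_all]
      intro w w' hw
      have hc : ContinuousAt (fun t : ℝ => a w + t * lab (s + 1) w - (a w' + t * lab (s + 1) w'))
        0 := by fun_prop
      simpa only [Ne, sub_eq_zero] using hc.eventually_ne (y := 0)
        (by simpa [sub_eq_zero] using hw)
    obtain ⟨t, ⟨h4, h5⟩, ht⟩ := (((h2.and h3).filter_mono nhdsWithin_le_nhds).and
      (self_mem_nhdsWithin (s := {0}ᶜ))).exists
    refine ⟨_, fun w w' => ⟨fun h6 => ?_, fun h6 => ?_⟩, (tree_iff _ _ _ _ _ _ _).2 h4⟩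
    · by_cases h7 : a w = a w'
      · rw [h7, add_right_inj] at h6
        exact_mod_cast mul_left_cancel₀ ht h6
      · exact absurd h6 (h5 w w' h7)
    · rw [(ha w w').2 (hlab s w w' h6), h6]

theorem tree (A : Finset V) (P : Finset (V × V)) (hP : ∀ p ∈ P, p.1 ∈ A ∧ p.2 ∉ A) (k : V → ℕ)
    (α : V → ℝ) (π : ℕ → V → ℕ) (hπ : ∀ s w w', π (s + 1) w = π (s + 1) w' → π s w = π s w')
    (t : V → ℕ) (hk : ∀ x, ((nL P x).image (π (t x))).card ≤ k x)
    (h : ∀ ω : V → V → ℝ, (∀ x w, (x, w) ∉ P → ω x w = 0) →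
      (∀ x r, ∑ w ∈ univ.filter fun w => π (t x) w = r, ω x w = 0) →
      (∀ w, ∀ l < k w, ∑ x, ω x w * α x ^ l = 0) → ∀ x w, ω x w = 0) :
    ∃ a, TFree k P a := by
  obtain ⟨a, -, ha⟩ := tree_step P k t π α hπ hk (fun om h0 _ h2 h3 => h om h0 (fun x r => by
    by_cases hr : ∃ w0, π (t x) w0 = r
    · obtain ⟨w0, rfl⟩ := hr
      rw [Finset.sum_filter]
      exact h2 x (Nat.zero_le _) w0
    · exact Finset.sum_eq_zero fun w hw => absurd ⟨w, (mem_filter.1 hw).2⟩ hr) h3)
    (univ.sup t + 1)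
  have hs : ∀ x, t x < univ.sup t + 1 := fun x => Nat.lt_succ_of_le (le_sup (mem_univ x))
  refine ⟨fun v => if v ∈ A then α v else a v, fun om h0 h1 h3 => ?_⟩
  refine ha om h0 (fun x _ l hl => ?_) (fun x hx => absurd (hs x) (by omega)) fun w l hl => ?_
  · rw [← h1 x l hl]
    refine Finset.sum_congr rfl fun w _ => ?_
    by_cases hp : (x, w) ∈ P
    · simp only [if_neg (hP _ hp).2]
    · simp [h0 x w hp]
  · rw [← h3 w l hl]
    refine Finset.sum_congr rfl fun x _ => ?_
    by_cases hp : (x, w) ∈ P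
    · simp only [if_pos (hP _ hp).1]
    · simp [h0 x w hp]

end Pool.Agent.Lib.MP_9087e4_co.Mz
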